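import Pool.Agent.Lib.MP_6a1069_gt.Tu.Vert

/-!
AffI: the vertices of a carrier are affinely independent.
PROOF.  `carrier_indep`: suppose `c v₀ ≠ 0`.  For small `ε > 0` the function `t v = φ v x + ε * c v` is
`≥ 0` on `range N`, has the same zeros as `φ v x` (where `φ v x = 0` also `c v = 0`; where `φ v x > 0` take
`ε |c v| < φ v x`), and sum one.  By `h.full` there is `y ∈ D` with `φ v y = t v`; `h.bary`:
`y = ∑ t v • p v = x`, so `t v₀ = φ v₀ x`, contradiction.
`card_le_three`: otherwise `S = Sp N φ x` has more than `3 = finrank + 1` elements, `p` is injective on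
`S` (`p_inj`, all of `S` is live), so `S.image p` has more than `3` elements, and
`Module.exists_nontrivial_relation_sum_zero_of_finrank_succ_lt_card` gives a relation; pull it back to
`S` and use `carrier_indep`.
`tr_nd`: `s = Sp N φ x` has exactly the elements `a, b, c`.  Let `u = p b - p a`, `w = p c - p a`,
`u 0 * w 1 - u 1 * w 0 = 0`.  Then there are `(β, γ) ≠ 0` with `β • u + γ • w = 0`: `(w 0, -u 0)` or
`(w 1, -u 1)` or (if `u = w = 0`) `(1, 0)`.  The relation `c a = -β-γ, c b = β, c c = γ` contradicts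
`carrier_indep`.
-/

namespace PLH

open Finset

theorem carrier_indep {n N : ℕ} {D : Set (Fin n → ℝ)} {p : ℕ → Fin n → ℝ}
    {φ : ℕ → (Fin n → ℝ) → ℝ} (h : IsHT D N p φ) {x : Fin n → ℝ} (hx : x ∈ D) {c : ℕ → ℝ}
    (hc : ∀ v < N, φ v x = 0 → c v = 0) (hs : ∑ v ∈ range N, c v = 0)
    (hp : ∑ v ∈ range N, c v • p v = 0) : ∀ v < N, c v = 0 := by
  classical
  intro v₀ hv₀
  by_contra hne
  have hφ₀ : φ v₀ x ≠ 0 := fun h0 => hne (hc v₀ hv₀ h0)
  obtain ⟨m, hm, hmle⟩ : ∃ m : ℝ, 0 < m ∧ ∀ v < N, φ v x ≠ 0 → m ≤ φ v x := by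
    obtain ⟨u, hu, hmin⟩ := Finset.exists_min_image ((range N).filter (fun v => φ v x ≠ 0))
      (fun v => φ v x) ⟨v₀, mem_filter.2 ⟨mem_range.2 hv₀, hφ₀⟩⟩
    rw [mem_filter, mem_range] at hu
    refine ⟨φ u x, lt_of_le_of_ne (h.nonneg u hu.1 x hx) hu.2.symm, fun v hv hv' => ?_⟩
    exact hmin v (mem_filter.2 ⟨mem_range.2 hv, hv'⟩)
  set M : ℝ := 1 + ∑ v ∈ range N, |c v| with hM
  have hMs : 0 ≤ ∑ v ∈ range N, |c v| := Finset.sum_nonneg fun v _ => abs_nonneg _
  have hMpos : 0 < M := by rw [hM]; linarith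
  have hcM : ∀ v < N, |c v| < M := by
    intro v hv
    have := Finset.single_le_sum (f := fun v => |c v|) (fun v _ => abs_nonneg _) (mem_range.2 hv)
    rw [hM]
    linarith
  set ε : ℝ := m / M with hε
  have hεpos : 0 < ε := div_pos hm hMpos
  have hεc : ∀ v < N, φ v x ≠ 0 → 0 < φ v x + ε * c v := by
    intro v hv hv'
    have h1 : ε * |c v| < m := by
      calc ε * |c v| < ε * M := mul_lt_mul_of_pos_left (hcM v hv) hεpos
        _ = m := by rw [hε]; field_simp
    have h2 := hmle v hv hv'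
    have h3 : -(ε * |c v|) ≤ ε * c v := by
      have := neg_abs_le (c v)
      nlinarith
    linarith
  have ht0 : ∀ v < N, 0 ≤ φ v x + ε * c v := by
    intro v hv
    by_cases hv' : φ v x = 0
    · rw [hv', hc v hv hv', mul_zero, add_zero]
    · exact (hεc v hv hv').le
  have ht1 : ∑ v ∈ range N, (φ v x + ε * c v) = 1 := by
    rw [Finset.sum_add_distrib, ← Finset.mul_sum, hs, h.sum_one x hx, mul_zero, add_zero]
  have htn : ∀ v < N, φ v x + ε * c v ≠ 0 ↔ φ v x ≠ 0 := by
    intro v hv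
    constructor
    · intro h1 h2
      exact h1 (by rw [h2, hc v hv h2, mul_zero, add_zero])
    · intro h1
      exact (hεc v hv h1).ne'
  obtain ⟨y, hy, hyt⟩ := h.full x hx _ ht0 ht1 htn
  have hyx : y = x := by
    rw [← h.bary y hy]
    have h1 : ∑ v ∈ range N, φ v y • p v = ∑ v ∈ range N, (φ v x + ε * c v) • p v :=
      Finset.sum_congr rfl fun v hv => by rw [hyt v (mem_range.1 hv)]
    have h2 : ∑ v ∈ range N, (φ v x + ε * c v) • p v =
        ∑ v ∈ range N, φ v x • p v + ε • ∑ v ∈ range N, c v • p v := by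
      rw [Finset.smul_sum, ← Finset.sum_add_distrib]
      exact Finset.sum_congr rfl fun v _ => by rw [add_smul, mul_smul]
    rw [h1, h2, hp, smul_zero, add_zero, h.bary x hx]
  have h4 := hyt v₀ hv₀
  rw [hyx] at h4
  have h5 : ε * c v₀ = 0 := by linarith
  rcases mul_eq_zero.1 h5 with h6 | h6
  · exact hεpos.ne' h6
  · exact hne h6

theorem card_le_three {N : ℕ} {D : Set (Fin 2 → ℝ)} (hD : IsClosed D) {p : ℕ → Fin 2 → ℝ}
    {φ : ℕ → (Fin 2 → ℝ) → ℝ} (h : IsHT D N p φ) {x : Fin 2 → ℝ} (hx : x ∈ D) :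
    (Sp N φ x).card ≤ 3 := by
  classical
  by_contra hcard
  push Not at hcard
  have hinj : Set.InjOn p (Sp N φ x : Set ℕ) := by
    intro u hu v hv huv
    have hu' := mem_Sp.1 (mem_coe.1 hu)
    have hv' := mem_Sp.1 (mem_coe.1 hv)
    exact p_inj hD h u (mem_Lv.2 ⟨hu'.1, x, hx, hu'.2⟩) v (mem_Lv.2 ⟨hv'.1, x, hx, hv'.2⟩) huv
  have hci : ((Sp N φ x).image p).card = (Sp N φ x).card := Finset.card_image_of_injOn hinj
  have hfr : Module.finrank ℝ (Fin 2 → ℝ) + 1 < ((Sp N φ x).image p).card := by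
    rw [hci, Module.finrank_fin_fun]
    omega
  obtain ⟨f, hf1, hf2, e, he, hfe⟩ :=
    Module.exists_nontrivial_relation_sum_zero_of_finrank_succ_lt_card hfr
  rw [Finset.sum_image hinj] at hf1 hf2
  have hsub : Sp N φ x ⊆ range N := fun v hv => mem_range.2 (mem_Sp.1 hv).1
  have key := carrier_indep h hx (c := fun v => if v ∈ Sp N φ x then f (p v) else 0)
    (fun v hv hv' => by
      rw [if_neg]
      intro hmem
      exact (mem_Sp.1 hmem).2 hv')
    (by
      rw [← Finset.sum_filter, Finset.filter_mem_eq_inter, Finset.inter_eq_right.2 hsub]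
      exact hf2)
    (by
      have h1 : ∀ v ∈ range N, (if v ∈ Sp N φ x then f (p v) else 0) • p v =
          if v ∈ Sp N φ x then f (p v) • p v else 0 := by
        intro v _
        split_ifs
        · rfl
        · rw [zero_smul]
      rw [Finset.sum_congr rfl h1, ← Finset.sum_filter, Finset.filter_mem_eq_inter,
        Finset.inter_eq_right.2 hsub]
      exact hf1)
  obtain ⟨v, hv, rfl⟩ := mem_image.1 he
  have h2 := key v (mem_range.1 (hsub hv))
  simp only [if_pos hv] at h2
  exact hfe h2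

theorem tr_nd {N : ℕ} {D : Set (Fin 2 → ℝ)} {p : ℕ → Fin 2 → ℝ}
    {φ : ℕ → (Fin 2 → ℝ) → ℝ} (h : IsHT D N p φ) : ∀ s ∈ Tr D N φ, ∀ a ∈ s, ∀ b ∈ s, ∀ c ∈ s,
    a ≠ b → b ≠ c → a ≠ c → dt (p a) (p b) (p c) ≠ 0 := by
  classical
  intro s hs a ha b hb c hc hab hbc hac hdt
  obtain ⟨hcard, x, hx, rfl⟩ := mem_Tr.1 hs
  rw [mem_Sp] at ha hb hc
  unfold dt at hdt
  obtain ⟨β, γ, hne, h0, h1⟩ : ∃ β γ : ℝ, (β ≠ 0 ∨ γ ≠ 0) ∧
      β * (p b 0 - p a 0) + γ * (p c 0 - p a 0) = 0 ∧
      β * (p b 1 - p a 1) + γ * (p c 1 - p a 1) = 0 := by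
    by_cases h1 : p c 0 - p a 0 ≠ 0 ∨ p b 0 - p a 0 ≠ 0
    · refine ⟨p c 0 - p a 0, -(p b 0 - p a 0), ?_, by ring, by linarith⟩
      rcases h1 with h1 | h1
      · exact Or.inl h1
      · exact Or.inr (neg_ne_zero.2 h1)
    · push Not at h1
      by_cases h2 : p c 1 - p a 1 ≠ 0 ∨ p b 1 - p a 1 ≠ 0
      · refine ⟨p c 1 - p a 1, -(p b 1 - p a 1), ?_, by linarith, by ring⟩
        rcases h2 with h2 | h2
        · exact Or.inl h2
        · exact Or.inr (neg_ne_zero.2 h2)
      · push Not at h2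
        refine ⟨1, 0, Or.inl one_ne_zero, ?_, ?_⟩
        · rw [h1.2]; ring
        · rw [h2.2]; ring
  have key := carrier_indep h hx
    (c := fun v => (if v = a then (-β - γ) else 0) + (if v = b then β else 0) +
      (if v = c then γ else 0))
    (fun v hv hv' => by
      have e1 : v ≠ a := fun e => ha.2 (e ▸ hv')
      have e2 : v ≠ b := fun e => hb.2 (e ▸ hv')
      have e3 : v ≠ c := fun e => hc.2 (e ▸ hv')
      simp only [if_neg e1, if_neg e2, if_neg e3, add_zero])
    (by
      rw [Finset.sum_add_distrib, Finset.sum_add_distrib, Finset.sum_ite_eq', Finset.sum_ite_eq',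
        Finset.sum_ite_eq', if_pos (mem_range.2 ha.1), if_pos (mem_range.2 hb.1),
        if_pos (mem_range.2 hc.1)]
      ring)
    (by
      have h2 : ∀ v ∈ range N, ((if v = a then (-β - γ) else 0) + (if v = b then β else 0) +
          (if v = c then γ else 0)) • p v = (if v = a then (-β - γ) • p v else 0) +
          (if v = b then β • p v else 0) + (if v = c then γ • p v else 0) := by
        intro v _
        rw [add_smul, add_smul, ite_smul, ite_smul, ite_smul, zero_smul]
      rw [Finset.sum_congr rfl h2, Finset.sum_add_distrib, Finset.sum_add_distrib,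
        Finset.sum_ite_eq', Finset.sum_ite_eq', Finset.sum_ite_eq', if_pos (mem_range.2 ha.1),
        if_pos (mem_range.2 hb.1), if_pos (mem_range.2 hc.1)]
      funext i
      simp only [Pi.add_apply, Pi.smul_apply, smul_eq_mul, Pi.zero_apply]
      fin_cases i
      · simp only [Fin.zero_eta, Fin.isValue]
        linarith
      · simp only [Fin.mk_one, Fin.isValue]
        linarith)
  have kb := key b hb.1
  have kc := key c hc.1
  simp only [if_neg hab.symm, if_neg hbc, if_pos, zero_add, add_zero] at kb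
  simp only [if_neg hac.symm, if_neg hbc.symm, if_pos, zero_add] at kc
  rcases hne with h3 | h3
  · exact h3 kb
  · exact h3 kc

end PLH
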