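import Pool.Agent.Lib.MP_6a1069_gt.Tu.TD

/-!
AffM: affine maps with given values on three points, with a uniform Lipschitz constant.
PROOF.  `A x = a' + α x • (b' - a') + β x • (c' - a')` with
`α x = dt a x c / dt a b c`, `β x = dt a b x / dt a b c`; `dt a x c`, `dt a b x` are affine in `x`:
`dt a x c = (x 0 - a 0) * (c 1 - a 1) - (x 1 - a 1) * (c 0 - a 0)`.  `A a = a'`, `A b = b'`, `A c = c'`.
`|α x - α y| ≤ (2 R |x 0 - y 0| + 2 R |x 1 - y 1|) / c0 ≤ 4 R ‖x - y‖ / c0` (`‖c - a‖ ≤ 2 R`), the same for `β`, and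
`‖b' - a'‖, ‖c' - a'‖ ≤ 2 R`: so `C = max 1 (16 R^2 / c0)` (if `R < 0` the hypotheses are contradictory).
-/

namespace PLH

open Finset

private theorem AffM_abs {R : ℝ} {a c : Fin 2 → ℝ} (ha : ‖a‖ ≤ R) (hc : ‖c‖ ≤ R) (i : Fin 2) :
    |c i - a i| ≤ 2 * R := by
  have h1 : |a i| ≤ R := ((Real.norm_eq_abs _).symm.le.trans (norm_le_pi_norm a i)).trans ha
  have h2 : |c i| ≤ R := ((Real.norm_eq_abs _).symm.le.trans (norm_le_pi_norm c i)).trans hc
  calc |c i - a i| ≤ |c i| + |a i| := abs_sub _ _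
    _ ≤ 2 * R := by linarith

/-- the linear part -/
private noncomputable def AffM_lin (D : ℝ) (p q r s : ℝ) (u v : Fin 2 → ℝ) :
    (Fin 2 → ℝ) →ₗ[ℝ] (Fin 2 → ℝ) where
  toFun x := ((x 0 * p - x 1 * q) / D) • u + ((r * x 1 - s * x 0) / D) • v
  map_add' x y := by
    simp only [Pi.add_apply]
    rw [show ((x 0 + y 0) * p - (x 1 + y 1) * q) / D =
      (x 0 * p - x 1 * q) / D + (y 0 * p - y 1 * q) / D by ring,
      show (r * (x 1 + y 1) - s * (x 0 + y 0)) / D =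
      (r * x 1 - s * x 0) / D + (r * y 1 - s * y 0) / D by ring, add_smul, add_smul]
    abel
  map_smul' t x := by
    simp only [Pi.smul_apply, smul_eq_mul, RingHom.id_apply, smul_add, smul_smul]
    rw [show (t * x 0 * p - t * x 1 * q) / D = t * ((x 0 * p - x 1 * q) / D) by ring,
      show (r * (t * x 1) - s * (t * x 0)) / D = t * ((r * x 1 - s * x 0) / D) by ring]

private theorem AffM_lin_apply (D p q r s : ℝ) (u v x : Fin 2 → ℝ) :
    AffM_lin D p q r s u v x = ((x 0 * p - x 1 * q) / D) • u + ((r * x 1 - s * x 0) / D) • v := rfl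

private theorem AffM_coef {D p q x y R c0 M : ℝ} (hc : 0 < c0) (hD : c0 ≤ |D|) (hM : 0 ≤ M)
    (hp : |p| ≤ 2 * R) (hq : |q| ≤ 2 * R) (hx : |x| ≤ M) (hy : |y| ≤ M) :
    |(x * p - y * q) / D| ≤ 4 * R * M / c0 := by
  have hR : 0 ≤ 2 * R := (abs_nonneg _).trans hp
  rw [abs_div]
  have h1 : |x * p - y * q| ≤ 4 * R * M := by
    calc |x * p - y * q| ≤ |x * p| + |y * q| := abs_sub _ _
      _ = |x| * |p| + |y| * |q| := by rw [abs_mul, abs_mul]
      _ ≤ M * (2 * R) + M * (2 * R) :=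
          add_le_add (mul_le_mul hx hp (abs_nonneg _) hM) (mul_le_mul hy hq (abs_nonneg _) hM)
      _ = 4 * R * M := by ring
  exact div_le_div₀ (by nlinarith) h1 hc hD

theorem aff_bound (c0 R : ℝ) (hc : 0 < c0) : ∃ C : ℝ, 1 ≤ C ∧
    ∀ a b c a' b' c' : Fin 2 → ℝ, c0 ≤ |dt a b c| → ‖a‖ ≤ R → ‖b‖ ≤ R → ‖c‖ ≤ R → ‖a'‖ ≤ R →
      ‖b'‖ ≤ R → ‖c'‖ ≤ R → ∃ A : (Fin 2 → ℝ) →ᵃ[ℝ] (Fin 2 → ℝ), A a = a' ∧ A b = b' ∧ A c = c' ∧
        ∀ x y, ‖A x - A y‖ ≤ C * ‖x - y‖ := by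
  refine ⟨max 1 (16 * R ^ 2 / c0), le_max_left _ _, ?_⟩
  intro a b c a' b' c' hD ha hb hcc ha' hb' hcc'
  have hD0 : dt a b c ≠ 0 := by
    intro h
    rw [h, abs_zero] at hD
    linarith
  set L := AffM_lin (dt a b c) (c 1 - a 1) (c 0 - a 0) (b 0 - a 0) (b 1 - a 1) (b' - a') (c' - a')
    with hL
  have hdt : dt a b c = (b 0 - a 0) * (c 1 - a 1) - (b 1 - a 1) * (c 0 - a 0) := rfl
  let A : (Fin 2 → ℝ) →ᵃ[ℝ] (Fin 2 → ℝ) :=
    { toFun := fun x => a' + L (x - a)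
      linear := L
      map_vadd' := by
        intro x v
        simp only [vadd_eq_add]
        rw [add_sub_assoc, map_add]
        abel }
  have hA : ∀ x, A x = a' + L (x - a) := fun x => rfl
  refine ⟨A, ?_, ?_, ?_, ?_⟩
  · rw [hA, sub_self, map_zero, add_zero]
  · rw [hA, hL, AffM_lin_apply]
    have e1 : ((b - a) 0 * (c 1 - a 1) - (b - a) 1 * (c 0 - a 0)) / dt a b c = 1 := by
      rw [Pi.sub_apply, Pi.sub_apply, ← hdt]
      exact div_self hD0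
    have e2 : ((b 0 - a 0) * (b - a) 1 - (b 1 - a 1) * (b - a) 0) / dt a b c = 0 := by
      rw [Pi.sub_apply, Pi.sub_apply]
      rw [show (b 0 - a 0) * (b 1 - a 1) - (b 1 - a 1) * (b 0 - a 0) = 0 by ring, zero_div]
    rw [e1, e2, one_smul, zero_smul]
    abel
  · rw [hA, hL, AffM_lin_apply]
    have e1 : ((c - a) 0 * (c 1 - a 1) - (c - a) 1 * (c 0 - a 0)) / dt a b c = 0 := by
      rw [Pi.sub_apply, Pi.sub_apply]
      rw [show (c 0 - a 0) * (c 1 - a 1) - (c 1 - a 1) * (c 0 - a 0) = 0 by ring, zero_div]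
    have e2 : ((b 0 - a 0) * (c - a) 1 - (b 1 - a 1) * (c - a) 0) / dt a b c = 1 := by
      rw [Pi.sub_apply, Pi.sub_apply, ← hdt]
      exact div_self hD0
    rw [e1, e2, one_smul, zero_smul]
    abel
  · intro x y
    have e : A x - A y = L (x - y) := by
      rw [hA, hA, add_sub_add_left_eq_sub, ← map_sub]
      congr 1
      abel
    rw [e, hL, AffM_lin_apply]
    have hx : ∀ i, |(x - y) i| ≤ ‖x - y‖ := fun i =>
      (Real.norm_eq_abs _).symm.le.trans (norm_le_pi_norm (x - y) i)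
    have k1 := AffM_coef (R := R) hc hD (norm_nonneg (x - y)) (AffM_abs ha hcc 1) (AffM_abs ha hcc 0)
      (hx 0) (hx 1)
    have k2 := AffM_coef (R := R) hc hD (norm_nonneg (x - y)) (AffM_abs ha hb 0) (AffM_abs ha hb 1)
      (hx 1) (hx 0)
    rw [mul_comm ((x - y) 1), mul_comm ((x - y) 0)] at k2
    have n1 : ‖b' - a'‖ ≤ 2 * R := (norm_sub_le _ _).trans (by linarith)
    have n2 : ‖c' - a'‖ ≤ 2 * R := (norm_sub_le _ _).trans (by linarith)
    have hR : 0 ≤ R := (norm_nonneg _).trans ha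
    have hK : 0 ≤ 4 * R * ‖x - y‖ / c0 := by positivity
    calc ‖(((x - y) 0 * (c 1 - a 1) - (x - y) 1 * (c 0 - a 0)) / dt a b c) • (b' - a') +
          (((b 0 - a 0) * (x - y) 1 - (b 1 - a 1) * (x - y) 0) / dt a b c) • (c' - a')‖
        ≤ ‖(((x - y) 0 * (c 1 - a 1) - (x - y) 1 * (c 0 - a 0)) / dt a b c) • (b' - a')‖ +
          ‖(((b 0 - a 0) * (x - y) 1 - (b 1 - a 1) * (x - y) 0) / dt a b c) • (c' - a')‖ :=
          norm_add_le _ _
      _ ≤ 4 * R * ‖x - y‖ / c0 * (2 * R) + 4 * R * ‖x - y‖ / c0 * (2 * R) := by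
          rw [norm_smul, norm_smul, Real.norm_eq_abs, Real.norm_eq_abs]
          exact add_le_add (mul_le_mul k1 n1 (norm_nonneg _) hK)
            (mul_le_mul k2 n2 (norm_nonneg _) hK)
      _ = 16 * R ^ 2 / c0 * ‖x - y‖ := by ring
      _ ≤ max 1 (16 * R ^ 2 / c0) * ‖x - y‖ :=
          mul_le_mul_of_nonneg_right (le_max_right _ _) (norm_nonneg _)

end PLH
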