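import Pool.Agent.Lib.MP_6a1069_gt.Tu.AffI

/-!
Side: the sides and corners of `Dk 2 k`.
`sd k j`, `j = 0, 1, 2`, are the three affine functions with `Dk 2 k = {∀ j, 0 ≤ sd k j x}`; `cn k j` is the
corner with `sd k i (cn k j) = 0` for `i ≠ j` and `sd k j (cn k j) = 4 k + 1`.
PROOF.  `mem_Dk_iff`: unfold, `Fin.sum_univ_two`, `Fin.forall_fin_two`.
`mem_int_iff`: `←`: `mem_interior_Dk`.  `→`: if `sd k j x ≤ 0` then `= 0`, and there are points
`x - ε • g` (g = e_0, e_1, -e_0) arbitrarily near `x` with `sd k j < 0`, so `x` is not interior.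
`sd_sum`: `sd` is affine (use `Finset.sum_add_distrib`, `Finset.mul_sum`, `h1`).
`sd_cn`, `bary_cn`: computations.
`side_carrier`: `0 = sd k j x = ∑ φ v x * sd k j (p v)` (`sd_sum`, `h.bary`), all terms `≥ 0`.
`corner_vert`: the carrier of `cn k j ∈ Dk` is not empty (`h.sum_one`); for `v` in it and `i ≠ j`
`sd k i (p v) = 0` (`side_carrier`), so `p v = cn k j` (`bary_cn` and `∑ sd = 4k+1`).
-/

namespace PLH

open Finset

/-- the three affine functions -/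
def sd (k : ℕ) (j : Fin 3) (x : Fin 2 → ℝ) : ℝ :=
  if j = 0 then x 0 + k else if j = 1 then x 1 + k else (4 * k + 1) - (x 0 + k) - (x 1 + k)

/-- the three corners -/
def cn (k : ℕ) (j : Fin 3) : Fin 2 → ℝ :=
  if j = 0 then ![3 * (k : ℝ) + 1, -(k : ℝ)] else
    if j = 1 then ![-(k : ℝ), 3 * (k : ℝ) + 1] else ![-(k : ℝ), -(k : ℝ)]

theorem Side_zero {k : ℕ} (x : Fin 2 → ℝ) : sd k 0 x = x 0 + k := by
  simp [sd]

theorem Side_one {k : ℕ} (x : Fin 2 → ℝ) : sd k 1 x = x 1 + k := by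
  simp [sd]

theorem Side_two {k : ℕ} (x : Fin 2 → ℝ) : sd k 2 x = (4 * k + 1) - (x 0 + k) - (x 1 + k) := by
  simp [sd]

/-- the functions `sd k j` are affine -/
theorem Side_form (k : ℕ) (j : Fin 3) : ∃ α β γ : ℝ, (α ≠ 0 ∨ β ≠ 0) ∧
    ∀ x, sd k j x = α * x 0 + β * x 1 + γ := by
  fin_cases j
  · exact ⟨1, 0, k, Or.inl one_ne_zero, fun x => by rw [Fin.zero_eta, Side_zero]; ring⟩
  · exact ⟨0, 1, k, Or.inr one_ne_zero, fun x => by rw [Fin.mk_one, Side_one]; ring⟩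
  · refine ⟨-1, -1, 2 * k + 1, Or.inl (neg_ne_zero.2 one_ne_zero), fun x => ?_⟩
    show sd k 2 x = _
    rw [Side_two]; ring

private theorem Side_dir (k : ℕ) (j : Fin 3) : ∃ g : Fin 2 → ℝ, ‖g‖ ≤ 1 ∧
    ∀ (x : Fin 2 → ℝ) (t : ℝ), sd k j (x + t • g) = sd k j x + t := by
  fin_cases j
  · refine ⟨![1, 0], ?_, fun x t => ?_⟩
    · rw [pi_norm_le_iff_of_nonneg zero_le_one, Fin.forall_fin_two]
      simp
    · simp only [Fin.zero_eta, Side_zero]
      simp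
      ring
  · refine ⟨![0, 1], ?_, fun x t => ?_⟩
    · rw [pi_norm_le_iff_of_nonneg zero_le_one, Fin.forall_fin_two]
      simp
    · simp only [Fin.mk_one, Side_one]
      simp
      ring
  · refine ⟨![-1, 0], ?_, fun x t => ?_⟩
    · rw [pi_norm_le_iff_of_nonneg zero_le_one, Fin.forall_fin_two]
      simp
    · show sd k 2 _ = sd k 2 _ + t
      rw [Side_two, Side_two]
      simp
      ring

theorem mem_Dk_iff {k : ℕ} {x : Fin 2 → ℝ} : x ∈ Dk 2 k ↔ ∀ j, 0 ≤ sd k j x := by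
  have h : x ∈ Dk 2 k ↔ (∀ i, -(k : ℝ) ≤ x i) ∧ ∑ i, (x i + k) ≤ 2 * ((2 : ℕ) : ℝ) * k + 1 :=
    Iff.rfl
  rw [h, Fin.forall_fin_two, Fin.sum_univ_two]
  push_cast
  constructor
  · rintro ⟨⟨h1, h2⟩, h3⟩ j
    fin_cases j
    · show 0 ≤ sd k 0 x
      rw [Side_zero]; linarith
    · show 0 ≤ sd k 1 x
      rw [Side_one]; linarith
    · show 0 ≤ sd k 2 x
      rw [Side_two]; linarith
  · intro h1
    have e0 := h1 0
    have e1 := h1 1
    have e2 := h1 2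
    rw [Side_zero] at e0
    rw [Side_one] at e1
    rw [Side_two] at e2
    exact ⟨⟨by linarith, by linarith⟩, by linarith⟩

theorem mem_int_iff {k : ℕ} {x : Fin 2 → ℝ} : x ∈ interior (Dk 2 k) ↔ ∀ j, 0 < sd k j x := by
  constructor
  · intro hx j
    obtain ⟨ε, hε, hb⟩ := Metric.mem_nhds_iff.1 (mem_interior_iff_mem_nhds.1 hx)
    obtain ⟨g, hg, hsd⟩ := Side_dir k j
    have hy : x + (-(ε / 2)) • g ∈ Metric.ball x ε := by
      rw [Metric.mem_ball, dist_eq_norm, add_sub_cancel_left, norm_smul, norm_neg,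
        Real.norm_of_nonneg (by linarith)]
      nlinarith [norm_nonneg g]
    have h1 := mem_Dk_iff.1 (hb hy) j
    rw [hsd] at h1
    linarith
  · intro h1
    have e0 := h1 0
    have e1 := h1 1
    have e2 := h1 2
    rw [Side_zero] at e0
    rw [Side_one] at e1
    rw [Side_two] at e2
    refine mem_interior_Dk ?_ ?_
    · rw [Fin.forall_fin_two]
      exact ⟨by linarith, by linarith⟩
    · rw [Fin.sum_univ_two]
      push_cast
      linarith

theorem sd_sum {k N : ℕ} (j : Fin 3) {t : ℕ → ℝ} {p : ℕ → Fin 2 → ℝ}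
    (h1 : ∑ v ∈ range N, t v = 1) :
    sd k j (∑ v ∈ range N, t v • p v) = ∑ v ∈ range N, t v * sd k j (p v) := by
  obtain ⟨α, β, γ, _, hf⟩ := Side_form k j
  simp only [hf, Finset.sum_apply, Pi.smul_apply, smul_eq_mul]
  have e1 : γ = ∑ v ∈ range N, t v * γ := by rw [← Finset.sum_mul, h1, one_mul]
  rw [Finset.mul_sum, Finset.mul_sum, ← Finset.sum_add_distrib]
  nth_rewrite 1 [e1]
  rw [← Finset.sum_add_distrib]
  refine Finset.sum_congr rfl fun v _ => ?_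
  ring

theorem sd_line {k : ℕ} (j : Fin 3) (x y : Fin 2 → ℝ) (r : ℝ) :
    sd k j (x + r • (y - x)) = (1 - r) * sd k j x + r * sd k j y := by
  obtain ⟨α, β, γ, _, hf⟩ := Side_form k j
  simp only [hf, Pi.add_apply, Pi.smul_apply, Pi.sub_apply, smul_eq_mul]
  ring

theorem sd_cn {k : ℕ} (i j : Fin 3) : sd k i (cn k j) = if i = j then 4 * (k : ℝ) + 1 else 0 := by
  fin_cases i <;> fin_cases j <;> simp [sd, cn] <;> ring

theorem bary_cn {k : ℕ} (x : Fin 2 → ℝ) :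
    (4 * (k : ℝ) + 1) • x = ∑ j, sd k j x • cn k j ∧ ∑ j, sd k j x = 4 * (k : ℝ) + 1 := by
  rw [Fin.sum_univ_three, Fin.sum_univ_three, Side_zero, Side_one, Side_two]
  refine ⟨?_, by ring⟩
  funext i
  fin_cases i <;> simp [cn] <;> ring

theorem side_carrier {k N : ℕ} {p : ℕ → Fin 2 → ℝ} {φ : ℕ → (Fin 2 → ℝ) → ℝ}
    (h : IsHT (Dk 2 k) N p φ) {x : Fin 2 → ℝ} (hx : x ∈ Dk 2 k) {j : Fin 3}
    (hj : sd k j x = 0) : ∀ v ∈ Sp N φ x, sd k j (p v) = 0 := by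
  intro v hv
  rw [mem_Sp] at hv
  have h1 := sd_sum (k := k) j (t := fun v => φ v x) (p := p) (h.sum_one x hx)
  rw [h.bary x hx, hj] at h1
  have h2 := (Finset.sum_eq_zero_iff_of_nonneg (fun u hu => mul_nonneg
    (h.nonneg u (mem_range.1 hu) x hx)
    (mem_Dk_iff.1 (h.mem u (mem_range.1 hu)) j))).1 h1.symm v (mem_range.2 hv.1)
  exact (mul_eq_zero.1 h2).resolve_left hv.2

theorem corner_vert {k N : ℕ} {p : ℕ → Fin 2 → ℝ} {φ : ℕ → (Fin 2 → ℝ) → ℝ}
    (h : IsHT (Dk 2 k) N p φ) (j : Fin 3) : ∃ v ∈ Bv (Dk 2 k) N p φ, p v = cn k j := by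
  have hk : (0 : ℝ) < 4 * (k : ℝ) + 1 := by positivity
  have hc : cn k j ∈ Dk 2 k := by
    rw [mem_Dk_iff]
    intro i
    rw [sd_cn]
    split_ifs
    · exact hk.le
    · exact le_refl _
  have hex : ∃ v ∈ range N, φ v (cn k j) ≠ 0 := by
    by_contra hcon
    push Not at hcon
    have h1 := h.sum_one _ hc
    rw [Finset.sum_eq_zero hcon] at h1
    exact zero_ne_one h1
  obtain ⟨v, hv, hv0⟩ := hex
  have hS : v ∈ Sp N φ (cn k j) := mem_Sp.2 ⟨mem_range.1 hv, hv0⟩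
  have hz : ∀ i, i ≠ j → sd k i (p v) = 0 := by
    intro i hij
    exact side_carrier h hc (by rw [sd_cn, if_neg hij]) v hS
  obtain ⟨h1, h2⟩ := bary_cn (k := k) (p v)
  rw [Finset.sum_eq_single j (fun i _ hij => by rw [hz i hij, zero_smul])
    (fun hj => absurd (mem_univ j) hj)] at h1
  rw [Finset.sum_eq_single j (fun i _ hij => hz i hij) (fun hj => absurd (mem_univ j) hj)] at h2
  rw [h2] at h1
  have h3 : p v = cn k j := smul_right_injective _ hk.ne' h1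
  refine ⟨v, mem_Bv.2 ⟨⟨mem_range.1 hv, _, hc, hv0⟩, ?_⟩, h3⟩
  intro hint
  obtain ⟨i, hij⟩ := exists_ne j
  have h4 := mem_int_iff.1 hint i
  rw [hz i hij] at h4
  exact lt_irrefl _ h4

end PLH
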