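import Pool.Agent.Lib.MP_6a1069_gt.Tu.Gen
import Pool.Agent.Lib.MP_6a1069_gt.Tu.Side

/-!
Bd: on the boundary one can always move upwards, for the lexicographic order of two independent
functionals; and the boundary vertices are not on a line.
PROOF.  `bd_step` (one step towards a corner): let `v ∈ Bv`, `j` a side and `i ≠ j` with
`sd k j (p v) = 0` (so `cn k i` is on the side `j`), `p v ≠ cn k i`.  For small `ε > 0` let
`x = p v + ε • (cn k i - p v)`: it is in `Dk` (convex), `sd k j x = 0` (`sd_line`, `sd_cn`), `φ v x ≠ 0`,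
`x ≠ p v`.  Its carrier contains `v` and some `u ≠ v` (otherwise `x = p v`); all `u'` in the carrier have
`sd k j (p u') = 0` (`side_carrier`), so they are on a line and the carrier has at most two elements
(if it had three it would be a triangle, contradiction to `tr_nd`): it is `{v, u}`,
`x = φ v x • p v + φ u x • p u`, so `p u - p v = q • (cn k i - p v)` with `q = ε / φ u x > 0`.  `u ∈ Bv`
(`mem_int_iff`).  `gen_pt` at `x`: a triangle which contains `v` and `u`, so `Adj T u v`.
`ht_bdry`: write `K x = toLex (l x, m x)`; `K` is additive and injective (independence), so for `x ≠ y`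
either `K x < K y` or `K y < K x`, and `K (p v) < K (p v + q • (z - p v))` iff `K (p v) < K z` for `q > 0`.
Let `j₀` be the index of the corner with the largest `K (cn k j)`; `c` the vertex with `p c = cn k j₀`
(`corner_vert`).  For `v ∈ Bv`, `v ≠ c`: `p v ≠ cn k j₀` (`p_inj`).  There is `j` with `sd k j (p v) = 0`.
Claim: there are `j, i`, `i ≠ j`, `sd k j (p v) = 0`, `K (p v) < K (cn k i)`.  If some `j ≠ j₀` has
`sd k j (p v) = 0` take `i = j₀`: `p v` is a convex combination of the two corners of the side `j`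
(`bary_cn`), both have `K ≤ K (cn k j₀)`, and `p v ≠ cn k j₀`.  Otherwise `j = j₀` is the only side
containing `p v`, `p v` is a proper convex combination of the corners `i, i'` (the indices different from
`j₀`), take the one with the larger `K`.  Then `bd_step`.
`ht_corner`: `l (cn k j) = c` for the three corners (`corner_vert`), so `l (cn k 0 - cn k 2) = 0`,
`l (cn k 1 - cn k 2) = 0`, these are `(4k+1) e_0`, `(4k+1) e_1`, so `l = 0` (`LinearMap.pi_ext'` or on the
basis).
-/

namespace PLH

open Finset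

private theorem bd_col {k : ℕ} (j : Fin 3) (a b c : Fin 2 → ℝ) (ha : sd k j a = 0)
    (hb : sd k j b = 0) (hc : sd k j c = 0) : dt a b c = 0 := by
  unfold sd at ha hb hc
  unfold dt
  fin_cases j
  · simp only [Fin.zero_eta, if_true] at ha hb hc
    have h1 : b 0 - a 0 = 0 := by linarith
    have h2 : c 0 - a 0 = 0 := by linarith
    rw [h1, h2]
    ring
  · simp only [Fin.mk_one, one_ne_zero, if_false, if_true] at ha hb hc
    have h1 : b 1 - a 1 = 0 := by linarith
    have h2 : c 1 - a 1 = 0 := by linarith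
    rw [h1, h2]
    ring
  · have e0 : (⟨2, by norm_num⟩ : Fin 3) ≠ 0 := by decide
    have e1 : (⟨2, by norm_num⟩ : Fin 3) ≠ 1 := by decide
    rw [if_neg e0, if_neg e1] at ha hb hc
    have h1 : b 0 - a 0 = -(b 1 - a 1) := by linarith
    have h2 : c 0 - a 0 = -(c 1 - a 1) := by linarith
    rw [h1, h2]
    ring

private theorem bd_cn_mem {k : ℕ} (i : Fin 3) : cn k i ∈ Dk 2 k := by
  rw [mem_Dk_iff]
  intro j
  rw [sd_cn]
  split_ifs
  · positivity
  · exact le_rfl

theorem bd_step {k N : ℕ} {p : ℕ → Fin 2 → ℝ} {φ : ℕ → (Fin 2 → ℝ) → ℝ}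
    (h : IsHT (Dk 2 k) N p φ) {v : ℕ} (hv : v ∈ Bv (Dk 2 k) N p φ) {i j : Fin 3} (hij : i ≠ j)
    (hj : sd k j (p v) = 0) (hne : p v ≠ cn k i) :
    ∃ u ∈ Bv (Dk 2 k) N p φ, Adj (Tr (Dk 2 k) N φ) u v ∧ ∃ q : ℝ, 0 < q ∧
      p u - p v = q • (cn k i - p v) := by
  classical
  have hD := Dk_closed 2 k
  have hvL : v ∈ Lv (Dk 2 k) N φ := by
    rw [Bv, mem_filter] at hv
    exact hv.1
  have hvN : v < N := (mem_Lv.1 hvL).1
  obtain ⟨hpD, hphi⟩ := phi_vert hD h hvL
  have hcont : Continuous fun r : ℝ => φ v (p v + r • (cn k i - p v)) :=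
    (h.pl v hvN).continuous.comp (by fun_prop)
  have h1 : φ v (p v + (0 : ℝ) • (cn k i - p v)) ≠ 0 := by
    rw [zero_smul, add_zero, hphi v hvN, if_pos rfl]
    exact one_ne_zero
  have h2 : ∀ᶠ r : ℝ in nhdsWithin 0 (Set.Ioi 0), φ v (p v + r • (cn k i - p v)) ≠ 0 :=
    (hcont.continuousAt.eventually_ne h1).filter_mono nhdsWithin_le_nhds
  obtain ⟨r, hr1, hr2⟩ := (h2.and (Ioo_mem_nhdsGT (show (0 : ℝ) < 1 by norm_num))).exists
  obtain ⟨hr0, hr3⟩ := hr2
  set x := p v + r • (cn k i - p v) with hx
  have hxD : x ∈ Dk 2 k := by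
    have h3 : x = (1 - r) • p v + r • cn k i := by
      rw [hx, smul_sub, sub_smul, one_smul]
      abel
    rw [h3]
    exact Dk_convex 2 k hpD (bd_cn_mem i) (by linarith) hr0.le (by ring)
  have hsx : sd k j x = 0 := by
    rw [hx, sd_line, hj, sd_cn, if_neg hij.symm]
    ring
  have hside := side_carrier h hxD hsx
  have hvS : v ∈ Sp N φ x := mem_Sp.2 ⟨hvN, hr1⟩
  have hnn : ∀ w < N, 0 ≤ φ w x := fun w hw => h.nonneg w hw x hxD
  have hxne : x ≠ p v := by
    intro h3
    have h4 : r • (cn k i - p v) = 0 := by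
      have : p v + r • (cn k i - p v) = p v := by rw [← hx]; exact h3
      exact left_eq_add.mp this.symm
    rcases smul_eq_zero.1 h4 with h5 | h5
    · exact hr0.ne' h5
    · exact hne (sub_eq_zero.1 h5).symm
  have hsumS : ∀ f : ℕ → ℝ, ∑ w ∈ range N, φ w x * f w = ∑ w ∈ Sp N φ x, φ w x * f w := by
    intro f
    refine (sum_subset (fun w hw => mem_range.2 (mem_Sp.1 hw).1) fun w hw hw2 => ?_).symm
    have : φ w x = 0 := by
      by_contra h3
      exact hw2 (mem_Sp.2 ⟨mem_range.1 hw, h3⟩)
    rw [this, zero_mul]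
  -- another vertex of the carrier
  have hex : ∃ u ∈ Sp N φ x, u ≠ v := by
    by_contra hcon
    push Not at hcon
    have hS : Sp N φ x = {v} := by
      ext w
      rw [mem_singleton]
      exact ⟨hcon w, fun hw => by rw [hw]; exact hvS⟩
    have h3 := h.sum_one x hxD
    have h4 : ∑ w ∈ range N, φ w x = ∑ w ∈ range N, φ w x * 1 := by simp
    rw [h4, hsumS, hS, sum_singleton, mul_one] at h3
    apply hxne
    have h5 := h.bary x hxD
    rw [← h5]
    funext t
    rw [Finset.sum_apply]
    have h6 : ∑ w ∈ range N, (φ w x • p w) t = ∑ w ∈ range N, φ w x * p w t :=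
      sum_congr rfl fun w _ => rfl
    rw [h6, hsumS fun w => p w t, hS, sum_singleton, h3, one_mul]
  obtain ⟨u, huS, huv⟩ := hex
  have huN : u < N := (mem_Sp.1 huS).1
  -- the carrier is `{v, u}`
  have hS : Sp N φ x = {v, u} := by
    have h3 : ({v, u} : Finset ℕ) ⊆ Sp N φ x := by
      intro w hw
      rcases mem_insert.1 hw with rfl | hw
      · exact hvS
      · rw [mem_singleton.1 hw]
        exact huS
    refine (eq_of_subset_of_card_le h3 ?_).symm
    rw [card_pair (fun h4 => huv h4.symm)]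
    by_contra h4
    have h5 := card_le_three hD h hxD
    have h6 : (Sp N φ x).card = 3 := by omega
    have h7 : Sp N φ x ∈ Tr (Dk 2 k) N φ := mem_Tr.2 ⟨h6, x, hxD, rfl⟩
    obtain ⟨a, b, c, hab, hac, hbc, habc⟩ := card_eq_three.1 h6
    have ha : a ∈ Sp N φ x := by rw [habc]; simp
    have hb : b ∈ Sp N φ x := by rw [habc]; simp
    have hc : c ∈ Sp N φ x := by rw [habc]; simp
    exact tr_nd h _ h7 a ha b hb c hc hab hbc hac
      (bd_col j _ _ _ (hside a ha) (hside b hb) (hside c hc))
  have hvu : v ∉ ({u} : Finset ℕ) := by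
    rw [mem_singleton]
    exact fun h4 => huv h4.symm
  have hone : φ v x + φ u x = 1 := by
    have h3 := h.sum_one x hxD
    have h4 : ∑ w ∈ range N, φ w x = ∑ w ∈ range N, φ w x * 1 := by simp
    rw [h4, hsumS, hS, sum_insert hvu, sum_singleton, mul_one, mul_one] at h3
    exact h3
  have hbar : x = φ v x • p v + φ u x • p u := by
    have h5 := h.bary x hxD
    conv_lhs => rw [← h5]
    funext t
    rw [Finset.sum_apply]
    have h6 : ∑ w ∈ range N, (φ w x • p w) t = ∑ w ∈ range N, φ w x * p w t :=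
      sum_congr rfl fun w _ => rfl
    rw [h6, hsumS fun w => p w t, hS, sum_insert hvu, sum_singleton]
    rfl
  have hu0 : 0 < φ u x := lt_of_le_of_ne (hnn u huN) (Ne.symm (mem_Sp.1 huS).2)
  have huB : u ∈ Bv (Dk 2 k) N p φ := by
    rw [mem_Bv]
    refine ⟨⟨huN, x, hxD, (mem_Sp.1 huS).2⟩, fun h3 => ?_⟩
    have h4 := (mem_int_iff.1 h3) j
    rw [hside u huS] at h4
    exact lt_irrefl _ h4
  obtain ⟨y, _, _, hy1, hy2⟩ := gen_pt h hxD isOpen_univ (Set.mem_univ x)
  refine ⟨u, huB, ⟨huv, _, hy1, hy2 huS, hy2 hvS⟩, r / φ u x, by positivity, ?_⟩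
  have h3 : φ u x • (p u - p v) = r • (cn k i - p v) := by
    have h4 : x - p v = r • (cn k i - p v) := by
      rw [hx]
      abel
    rw [← h4]
    conv_rhs => rw [hbar]
    have h5 : φ v x = 1 - φ u x := by linarith
    rw [h5, sub_smul, one_smul, smul_sub]
    abel
  calc p u - p v = (φ u x)⁻¹ • (φ u x • (p u - p v)) := by
        rw [smul_smul, inv_mul_cancel₀ hu0.ne', one_smul]
    _ = (r / φ u x) • (cn k i - p v) := by
        rw [h3, smul_smul]
        congr 1
        ring

/-- positive for the lexicographic order -/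
private def BPos (l m : (Fin 2 → ℝ) →ₗ[ℝ] ℝ) (w : Fin 2 → ℝ) : Prop :=
  0 < l w ∨ (l w = 0 ∧ 0 < m w)

private theorem bpos_add {l m : (Fin 2 → ℝ) →ₗ[ℝ] ℝ} {a b : Fin 2 → ℝ} (ha : BPos l m a)
    (hb : BPos l m b) : BPos l m (a + b) := by
  unfold BPos at *
  rw [map_add, map_add]
  rcases ha with ha | ⟨ha, ha'⟩
  · rcases hb with hb | ⟨hb, hb'⟩
    · left; linarith
    · left; linarith
  · rcases hb with hb | ⟨hb, hb'⟩
    · left; linarith
    · right
      constructor
      · linarith
      · linarith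

private theorem bpos_smul {l m : (Fin 2 → ℝ) →ₗ[ℝ] ℝ} {a : Fin 2 → ℝ} (ha : BPos l m a) {q : ℝ}
    (hq : 0 < q) : BPos l m (q • a) := by
  unfold BPos at *
  rw [map_smul, map_smul, smul_eq_mul, smul_eq_mul]
  rcases ha with ha | ⟨ha, ha'⟩
  · left; positivity
  · right
    exact ⟨by rw [ha, mul_zero], by positivity⟩

private theorem bpos_lex {l m : (Fin 2 → ℝ) →ₗ[ℝ] ℝ} {a b : Fin 2 → ℝ} :
    BPos l m (b - a) ↔ toLex (l a, m a) < toLex (l b, m b) := by
  unfold BPos
  rw [Prod.Lex.toLex_lt_toLex, map_sub, map_sub]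
  constructor
  · rintro (h | ⟨h, h'⟩)
    · left; simp only; linarith
    · right
      exact ⟨by simp only; linarith, by simp only; linarith⟩
  · rintro (h | ⟨h, h'⟩)
    · left; simp only at h; linarith
    · right
      simp only at h h'
      exact ⟨by linarith, by linarith⟩

private theorem bpos_or {l m : (Fin 2 → ℝ) →ₗ[ℝ] ℝ} (hlm : LinearIndependent ℝ ![l, m])
    {w : Fin 2 → ℝ} (hw : w ≠ 0) : BPos l m w ∨ BPos l m (-w) := by
  unfold BPos
  rw [map_neg, map_neg]
  by_cases h1 : l w = 0
  · by_cases h2 : m w = 0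
    · exfalso
      -- `l, m` is a basis of the dual space
      apply hw
      have hl0 : l ≠ 0 := by
        have := hlm.ne_zero 0
        simpa using this
      -- the map `x ↦ (l x, m x)` is injective
      have hd : l (Pi.single 0 1) * m (Pi.single 1 1) - l (Pi.single 1 1) * m (Pi.single 0 1) ≠ 0 := by
        intro hd
        rw [LinearIndependent.pair_iff] at hlm
        have e : ∀ f : (Fin 2 → ℝ) →ₗ[ℝ] ℝ, ∀ x : Fin 2 → ℝ,
            f x = x 0 * f (Pi.single 0 1) + x 1 * f (Pi.single 1 1) := by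
          intro f x
          have h3 : x = x 0 • (Pi.single 0 1 : Fin 2 → ℝ) + x 1 • (Pi.single 1 1 : Fin 2 → ℝ) := by
            funext t
            fin_cases t <;> simp
          conv_lhs => rw [h3]
          rw [map_add, map_smul, map_smul, smul_eq_mul, smul_eq_mul]
        have h3 : (m (Pi.single 1 1)) • l + (-(l (Pi.single 1 1))) • m = 0 := by
          apply LinearMap.ext
          intro x
          simp only [LinearMap.add_apply, LinearMap.smul_apply, smul_eq_mul, LinearMap.zero_apply]
          rw [e l x, e m x]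
          linear_combination x 0 * hd
        have h4 : (m (Pi.single 0 1)) • l + (-(l (Pi.single 0 1))) • m = 0 := by
          apply LinearMap.ext
          intro x
          simp only [LinearMap.add_apply, LinearMap.smul_apply, smul_eq_mul, LinearMap.zero_apply]
          rw [e l x, e m x]
          linear_combination -(x 1) * hd
        obtain ⟨_, h5⟩ := hlm _ _ h3
        obtain ⟨_, h6⟩ := hlm _ _ h4
        apply hl0
        apply LinearMap.ext
        intro x
        rw [e l x, LinearMap.zero_apply]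
        have h7 : l (Pi.single 1 1) = 0 := by linarith
        have h8 : l (Pi.single 0 1) = 0 := by linarith
        rw [h7, h8]
        ring
      have e : ∀ f : (Fin 2 → ℝ) →ₗ[ℝ] ℝ,
          f w = w 0 * f (Pi.single 0 1) + w 1 * f (Pi.single 1 1) := by
        intro f
        have h3 : w = w 0 • (Pi.single 0 1 : Fin 2 → ℝ) + w 1 • (Pi.single 1 1 : Fin 2 → ℝ) := by
          funext t
          fin_cases t <;> simp
        conv_lhs => rw [h3]
        rw [map_add, map_smul, map_smul, smul_eq_mul, smul_eq_mul]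
      rw [e l] at h1
      rw [e m] at h2
      have h3 : w 0 * (l (Pi.single 0 1) * m (Pi.single 1 1) -
          l (Pi.single 1 1) * m (Pi.single 0 1)) = 0 := by
        linear_combination m (Pi.single 1 1) * h1 - l (Pi.single 1 1) * h2
      have h4 : w 1 * (l (Pi.single 0 1) * m (Pi.single 1 1) -
          l (Pi.single 1 1) * m (Pi.single 0 1)) = 0 := by
        linear_combination -(m (Pi.single 0 1)) * h1 + l (Pi.single 0 1) * h2
      have h5 : w 0 = 0 := by
        rcases mul_eq_zero.1 h3 with h | h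
        · exact h
        · exact absurd h hd
      have h6 : w 1 = 0 := by
        rcases mul_eq_zero.1 h4 with h | h
        · exact h
        · exact absurd h hd
      funext t
      fin_cases t
      · exact h5
      · exact h6
    · rcases lt_or_gt_of_ne h2 with h3 | h3
      · right; right
        exact ⟨by rw [h1, neg_zero], by linarith⟩
      · left; right
        exact ⟨h1, h3⟩
  · rcases lt_or_gt_of_ne h1 with h3 | h3
    · right; left; linarith
    · left; left; exact h3

private theorem bd_cn_inj {k : ℕ} {i j : Fin 3} (h : cn k i = cn k j) : i = j := by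
  by_contra hne
  have h1 := sd_cn (k := k) i i
  rw [h, sd_cn, if_neg hne, if_pos rfl] at h1
  have : (0 : ℝ) < 4 * k + 1 := by positivity
  linarith

theorem ht_bdry {k N : ℕ} {p : ℕ → Fin 2 → ℝ} {φ : ℕ → (Fin 2 → ℝ) → ℝ}
    (h : IsHT (Dk 2 k) N p φ) (l m : (Fin 2 → ℝ) →ₗ[ℝ] ℝ) (hlm : LinearIndependent ℝ ![l, m]) :
    ∃ c ∈ Bv (Dk 2 k) N p φ, ∀ v ∈ Bv (Dk 2 k) N p φ, v ≠ c →
      ∃ u ∈ Bv (Dk 2 k) N p φ, Adj (Tr (Dk 2 k) N φ) u v ∧
        toLex (l (p v), m (p v)) < toLex (l (p u), m (p u)) := by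
  classical
  have hD := Dk_closed 2 k
  have hk : (0 : ℝ) < 4 * (k : ℝ) + 1 := by positivity
  obtain ⟨j₀, -, hj₀⟩ := exists_max_image (univ : Finset (Fin 3))
    (fun j => toLex (l (cn k j), m (cn k j))) ⟨0, mem_univ 0⟩
  have hmax : ∀ i, i ≠ j₀ → BPos l m (cn k j₀ - cn k i) := by
    intro i hi
    have hne : cn k j₀ - cn k i ≠ 0 := fun h0 => hi (bd_cn_inj (sub_eq_zero.1 h0)).symm
    rcases bpos_or hlm hne with h1 | h1
    · exact h1
    · rw [neg_sub, bpos_lex] at h1
      exact absurd h1 (not_lt.2 (hj₀ i (mem_univ i)))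
  obtain ⟨c, hc, hpc⟩ := corner_vert h j₀
  refine ⟨c, hc, fun v hv hvc => ?_⟩
  have hvL : v ∈ Lv (Dk 2 k) N φ := by
    rw [Bv, mem_filter] at hv
    exact hv.1
  have hcL : c ∈ Lv (Dk 2 k) N φ := by
    rw [Bv, mem_filter] at hc
    exact hc.1
  have hne : p v ≠ cn k j₀ := by
    intro h1
    rw [← hpc] at h1
    exact hvc (p_inj hD h v hvL c hcL h1)
  obtain ⟨hpD, _⟩ := phi_vert hD h hvL
  have hge := mem_Dk_iff.1 hpD
  have hex : ∃ j, sd k j (p v) = 0 := by
    have h1 := (mem_Bv.1 hv).2
    rw [mem_int_iff] at h1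
    push Not at h1
    obtain ⟨j, hj⟩ := h1
    exact ⟨j, le_antisymm hj (hge j)⟩
  obtain ⟨hb1, hb2⟩ := bary_cn (k := k) (p v)
  -- `(4k+1) (z - p v)` as a combination
  have hcomb : ∀ z : Fin 2 → ℝ, (4 * (k : ℝ) + 1) • (z - p v) =
      ∑ j, sd k j (p v) • (z - cn k j) := by
    intro z
    have h1 : ∑ j, sd k j (p v) • (z - cn k j) =
        (∑ j, sd k j (p v)) • z - ∑ j, sd k j (p v) • cn k j := by
      rw [Finset.sum_smul, ← Finset.sum_sub_distrib]
      exact sum_congr rfl fun j _ => smul_sub _ _ _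
    rw [h1, hb2, ← hb1, smul_sub]
  have hback : ∀ z : Fin 2 → ℝ, BPos l m ((4 * (k : ℝ) + 1) • (z - p v)) → BPos l m (z - p v) := by
    intro z hz
    have h1 := bpos_smul hz (inv_pos.2 hk)
    rwa [smul_smul, inv_mul_cancel₀ hk.ne', one_smul] at h1
  have hclaim : ∃ j i : Fin 3, i ≠ j ∧ sd k j (p v) = 0 ∧ p v ≠ cn k i ∧
      BPos l m (cn k i - p v) := by
    by_cases hA : ∃ j, j ≠ j₀ ∧ sd k j (p v) = 0
    · obtain ⟨j, hj, hj0⟩ := hA
      refine ⟨j, j₀, hj.symm, hj0, hne, ?_⟩
      rcases bpos_or hlm (show cn k j₀ - p v ≠ 0 from fun h0 => hne (sub_eq_zero.1 h0).symm) with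
        h1 | h1
      · exact h1
      · exfalso
        -- the sum is nonnegative
        have h2 : ∀ s : Finset (Fin 3), (∑ i ∈ s, sd k i (p v) • (cn k j₀ - cn k i)) = 0 ∨
            BPos l m (∑ i ∈ s, sd k i (p v) • (cn k j₀ - cn k i)) := by
          intro s
          induction s using Finset.induction_on with
          | empty => left; simp
          | insert a s ha ih =>
            rw [sum_insert ha]
            have h3 : sd k a (p v) • (cn k j₀ - cn k a) = 0 ∨
                BPos l m (sd k a (p v) • (cn k j₀ - cn k a)) := by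
              rcases (hge a).eq_or_lt with h4 | h4
              · left; rw [← h4, zero_smul]
              · by_cases h5 : a = j₀
                · left; rw [h5, sub_self, smul_zero]
                · right; exact bpos_smul (hmax a h5) h4
            rcases h3 with h3 | h3
            · rw [h3, zero_add]; exact ih
            · right
              rcases ih with ih | ih
              · rw [ih, add_zero]; exact h3
              · exact bpos_add h3 ih
        have h3 := h2 univ
        rw [← hcomb] at h3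
        rcases h3 with h3 | h3
        · rcases smul_eq_zero.1 h3 with h4 | h4
          · exact hk.ne' h4
          · exact hne (sub_eq_zero.1 h4).symm
        · have h4 := bpos_add (hback _ h3) h1
          rw [add_neg_cancel] at h4
          unfold BPos at h4
          rw [map_zero, map_zero] at h4
          rcases h4 with h4 | ⟨_, h4⟩ <;> exact lt_irrefl _ h4
    · push Not at hA
      have hj₀0 : sd k j₀ (p v) = 0 := by
        obtain ⟨j, hj⟩ := hex
        by_cases h1 : j = j₀
        · rw [← h1]; exact hj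
        · exact absurd hj (hA j h1)
      have hposs : ∀ i, i ≠ j₀ → 0 < sd k i (p v) := fun i hi =>
        lt_of_le_of_ne (hge i) (Ne.symm (hA i hi))
      -- the two other corners
      obtain ⟨a, b, ha, hb, hab, huniv⟩ : ∃ a b : Fin 3, a ≠ j₀ ∧ b ≠ j₀ ∧ a ≠ b ∧
          ∀ f : Fin 3 → (Fin 2 → ℝ), ∑ j, f j = f j₀ + (f a + f b) := by
        fin_cases j₀
        · exact ⟨1, 2, by decide, by decide, by decide, fun f => by
            rw [Fin.sum_univ_three]; simp only [Fin.zero_eta]; abel⟩
        · exact ⟨0, 2, by decide, by decide, by decide, fun f => by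
            rw [Fin.sum_univ_three]; simp only [Fin.mk_one]; abel⟩
        · exact ⟨0, 1, by decide, by decide, by decide, fun f => by
            rw [Fin.sum_univ_three]; simp only [Fin.reduceFinMk]; abel⟩
      have hmain : ∀ a b : Fin 3, a ≠ j₀ → b ≠ j₀ → a ≠ b →
          (∀ f : Fin 3 → (Fin 2 → ℝ), ∑ j, f j = f j₀ + (f a + f b)) →
          BPos l m (cn k a - cn k b) → ∃ j i : Fin 3, i ≠ j ∧ sd k j (p v) = 0 ∧ p v ≠ cn k i ∧
            BPos l m (cn k i - p v) := by
        intro a b ha hb hab huniv hpos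
        refine ⟨j₀, a, ha, hj₀0, ?_, ?_⟩
        · intro h1
          have h2 := hposs b hb
          rw [h1, sd_cn, if_neg hab.symm] at h2
          exact lt_irrefl _ h2
        · apply hback
          rw [hcomb, huniv, hj₀0, zero_smul, sub_self, smul_zero, zero_add, zero_add]
          exact bpos_smul hpos (hposs b hb)
      have hne2 : cn k a - cn k b ≠ 0 := fun h0 => hab (bd_cn_inj (sub_eq_zero.1 h0))
      rcases bpos_or hlm hne2 with h1 | h1
      · exact hmain a b ha hb hab huniv h1
      · rw [neg_sub] at h1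
        exact hmain b a hb ha hab.symm (fun f => by rw [huniv, add_comm (f a)]) h1
  obtain ⟨j, i, hij, hj, hne', hpos⟩ := hclaim
  obtain ⟨u, hu, hadj, q, hq, hpu⟩ := bd_step h hv hij hj hne'
  refine ⟨u, hu, hadj, ?_⟩
  rw [← bpos_lex, hpu]
  exact bpos_smul hpos hq

theorem ht_corner {k N : ℕ} {p : ℕ → Fin 2 → ℝ} {φ : ℕ → (Fin 2 → ℝ) → ℝ}
    (h : IsHT (Dk 2 k) N p φ) (l : (Fin 2 → ℝ) →ₗ[ℝ] ℝ) (c : ℝ)
    (hc : ∀ v ∈ Bv (Dk 2 k) N p φ, l (p v) = c) : l = 0 := by
  have hk : (0 : ℝ) < 4 * (k : ℝ) + 1 := by positivity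
  have h1 : ∀ j, l (cn k j) = c := by
    intro j
    obtain ⟨v, hv, hpv⟩ := corner_vert h j
    rw [← hpv]
    exact hc v hv
  have h2 : ∀ j : Fin 3, l (cn k j - cn k 2) = 0 := by
    intro j
    rw [map_sub, h1, h1, sub_self]
  apply LinearMap.pi_ext
  intro i x
  rw [LinearMap.zero_apply]
  fin_cases i
  · have h3 : (Pi.single 0 x : Fin 2 → ℝ) = (x / (4 * (k : ℝ) + 1)) • (cn k 0 - cn k 2) := by
      funext t
      fin_cases t
      · simp [cn]
        field_simp
        ring
      · simp [cn]
    have h4 := h2 0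
    show l (Pi.single 0 x) = 0
    rw [h3, map_smul, h4, smul_zero]
  · have h3 : (Pi.single 1 x : Fin 2 → ℝ) = (x / (4 * (k : ℝ) + 1)) • (cn k 1 - cn k 2) := by
      funext t
      fin_cases t
      · simp [cn]
      · simp [cn]
        field_simp
        ring
    have h4 := h2 1
    show l (Pi.single 1 x) = 0
    rw [h3, map_smul, h4, smul_zero]

end PLH
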