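import Pool.Agent.Lib.MP_6a1069_gt.Tu.TD

/-!
Cnt3: every triangle has exactly one middle vertex.
PROOF.  `scn_sum`: double counting (`Finset.sum_card_bipartiteAbove_eq_sum_card_bipartiteBelow`, or
`Finset.card_eq_sum_ones`, `Finset.sum_comm'`): `∑_{v ∈ V} scn T f v = ∑_{s ∈ T} #{v ∈ V | v ∈ s, v middle of s}`,
and a set `s ⊆ V` of three elements has exactly one middle element for an `f` injective on `V`
(`Finset.card_eq_three`, order the three values).
`scn_top`: no `b` with `f v < f b`.  `scn_bot` dual.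
`scn_eq_cutn`: same filtered set: for `s = {v, a, b}`, `f a < f v < f b` iff one of the two other elements
has `f > f v` and the other not (injectivity excludes equality).
-/

namespace PLH

open Finset

/-- the middle element of an ordered triple -/
private theorem Cnt3_aux {α : Type*} [LinearOrder α] (f : ℕ → α) (x y z : ℕ) (hxy : f x < f y)
    (hyz : f y < f z) (s : Finset ℕ) (hs : ∀ m, m ∈ s ↔ m = x ∨ m = y ∨ m = z) (m : ℕ) :
    (m ∈ s ∧ (∃ a ∈ s, f a < f m) ∧ ∃ b ∈ s, f m < f b) ↔ m = y := by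
  constructor
  · rintro ⟨hm, ⟨a, ha, hlt⟩, b, hb, hlt'⟩
    rw [hs] at hm ha hb
    rcases hm with rfl | rfl | rfl
    · exfalso
      rcases ha with rfl | rfl | rfl
      · exact lt_irrefl _ hlt
      · exact lt_irrefl _ (hlt.trans hxy)
      · exact lt_irrefl _ ((hlt.trans hxy).trans hyz)
    · rfl
    · exfalso
      rcases hb with rfl | rfl | rfl
      · exact lt_irrefl _ ((hlt'.trans hxy).trans hyz)
      · exact lt_irrefl _ (hlt'.trans hyz)
      · exact lt_irrefl _ hlt'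
  · rintro rfl
    refine ⟨(hs _).2 (Or.inr (Or.inl rfl)), ⟨x, (hs _).2 (Or.inl rfl), hxy⟩,
      z, (hs _).2 (Or.inr (Or.inr rfl)), hyz⟩

private theorem Cnt3_mid {α : Type*} [LinearOrder α] (f : ℕ → α) (s : Finset ℕ)
    (hc : s.card = 3) (hinj : ∀ u ∈ s, ∀ v ∈ s, f u = f v → u = v) :
    ∃ y ∈ s, ∀ m, (m ∈ s ∧ (∃ a ∈ s, f a < f m) ∧ ∃ b ∈ s, f m < f b) ↔ m = y := by
  classical
  obtain ⟨x, y, z, hxy, hxz, hyz, rfl⟩ := card_eq_three.1 hc
  have hx : x ∈ ({x, y, z} : Finset ℕ) := by simp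
  have hy : y ∈ ({x, y, z} : Finset ℕ) := by simp
  have hz : z ∈ ({x, y, z} : Finset ℕ) := by simp
  have nxy : f x ≠ f y := fun h => hxy (hinj x hx y hy h)
  have nxz : f x ≠ f z := fun h => hxz (hinj x hx z hz h)
  have nyz : f y ≠ f z := fun h => hyz (hinj y hy z hz h)
  rcases lt_or_gt_of_ne nxy with h1 | h1
  · rcases lt_or_gt_of_ne nyz with h2 | h2
    · exact ⟨y, hy, Cnt3_aux f x y z h1 h2 _ (by intro m; simp)⟩
    · rcases lt_or_gt_of_ne nxz with h3 | h3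
      · exact ⟨z, hz, Cnt3_aux f x z y h3 h2 _ (by intro m; simp; tauto)⟩
      · exact ⟨x, hx, Cnt3_aux f z x y h3 h1 _ (by intro m; simp; tauto)⟩
  · rcases lt_or_gt_of_ne nxz with h3 | h3
    · exact ⟨x, hx, Cnt3_aux f y x z h1 h3 _ (by intro m; simp; tauto)⟩
    · rcases lt_or_gt_of_ne nyz with h2 | h2
      · exact ⟨z, hz, Cnt3_aux f y z x h2 h3 _ (by intro m; simp; tauto)⟩
      · exact ⟨y, hy, Cnt3_aux f z y x h2 h1 _ (by intro m; simp; tauto)⟩

theorem scn_sum {α : Type*} [LinearOrder α] {V : Finset ℕ} {T : Finset (Finset ℕ)}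
    (hs : ∀ s ∈ T, s ⊆ V) (hc : ∀ s ∈ T, s.card = 3) (f : ℕ → α)
    (hf : ∀ u ∈ V, ∀ v ∈ V, f u = f v → u = v) : ∑ v ∈ V, scn T f v = T.card := by
  classical
  unfold scn
  simp only [card_filter]
  rw [sum_comm, card_eq_sum_ones]
  refine sum_congr rfl fun s hsT => ?_
  obtain ⟨y, hy, hmid⟩ := Cnt3_mid f s (hc s hsT)
    (fun u hu v hv h => hf u (hs s hsT hu) v (hs s hsT hv) h)
  rw [sum_eq_single y]
  · rw [if_pos ((hmid y).2 rfl)]
  · intro b _ hb
    rw [if_neg (fun h => hb ((hmid b).1 h))]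
  · intro h
    exact absurd (hs s hsT hy) h

theorem scn_top {α : Type*} [LinearOrder α] {V : Finset ℕ} {T : Finset (Finset ℕ)}
    (hs : ∀ s ∈ T, s ⊆ V) (f : ℕ → α) {v : ℕ} (hv : ∀ u ∈ V, f u ≤ f v) : scn T f v = 0 := by
  classical
  unfold scn
  rw [card_eq_zero, filter_eq_empty_iff]
  rintro s hsT ⟨_, _, b, hb, hlt⟩
  exact absurd (hv b (hs s hsT hb)) (not_le.2 hlt)

theorem scn_bot {α : Type*} [LinearOrder α] {V : Finset ℕ} {T : Finset (Finset ℕ)}
    (hs : ∀ s ∈ T, s ⊆ V) (f : ℕ → α) {v : ℕ} (hv : ∀ u ∈ V, f v ≤ f u) : scn T f v = 0 := by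
  classical
  unfold scn
  rw [card_eq_zero, filter_eq_empty_iff]
  rintro s hsT ⟨_, ⟨a, ha, hlt⟩, _⟩
  exact absurd (hv a (hs s hsT ha)) (not_le.2 hlt)

theorem scn_eq_cutn {α : Type*} [LinearOrder α] {V : Finset ℕ} {T : Finset (Finset ℕ)}
    (hs : ∀ s ∈ T, s ⊆ V) (hc : ∀ s ∈ T, s.card = 3) (f : ℕ → α)
    (hf : ∀ u ∈ V, ∀ v ∈ V, f u = f v → u = v) {v : ℕ} (hv : v ∈ V) :
    scn T f v = cutn T v {u | f v < f u} := by
  classical
  have key : ∀ X : Set ℕ, (∀ u, u ∈ X ↔ f v < f u) → scn T f v = cutn T v X := by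
    intro X hX
    unfold scn cutn
    refine congrArg card ?_
    ext s
    rw [mem_filter, mem_filter]
    refine and_congr_right fun hsT => and_congr_right fun hvs => ?_
    constructor
    · rintro ⟨⟨a, ha, hlt⟩, b, hb, hlt'⟩
      refine ⟨⟨b, hb, ?_, (hX b).2 hlt'⟩, a, ha, ?_, ?_⟩
      · rintro rfl
        exact lt_irrefl _ hlt'
      · rintro rfl
        exact lt_irrefl _ hlt
      · exact fun h => lt_irrefl _ (lt_trans hlt ((hX a).1 h))
    · rintro ⟨⟨a, ha, _, hlt⟩, b, hb, hbv, hnlt⟩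
      refine ⟨⟨b, hb, ?_⟩, a, ha, (hX a).1 hlt⟩
      exact lt_of_le_of_ne (not_lt.1 (fun h => hnlt ((hX b).2 h)))
        (fun h => hbv (hf b (hs s hsT hb) v hv h))
  exact key _ (fun _ => Iff.rfl)

end PLH
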