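import Pool.Agent.Lib.MP_6a1069_gt.Tu.TD

/-!
Cpt: compactness.
PROOF.  `unif_bounds`: for every `s ∈ T` and `a, b, c ∈ s` different the function
`t ↦ |dt (P t a) (P t b) (P t c)|` is continuous and positive on `[0,1]`, so `≥` a positive constant;
finitely many (`s, a, b, c`).  Boundedness of `t ↦ ‖P t v‖` on `[0,1]` for the finitely many `v ∈ V`, and of
`‖p v‖`.
`unif_steps`: every `t ↦ P t v` is uniformly continuous on the compact `[0,1]`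
(`IsCompact.uniformContinuousOn_of_continuous`), finitely many `v ∈ V`, common `η`, take `m > 1/η`.
-/

namespace PLH

open Finset

private lemma Cpt_min {ι : Type*} (I : Finset ι) (Q : ι → ℝ → Prop)
    (hmono : ∀ i, ∀ c c' : ℝ, c' ≤ c → Q i c → Q i c')
    (h : ∀ i ∈ I, ∃ c : ℝ, 0 < c ∧ Q i c) : ∃ c : ℝ, 0 < c ∧ ∀ i ∈ I, Q i c := by
  classical
  induction I using Finset.induction_on with
  | empty => exact ⟨1, one_pos, fun i hi => absurd hi (Finset.notMem_empty i)⟩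
  | insert a s ha ih =>
    obtain ⟨c1, h1, h2⟩ := ih fun i hi => h i (Finset.mem_insert_of_mem hi)
    obtain ⟨c2, h3, h4⟩ := h a (Finset.mem_insert_self a s)
    refine ⟨min c1 c2, lt_min h1 h3, fun i hi => ?_⟩
    rcases Finset.mem_insert.mp hi with hia | his
    · rw [hia]
      exact hmono a c2 _ (min_le_right _ _) h4
    · exact hmono i c1 _ (min_le_left _ _) (h2 i his)

private lemma Cpt_dt {P : ℝ → ℕ → Fin 2 → ℝ} {a b c : ℕ}
    (ha : ContinuousOn (fun t => P t a) (Set.Icc 0 1))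
    (hb : ContinuousOn (fun t => P t b) (Set.Icc 0 1))
    (hc : ContinuousOn (fun t => P t c) (Set.Icc 0 1)) :
    ContinuousOn (fun t => dt (P t a) (P t b) (P t c)) (Set.Icc 0 1) := by
  have ha' := continuousOn_pi.mp ha
  have hb' := continuousOn_pi.mp hb
  have hc' := continuousOn_pi.mp hc
  unfold dt
  exact (((hb' 0).sub (ha' 0)).mul ((hc' 1).sub (ha' 1))).sub
    (((hb' 1).sub (ha' 1)).mul ((hc' 0).sub (ha' 0)))

theorem unif_bounds {V : Finset ℕ} {T : Finset (Finset ℕ)} {p : ℕ → Fin 2 → ℝ}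
    {P : ℝ → ℕ → Fin 2 → ℝ} (hs : ∀ s ∈ T, s ⊆ V)
    (hP : ∀ v ∈ V, ContinuousOn (fun t => P t v) (Set.Icc 0 1))
    (hn : ∀ t ∈ Set.Icc (0 : ℝ) 1, ∀ s ∈ T, ∀ a ∈ s, ∀ b ∈ s, ∀ c ∈ s, a ≠ b → b ≠ c → a ≠ c →
      dt (P t a) (P t b) (P t c) ≠ 0) :
    ∃ c0 > 0, ∃ R : ℝ, (∀ v ∈ V, ‖p v‖ ≤ R) ∧ ∀ t ∈ Set.Icc (0 : ℝ) 1, (∀ v ∈ V, ‖P t v‖ ≤ R) ∧
      ∀ s ∈ T, ∀ a ∈ s, ∀ b ∈ s, ∀ c ∈ s, a ≠ b → b ≠ c → a ≠ c →
        c0 ≤ |dt (P t a) (P t b) (P t c)| := by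
  classical
  -- the bounds of the positions
  have h1 : ∀ v, ∃ r : ℝ, v ∈ V → ∀ t ∈ Set.Icc (0 : ℝ) 1, ‖P t v‖ ≤ r := by
    intro v
    by_cases hv : v ∈ V
    · obtain ⟨r, hr⟩ := isCompact_Icc.exists_bound_of_continuousOn (hP v hv)
      exact ⟨r, fun _ t ht => hr t ht⟩
    · exact ⟨0, fun h => absurd h hv⟩
  choose r hr using h1
  -- the areas
  set I : Finset (ℕ × ℕ × ℕ) := (V ×ˢ V ×ˢ V).filter fun x => ∃ s ∈ T, x.1 ∈ s ∧ x.2.1 ∈ s ∧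
    x.2.2 ∈ s ∧ x.1 ≠ x.2.1 ∧ x.2.1 ≠ x.2.2 ∧ x.1 ≠ x.2.2 with hI
  obtain ⟨c0, hc0, hc1⟩ := Cpt_min I (fun x c => ∀ t ∈ Set.Icc (0 : ℝ) 1,
      c ≤ |dt (P t x.1) (P t x.2.1) (P t x.2.2)|)
    (fun x c c' hcc h t ht => hcc.trans (h t ht)) (by
      intro x hx
      rw [hI, Finset.mem_filter, Finset.mem_product, Finset.mem_product] at hx
      obtain ⟨⟨ha, hb, hc⟩, s, hs1, ha', hb', hc', h1, h2, h3⟩ := hx
      have hcont := (Cpt_dt (hP _ ha) (hP _ hb) (hP _ hc)).abs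
      obtain ⟨t0, ht0, hmin⟩ := isCompact_Icc.exists_isMinOn
        (Set.nonempty_Icc.mpr (zero_le_one (α := ℝ))) hcont
      refine ⟨|dt (P t0 x.1) (P t0 x.2.1) (P t0 x.2.2)|, ?_, ?_⟩
      · exact abs_pos.mpr (hn t0 ht0 s hs1 _ ha' _ hb' _ hc' h1 h2 h3)
      · intro t ht
        exact hmin ht)
  have hsum : ∀ v ∈ V, |r v| + ‖p v‖ ≤ ∑ v ∈ V, (|r v| + ‖p v‖) := fun v hv =>
    Finset.single_le_sum (f := fun v => |r v| + ‖p v‖)
      (fun v _ => add_nonneg (abs_nonneg _) (norm_nonneg _)) hv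
  refine ⟨c0, hc0, ∑ v ∈ V, (|r v| + ‖p v‖), ?_, ?_⟩
  · intro v hv
    have := hsum v hv
    have h2 := abs_nonneg (r v)
    linarith
  · intro t ht
    refine ⟨fun v hv => ?_, ?_⟩
    · have h2 := hsum v hv
      have h3 := hr v hv t ht
      have h4 := le_abs_self (r v)
      have h5 := norm_nonneg (p v)
      linarith
    · intro s hs1 a ha b hb c hc hab hbc hac
      refine hc1 (a, b, c) ?_ t ht
      rw [hI, Finset.mem_filter, Finset.mem_product, Finset.mem_product]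
      exact ⟨⟨hs s hs1 ha, hs s hs1 hb, hs s hs1 hc⟩, s, hs1, ha, hb, hc, hab, hbc, hac⟩

theorem unif_steps {V : Finset ℕ} {P : ℝ → ℕ → Fin 2 → ℝ}
    (hP : ∀ v ∈ V, ContinuousOn (fun t => P t v) (Set.Icc 0 1)) {δ : ℝ} (hδ : 0 < δ) :
    ∃ m : ℕ, 0 < m ∧ ∀ j < m, ∀ v ∈ V, ‖P ((j + 1 : ℕ) / (m : ℝ)) v - P ((j : ℕ) / (m : ℝ)) v‖ < δ := by
  obtain ⟨η, hη, h1⟩ := Cpt_min V (fun v c => ∀ x ∈ Set.Icc (0 : ℝ) 1, ∀ y ∈ Set.Icc (0 : ℝ) 1,
      dist x y < c → dist (P x v) (P y v) < δ)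
    (fun v c c' hcc h x hx y hy hxy => h x hx y hy (hxy.trans_le hcc)) (by
      intro v hv
      have h2 := isCompact_Icc.uniformContinuousOn_of_continuous (hP v hv)
      rw [Metric.uniformContinuousOn_iff] at h2
      obtain ⟨d, hd, h3⟩ := h2 δ hδ
      exact ⟨d, hd, fun x hx y hy hxy => h3 x hx y hy hxy⟩)
  obtain ⟨m, hm⟩ := exists_nat_gt (1 / η)
  have hm0 : (0 : ℝ) < m := lt_trans (by positivity) hm
  have hmn : 0 < m := by exact_mod_cast hm0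
  refine ⟨m, hmn, fun j hj v hv => ?_⟩
  rw [← dist_eq_norm]
  have hj' : (j : ℝ) + 1 ≤ m := by exact_mod_cast hj
  have hj0 : (0 : ℝ) ≤ j := Nat.cast_nonneg j
  refine h1 v hv _ ⟨by positivity, ?_⟩ _ ⟨by positivity, ?_⟩ ?_
  · rw [div_le_one hm0]
    push_cast
    exact hj'
  · rw [div_le_one hm0]
    linarith
  · rw [Real.dist_eq]
    have h2 : ((j + 1 : ℕ) : ℝ) / (m : ℝ) - (j : ℝ) / (m : ℝ) = 1 / m := by
      push_cast
      ring
    rw [h2, abs_of_pos (by positivity), div_lt_iff₀ hm0]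
    rw [div_lt_iff₀ hη] at hm
    linarith

end PLH
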