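import Pool.Agent.Lib.MP_6a1069_gt.Tu.Gen

/-!
Cut1: the link of a live vertex is connected.
PROOF.  Suppose there is no such triangle.  `W = {x ∈ Dk | φ v x ≠ 0, x ≠ p v}`.  For `x ∈ W` the carrier
contains `v` and another vertex (`h.bary`, `h.sum_one`), has at most 3 elements (`card_le_three`), and
if it had elements `u ∈ X`, `u' ∉ X`, both `≠ v`, it would be `{v, u, u'}`, a triangle as excluded.  So
`W_X = {x ∈ W | ∃ u ∈ X, u ≠ v, φ u x ≠ 0}` and `W_Y = {x ∈ W | ∃ u ∉ X, u ≠ v, φ u x ≠ 0}` (`u < N`) are disjoint,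
cover `W`, and are relatively open.  (*) If `x, y ∈ W`, the segment `[x, y]` is in `W`, then `x, y` are both
in `W_X` or both in `W_Y` (`isPreconnected_segment`, `IsPreconnected.subset_or_subset` or
`isPreconnected_iff_subset_of_disjoint`).
For `a` with `Adj T a v` put `x_a = p v + r • (p a - p v)`, `r > 0` small, the same `r` for the finitely
many `a` used: `φ v > 0` on the ball with radius `r * max ‖p a - p v‖` around `p v` intersected with `Dk`
(`φ v (p v) = 1`, `phi_vert`, continuity); `x_a` has carrier `{v, a}` (`seg_vert`).  If `p a - p v` and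
`p b - p v` are linearly independent then `[x_a, x_b] ⊂ W` (convexity of `Dk`; the segment does not
contain `p v`; it stays in the ball).  So by (*) `a` and `b` are on the same side.  Given `a ∈ X`, `b ∉ X`
neighbours: if independent we are done; otherwise take a triangle `s = {v, a, c}` (`Adj T a v`); by `tr_nd`
`p c - p v` is independent of `p a - p v`, hence of `p b - p v` (which is `≠ 0` by `p_inj` and parallel to
`p a - p v ≠ 0`): `a, c` on the same side and `c, b` on the same side, contradiction.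
-/

namespace PLH

open Finset

/-- the part of the proof of `cut_one` with the connectedness argument -/
private theorem Cut1_seg {k N : ℕ} {p : ℕ → Fin 2 → ℝ} {φ : ℕ → (Fin 2 → ℝ) → ℝ}
    (h : IsHT (Dk 2 k) N p φ) {v : ℕ} (hv : v < N) (X : Set ℕ)
    (hno : ¬ ∃ s ∈ Tr (Dk 2 k) N φ, v ∈ s ∧ (∃ a ∈ s, a ≠ v ∧ a ∈ X) ∧ ∃ b ∈ s, b ≠ v ∧ b ∉ X)
    {x y : Fin 2 → ℝ} (hseg : ∀ z ∈ segment ℝ x y, z ∈ Dk 2 k ∧ φ v z ≠ 0 ∧ z ≠ p v)
    {a b : ℕ} (ha : a < N) (hb : b < N) (hav : a ≠ v) (hbv : b ≠ v) (haX : a ∈ X) (hbX : b ∉ X)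
    (hax : φ a x ≠ 0) (hby : φ b y ≠ 0) : False := by
  have hopen : ∀ S : Set ℕ, IsOpen {z : Fin 2 → ℝ | ∃ u, (u < N ∧ u ∈ S ∧ u ≠ v) ∧ φ u z ≠ 0} := by
    intro S
    have e : {z : Fin 2 → ℝ | ∃ u, (u < N ∧ u ∈ S ∧ u ≠ v) ∧ φ u z ≠ 0} =
        ⋃ u ∈ {u : ℕ | u < N ∧ u ∈ S ∧ u ≠ v}, {z | φ u z ≠ 0} := by
      ext z
      simp only [Set.mem_setOf_eq, Set.mem_iUnion, exists_prop]
    rw [e]
    refine isOpen_biUnion fun u hu => ?_
    exact isOpen_ne_fun (h.pl u hu.1).1 continuous_const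
  have hpre : IsPreconnected (segment ℝ x y) := (convex_segment x y).isPreconnected
  have hcov : segment ℝ x y ⊆ {z : Fin 2 → ℝ | ∃ u, (u < N ∧ u ∈ X ∧ u ≠ v) ∧ φ u z ≠ 0} ∪
      {z : Fin 2 → ℝ | ∃ u, (u < N ∧ u ∈ Xᶜ ∧ u ≠ v) ∧ φ u z ≠ 0} := by
    intro z hz
    obtain ⟨hzD, _, hzp⟩ := hseg z hz
    by_contra hcon
    rw [Set.mem_union, not_or] at hcon
    have hall : ∀ u < N, u ≠ v → φ u z = 0 := by
      intro u hu huv
      by_contra hne
      by_cases hX : u ∈ X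
      · exact hcon.1 ⟨u, ⟨hu, hX, huv⟩, hne⟩
      · exact hcon.2 ⟨u, ⟨hu, hX, huv⟩, hne⟩
    have e1 := h.sum_one z hzD
    have e2 := h.bary z hzD
    rw [Finset.sum_eq_single v (fun u hu huv => hall u (mem_range.1 hu) huv)
      (fun hn => absurd (mem_range.2 hv) hn)] at e1
    rw [Finset.sum_eq_single v (fun u hu huv => by rw [hall u (mem_range.1 hu) huv, zero_smul])
      (fun hn => absurd (mem_range.2 hv) hn), e1, one_smul] at e2
    exact hzp e2.symm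
  obtain ⟨z, hz, ⟨u, ⟨hu, huX, huv⟩, huz⟩, u', ⟨hu', huX', huv'⟩, huz'⟩ :=
    hpre _ _ (hopen X) (hopen Xᶜ) hcov ⟨x, left_mem_segment ℝ x y, a, ⟨ha, haX, hav⟩, hax⟩
      ⟨y, right_mem_segment ℝ x y, b, ⟨hb, hbX, hbv⟩, hby⟩
  obtain ⟨hzD, hzv, _⟩ := hseg z hz
  have huu' : u ≠ u' := fun e => huX' (e ▸ huX)
  have hsub : ({v, u, u'} : Finset ℕ) ⊆ Sp N φ z := by
    intro w hw
    simp only [mem_insert, mem_singleton] at hw
    rw [mem_Sp]
    rcases hw with rfl | rfl | rfl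
    · exact ⟨hv, hzv⟩
    · exact ⟨hu, huz⟩
    · exact ⟨hu', huz'⟩
  have hc3 : ({v, u, u'} : Finset ℕ).card = 3 := by
    rw [card_eq_three]
    exact ⟨v, u, u', huv.symm, huv'.symm, huu', rfl⟩
  have hc := card_le_card hsub
  have hc' := card_le_three (Dk_closed 2 k) h hzD
  refine hno ⟨Sp N φ z, mem_Tr.2 ⟨by omega, z, hzD, rfl⟩, mem_Sp.2 ⟨hv, hzv⟩,
    ⟨u, mem_Sp.2 ⟨hu, huz⟩, huv, huX⟩, u', mem_Sp.2 ⟨hu', huz'⟩, huv', huX'⟩

/-- two neighbours in independent directions are on the same side -/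
private theorem Cut1_nb {k N : ℕ} {p : ℕ → Fin 2 → ℝ} {φ : ℕ → (Fin 2 → ℝ) → ℝ}
    (h : IsHT (Dk 2 k) N p φ) {v : ℕ} (hv : v ∈ Lv (Dk 2 k) N φ) (X : Set ℕ)
    (hno : ¬ ∃ s ∈ Tr (Dk 2 k) N φ, v ∈ s ∧ (∃ a ∈ s, a ≠ v ∧ a ∈ X) ∧ ∃ b ∈ s, b ≠ v ∧ b ∉ X)
    {a b : ℕ} (ha : Adj (Tr (Dk 2 k) N φ) a v) (hb : Adj (Tr (Dk 2 k) N φ) b v)
    (haX : a ∈ X) (hbX : b ∉ X) (hd : dt (p v) (p a) (p b) ≠ 0) : False := by
  have hvN : v < N := (mem_Lv.1 hv).1
  have hcl := Dk_closed 2 k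
  obtain ⟨hpD, hpφ⟩ := phi_vert hcl h hv
  have hN : ∀ c, Adj (Tr (Dk 2 k) N φ) c v → c < N := by
    rintro c ⟨_, s, hs, hcs, _⟩
    exact (mem_Lv.1 (tr_sub_Lv s hs hcs)).1
  have hcont := (h.pl v hvN).1
  have h1 : 0 < φ v (p v) := by
    rw [hpφ v hvN, if_pos rfl]
    exact one_pos
  have hev : ∀ᶠ z in nhds (p v), 0 < φ v z := (hcont.tendsto (p v)).eventually (lt_mem_nhds h1)
  obtain ⟨ρ, hρ, hball⟩ := Metric.eventually_nhds_iff_ball.1 hev
  set M : ℝ := ‖p a - p v‖ + ‖p b - p v‖ + 1 with hM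
  have hM0 : 0 < M := by positivity
  set r : ℝ := min 1 (ρ / (2 * M)) with hr
  have hr0 : 0 < r := lt_min one_pos (by positivity)
  have hr1 : r ≤ 1 := min_le_left _ _
  have hrM : r * M < ρ := by
    have e1 : r * M ≤ ρ / (2 * M) * M := mul_le_mul_of_nonneg_right (min_le_right _ _) hM0.le
    have e2 : ρ / (2 * M) * M = ρ / 2 := by field_simp
    linarith
  have hxa : ∀ c, ‖p c - p v‖ ≤ M → (1 - r) • p v + r • p c ∈ Metric.ball (p v) ρ := by
    intro c hc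
    rw [Metric.mem_ball, dist_eq_norm]
    have e : (1 - r) • p v + r • p c - p v = r • (p c - p v) := by
      rw [sub_smul, one_smul, smul_sub]; abel
    rw [e, norm_smul, Real.norm_of_nonneg hr0.le]
    calc r * ‖p c - p v‖ ≤ r * M := mul_le_mul_of_nonneg_left hc hr0.le
      _ < ρ := hrM
  have hMa : ‖p a - p v‖ ≤ M := by
    rw [hM]; nlinarith [norm_nonneg (p b - p v)]
  have hMb : ‖p b - p v‖ ≤ M := by
    rw [hM]; nlinarith [norm_nonneg (p a - p v)]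
  obtain ⟨hDa, hφa⟩ := seg_vert hcl h ha hr0.le hr1
  obtain ⟨hDb, hφb⟩ := seg_vert hcl h hb hr0.le hr1
  refine Cut1_seg h hvN X hno (x := (1 - r) • p v + r • p a) (y := (1 - r) • p v + r • p b)
    ?_ (hN a ha) (hN b hb) ha.1 hb.1 haX hbX ?_ ?_
  · intro z hz
    refine ⟨(Dk_convex 2 k).segment_subset hDa hDb hz,
      (hball z ((convex_ball (p v) ρ).segment_subset (hxa a hMa) (hxa b hMb) hz)).ne', ?_⟩
    intro hzp
    obtain ⟨s, t, _, _, hst, hzz⟩ := hz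
    rw [hzp] at hzz
    have e0 := congrFun hzz 0
    have e1 := congrFun hzz 1
    simp only [Pi.add_apply, Pi.smul_apply, smul_eq_mul] at e0 e1
    have f0 : s * (p a 0 - p v 0) + t * (p b 0 - p v 0) = 0 := by
      have : r * (s * (p a 0 - p v 0) + t * (p b 0 - p v 0)) = 0 := by
        have ht : t = 1 - s := by linarith
        subst ht
        linear_combination e0
      exact (mul_eq_zero.1 this).resolve_left hr0.ne'
    have f1 : s * (p a 1 - p v 1) + t * (p b 1 - p v 1) = 0 := by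
      have : r * (s * (p a 1 - p v 1) + t * (p b 1 - p v 1)) = 0 := by
        have ht : t = 1 - s := by linarith
        subst ht
        linear_combination e1
      exact (mul_eq_zero.1 this).resolve_left hr0.ne'
    unfold dt at hd
    have g1 : s = 0 := by
      have : s * ((p a 0 - p v 0) * (p b 1 - p v 1) - (p a 1 - p v 1) * (p b 0 - p v 0)) = 0 := by
        linear_combination (p b 1 - p v 1) * f0 - (p b 0 - p v 0) * f1
      exact (mul_eq_zero.1 this).resolve_right hd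
    have g2 : t = 0 := by
      have : t * ((p a 0 - p v 0) * (p b 1 - p v 1) - (p a 1 - p v 1) * (p b 0 - p v 0)) = 0 := by
        linear_combination (p a 0 - p v 0) * f1 - (p a 1 - p v 1) * f0
      exact (mul_eq_zero.1 this).resolve_right hd
    rw [g1, g2, add_zero] at hst
    exact zero_ne_one hst
  · rw [hφa a (hN a ha), if_neg ha.1, if_pos rfl, zero_add]
    exact hr0.ne'
  · rw [hφb b (hN b hb), if_neg hb.1, if_pos rfl, zero_add]
    exact hr0.ne'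

theorem cut_one {k N : ℕ} {p : ℕ → Fin 2 → ℝ} {φ : ℕ → (Fin 2 → ℝ) → ℝ}
    (h : IsHT (Dk 2 k) N p φ) {v : ℕ} (hv : v ∈ Lv (Dk 2 k) N φ) (X : Set ℕ)
    (h1 : ∃ u, u ∈ X ∧ Adj (Tr (Dk 2 k) N φ) u v) (h2 : ∃ u, u ∉ X ∧ Adj (Tr (Dk 2 k) N φ) u v) :
    ∃ s ∈ Tr (Dk 2 k) N φ, v ∈ s ∧ (∃ a ∈ s, a ≠ v ∧ a ∈ X) ∧ ∃ b ∈ s, b ≠ v ∧ b ∉ X := by
  by_contra hno
  obtain ⟨a, haX, ha⟩ := h1
  obtain ⟨b, hbX, hb⟩ := h2
  by_cases hd : dt (p v) (p a) (p b) = 0
  · obtain ⟨hav, s, hs, has, hvs⟩ := id ha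
    have hs3 := (mem_Tr.1 hs).1
    have hex : ∃ c ∈ s, c ≠ a ∧ c ≠ v := by
      have hc : 0 < ((s.erase a).erase v).card := by
        rw [card_erase_of_mem (mem_erase.2 ⟨hav.symm, hvs⟩), card_erase_of_mem has]
        omega
      obtain ⟨c, hc⟩ := card_pos.1 hc
      rw [mem_erase, mem_erase] at hc
      exact ⟨c, hc.2.2, hc.2.1, hc.1⟩
    obtain ⟨c, hcs, hca, hcv⟩ := hex
    have hcX : c ∈ X := by
      by_contra hcX
      exact hno ⟨s, hs, hvs, ⟨a, has, hav, haX⟩, c, hcs, hcv, hcX⟩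
    have hdc : dt (p v) (p a) (p c) ≠ 0 :=
      tr_nd h s hs v hvs a has c hcs hav.symm hca.symm hcv.symm
    have hbL : b ∈ Lv (Dk 2 k) N φ := by
      obtain ⟨_, s', hs', hbs', _⟩ := hb
      exact tr_sub_Lv s' hs' hbs'
    refine Cut1_nb h hv X hno ⟨hcv, s, hs, hcs, hvs⟩ hb hcX hbX ?_
    intro hd2
    unfold dt at hd hd2 hdc
    apply hb.1
    apply p_inj (Dk_closed 2 k) h b hbL v hv
    funext i
    fin_cases i
    · show p b 0 = p v 0
      have e : ((p a 0 - p v 0) * (p c 1 - p v 1) - (p a 1 - p v 1) * (p c 0 - p v 0)) *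
          (p b 0 - p v 0) = 0 := by
        linear_combination (p c 0 - p v 0) * hd - (p a 0 - p v 0) * hd2
      have := (mul_eq_zero.1 e).resolve_left hdc
      linarith
    · show p b 1 = p v 1
      have e : ((p a 0 - p v 0) * (p c 1 - p v 1) - (p a 1 - p v 1) * (p c 0 - p v 0)) *
          (p b 1 - p v 1) = 0 := by
        linear_combination (p c 1 - p v 1) * hd - (p a 1 - p v 1) * hd2
      have := (mul_eq_zero.1 e).resolve_left hdc
      linarith
  · exact Cut1_nb h hv X hno ha hb haX hbX hd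

end PLH
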