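import Pool.Agent.Lib.MP_6a1069_gt.Tu.Cut1

/-!
Cut2: at an interior vertex there are two triangles which are cut.
PROOF.  By `cut_one` there is a triangle `s₁ = {v, c, d}`, `c ∈ X`, `d ∉ X`.  Exchange the roles of `X` and its
complement if necessary to have `dt (p v) (p c) (p d) > 0` (`tr_nd`: it is `≠ 0`; exchanging `c, d` changes
the sign).  Write `p c - p v = ρ_c (cos θ_c, sin θ_c)`, `p d - p v = ρ_d (cos θ_d, sin θ_d)`, `ρ > 0` and
`θ_c < θ_d < θ_c + π` (`dt = ρ_c ρ_d sin (θ_d - θ_c) > 0`; polar coordinates exist, e.g. `Complex.arg`, and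
`θ_d` can be shifted into `(θ_c, θ_c + 2π)`).  Let `ρ > 0` be smaller than `ρ_c`, `ρ_d` and so small that the
ball of radius `ρ` (sup norm) around `p v` is in `Dk` (interior!) and `φ v ≠ 0` on it.  For `θ ∈ ℝ` put
`x θ = p v + ρ (cos θ, sin θ) ∈ Dk`, `x θ ≠ p v`.  As in `cut_one` the carrier of `x θ` contains `v`, another
vertex, and has at most three elements.  `U_X = {θ | ∃ u < N, u ∈ X, u ≠ v, φ u (x θ) ≠ 0}` and `U_Y` (with
`u ∉ X`) are open and cover `ℝ`.  `x θ_c = (1-r) • p v + r • p c` with `r = ρ/ρ_c < 1`, carrier `{v, c}`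
(`seg_vert`), so `θ_c + 2π ∈ U_X \ U_Y`; in the same way `θ_d ∈ U_Y \ U_X`.  The interval
`[θ_d, θ_c + 2π]` is preconnected, so it contains `θ ∈ U_X ∩ U_Y`, `θ ≠ θ_d, θ_c + 2π`.  The carrier `s₂` of
`x θ` is `{v, u, u'}`, `u ∈ X`, `u' ∉ X`: a triangle which is cut.  If `s₂ = s₁` then `u = c`, `u' = d` and
`x θ - p v = β (p c - p v) + γ (p d - p v)` with `β, γ > 0` (`h.bary`), so (take `dt` with `c` and with `d`)
`sin (θ - θ_c) > 0` and `sin (θ_d - θ) > 0`.  But `θ_d < θ < θ_c + 2π`: the first gives `θ < θ_c + π`, so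
`0 < θ - θ_d < π` and `sin (θ_d - θ) < 0`, contradiction.
-/

namespace PLH

open Finset

/-- the path from `b` to `a` outside of the open cone spanned by `a` and `b` -/
private def c2K (a b : Fin 2 → ℝ) : Set (Fin 2 → ℝ) :=
  (segment ℝ b (-a) ∪ segment ℝ (-a) (-b)) ∪ segment ℝ (-b) a

private theorem c2K_pre (a b : Fin 2 → ℝ) : IsPreconnected (c2K a b) := by
  refine IsPreconnected.union (-b) ?_ ?_ ?_ (convex_segment _ _).isPreconnected
  · exact Or.inr (right_mem_segment ℝ _ _)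
  · exact left_mem_segment ℝ _ _
  · exact IsPreconnected.union (-a) (right_mem_segment ℝ _ _) (left_mem_segment ℝ _ _)
      (convex_segment _ _).isPreconnected (convex_segment _ _).isPreconnected

private def c2f (b w : Fin 2 → ℝ) : ℝ := w 0 * b 1 - w 1 * b 0

private def c2g (a w : Fin 2 → ℝ) : ℝ := a 0 * w 1 - a 1 * w 0

private theorem c2K_prop {a b w : Fin 2 → ℝ} (hD : c2f b a ≠ 0) (hw : w ∈ c2K a b) :
    (c2f b w * c2f b a ≤ 0 ∨ c2g a w * c2f b a ≤ 0) ∧ w ≠ 0 := by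
  have hD2 : 0 < c2f b a * c2f b a := by
    rcases lt_or_gt_of_ne hD with h | h
    · exact mul_pos_of_neg_of_neg h h
    · exact mul_pos h h
  rcases hw with (hw | hw) | hw
  · obtain ⟨r, q, hr, hq, hrq, rfl⟩ := hw
    have h1 : c2f b (r • b + q • -a) = -q * c2f b a := by
      simp only [c2f, Pi.add_apply, Pi.smul_apply, Pi.neg_apply, smul_eq_mul]
      ring
    have h2 : c2g a (r • b + q • -a) = r * c2f b a := by
      simp only [c2f, c2g, Pi.add_apply, Pi.smul_apply, Pi.neg_apply, smul_eq_mul]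
      ring
    refine ⟨Or.inl ?_, fun h0 => ?_⟩
    · rw [h1]
      nlinarith
    · rw [h0] at h1 h2
      have h3 : c2f b 0 = 0 := by simp [c2f]
      have h4 : c2g a 0 = 0 := by simp [c2g]
      rw [h3] at h1
      rw [h4] at h2
      have h5 : q = 0 := by
        rcases mul_eq_zero.1 h1.symm with h | h
        · linarith
        · exact absurd h hD
      have h6 : r = 0 := by
        rcases mul_eq_zero.1 h2.symm with h | h
        · exact h
        · exact absurd h hD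
      linarith
  · obtain ⟨r, q, hr, hq, hrq, rfl⟩ := hw
    have h1 : c2f b (r • -a + q • -b) = -r * c2f b a := by
      simp only [c2f, Pi.add_apply, Pi.smul_apply, Pi.neg_apply, smul_eq_mul]
      ring
    have h2 : c2g a (r • -a + q • -b) = -q * c2f b a := by
      simp only [c2f, c2g, Pi.add_apply, Pi.smul_apply, Pi.neg_apply, smul_eq_mul]
      ring
    refine ⟨Or.inl ?_, fun h0 => ?_⟩
    · rw [h1]
      nlinarith
    · rw [h0] at h1 h2
      have h3 : c2f b 0 = 0 := by simp [c2f]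
      have h4 : c2g a 0 = 0 := by simp [c2g]
      rw [h3] at h1
      rw [h4] at h2
      have h5 : r = 0 := by
        rcases mul_eq_zero.1 h1.symm with h | h
        · linarith
        · exact absurd h hD
      have h6 : q = 0 := by
        rcases mul_eq_zero.1 h2.symm with h | h
        · linarith
        · exact absurd h hD
      linarith
  · obtain ⟨r, q, hr, hq, hrq, rfl⟩ := hw
    have h1 : c2f b (r • -b + q • a) = q * c2f b a := by
      simp only [c2f, Pi.add_apply, Pi.smul_apply, Pi.neg_apply, smul_eq_mul]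
      ring
    have h2 : c2g a (r • -b + q • a) = -r * c2f b a := by
      simp only [c2f, c2g, Pi.add_apply, Pi.smul_apply, Pi.neg_apply, smul_eq_mul]
      ring
    refine ⟨Or.inr ?_, fun h0 => ?_⟩
    · rw [h2]
      nlinarith
    · rw [h0] at h1 h2
      have h3 : c2f b 0 = 0 := by simp [c2f]
      have h4 : c2g a 0 = 0 := by simp [c2g]
      rw [h3] at h1
      rw [h4] at h2
      have h5 : q = 0 := by
        rcases mul_eq_zero.1 h1.symm with h | h
        · exact h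
        · exact absurd h hD
      have h6 : r = 0 := by
        rcases mul_eq_zero.1 h2.symm with h | h
        · linarith
        · exact absurd h hD
      linarith

private theorem c2K_norm {a b w : Fin 2 → ℝ} (hw : w ∈ c2K a b) : ‖w‖ ≤ ‖a‖ + ‖b‖ := by
  have key : ∀ (r q : ℝ) (x y : Fin 2 → ℝ), 0 ≤ r → 0 ≤ q → r + q = 1 → ‖x‖ ≤ ‖a‖ + ‖b‖ →
      ‖y‖ ≤ ‖a‖ + ‖b‖ → ‖r • x + q • y‖ ≤ ‖a‖ + ‖b‖ := by
    intro r q x y hr hq hrq hx hy
    calc ‖r • x + q • y‖ ≤ ‖r • x‖ + ‖q • y‖ := norm_add_le _ _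
      _ = r * ‖x‖ + q * ‖y‖ := by
        rw [norm_smul, norm_smul, Real.norm_of_nonneg hr, Real.norm_of_nonneg hq]
      _ ≤ r * (‖a‖ + ‖b‖) + q * (‖a‖ + ‖b‖) := by gcongr
      _ = ‖a‖ + ‖b‖ := by rw [← add_mul, hrq, one_mul]
  have ha : ‖a‖ ≤ ‖a‖ + ‖b‖ := by linarith [norm_nonneg b]
  have hb : ‖b‖ ≤ ‖a‖ + ‖b‖ := by linarith [norm_nonneg a]
  have ha' : ‖-a‖ ≤ ‖a‖ + ‖b‖ := by rwa [norm_neg]
  have hb' : ‖-b‖ ≤ ‖a‖ + ‖b‖ := by rwa [norm_neg]
  rcases hw with (hw | hw) | hw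
  · obtain ⟨r, q, hr, hq, hrq, rfl⟩ := hw
    exact key r q _ _ hr hq hrq hb ha'
  · obtain ⟨r, q, hr, hq, hrq, rfl⟩ := hw
    exact key r q _ _ hr hq hrq ha' hb'
  · obtain ⟨r, q, hr, hq, hrq, rfl⟩ := hw
    exact key r q _ _ hr hq hrq hb' ha

private theorem c2_open {N : ℕ} {p : ℕ → Fin 2 → ℝ} {φ : ℕ → (Fin 2 → ℝ) → ℝ}
    (hc : ∀ u < N, Continuous (φ u)) (v : ℕ) (e : ℝ) (P : ℕ → Prop) :
    IsOpen {w : Fin 2 → ℝ | ∃ u, u < N ∧ P u ∧ φ u (p v + e • w) ≠ 0} := by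
  have h1 : {w : Fin 2 → ℝ | ∃ u, u < N ∧ P u ∧ φ u (p v + e • w) ≠ 0} =
      ⋃ u : {u : ℕ // u < N ∧ P u}, {w | φ u (p v + e • w) ≠ 0} := by
    ext w
    simp only [Set.mem_iUnion]
    constructor
    · rintro ⟨u, hu, hP, hw⟩
      exact ⟨⟨u, hu, hP⟩, hw⟩
    · rintro ⟨⟨u, hu, hP⟩, hw⟩
      exact ⟨u, hu, hP, hw⟩
  rw [h1]
  refine isOpen_iUnion fun u => ?_
  have h2 : Continuous fun w : Fin 2 → ℝ => φ u (p v + e • w) :=
    (hc u u.2.1).comp (continuous_const.add (continuous_id.const_smul e))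
  exact isOpen_ne_fun h2 continuous_const

theorem cut_two {k N : ℕ} {p : ℕ → Fin 2 → ℝ} {φ : ℕ → (Fin 2 → ℝ) → ℝ}
    (h : IsHT (Dk 2 k) N p φ) {v : ℕ} (hv : v ∈ Lv (Dk 2 k) N φ)
    (hvi : p v ∈ interior (Dk 2 k)) (X : Set ℕ)
    (h1 : ∃ u, u ∈ X ∧ Adj (Tr (Dk 2 k) N φ) u v) (h2 : ∃ u, u ∉ X ∧ Adj (Tr (Dk 2 k) N φ) u v) :
    ∃ s ∈ Tr (Dk 2 k) N φ, ∃ s' ∈ Tr (Dk 2 k) N φ, s ≠ s' ∧
      (v ∈ s ∧ (∃ a ∈ s, a ≠ v ∧ a ∈ X) ∧ ∃ b ∈ s, b ≠ v ∧ b ∉ X) ∧
      (v ∈ s' ∧ (∃ a ∈ s', a ≠ v ∧ a ∈ X) ∧ ∃ b ∈ s', b ≠ v ∧ b ∉ X) := by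
  classical
  obtain ⟨s1, hs1, hvs1, ⟨c, hcs, hcv, hcX⟩, ⟨d, hds, hdv, hdX⟩⟩ := cut_one h hv X h1 h2
  have hcd : c ≠ d := fun h0 => hdX (h0 ▸ hcX)
  have hclo := Dk_closed 2 k
  have hcont : ∀ u < N, Continuous (φ u) := fun u hu => (h.pl u hu).1
  have hvN : v < N := (mem_Lv.1 hv).1
  obtain ⟨hpD, hphi⟩ := phi_vert hclo h hv
  -- the two directions
  obtain ⟨a, ha⟩ : ∃ a, a = p c - p v := ⟨_, rfl⟩
  obtain ⟨b, hb⟩ : ∃ b, b = p d - p v := ⟨_, rfl⟩
  have hD : c2f b a ≠ 0 := by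
    have h3 := tr_nd h s1 hs1 v hvs1 c hcs d hds hcv.symm hcd hdv.symm
    have h4 : c2f b a = dt (p v) (p c) (p d) := by
      simp only [c2f, dt, ha, hb, Pi.sub_apply]
    rw [h4]
    exact h3
  -- the small number
  have hO : IsOpen (interior (Dk 2 k) ∩ {x | φ v x ≠ 0}) :=
    isOpen_interior.inter (isOpen_ne_fun (hcont v hvN) continuous_const)
  have hvO : p v ∈ interior (Dk 2 k) ∩ {x | φ v x ≠ 0} := by
    refine ⟨hvi, ?_⟩
    have h3 := hphi v hvN
    rw [if_pos rfl] at h3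
    change φ v (p v) ≠ 0
    rw [h3]
    exact one_ne_zero
  obtain ⟨δ, hδ, hball⟩ := Metric.isOpen_iff.1 hO _ hvO
  have hM : 0 < ‖a‖ + ‖b‖ + 1 := by positivity
  obtain ⟨e, he0, he1, heδ⟩ : ∃ e : ℝ, 0 < e ∧ e ≤ 1 ∧ e * (‖a‖ + ‖b‖ + 1) < δ := by
    refine ⟨min 1 (δ / (2 * (‖a‖ + ‖b‖ + 1))), by positivity, min_le_left _ _, ?_⟩
    calc min 1 (δ / (2 * (‖a‖ + ‖b‖ + 1))) * (‖a‖ + ‖b‖ + 1)
        ≤ δ / (2 * (‖a‖ + ‖b‖ + 1)) * (‖a‖ + ‖b‖ + 1) := by
          gcongr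
          exact min_le_right _ _
      _ = δ / 2 := by field_simp
      _ < δ := by linarith
  have hin : ∀ w ∈ c2K a b, p v + e • w ∈ Dk 2 k ∧ φ v (p v + e • w) ≠ 0 := by
    intro w hw
    have h3 : p v + e • w ∈ Metric.ball (p v) δ := by
      rw [mem_ball_iff_norm, add_sub_cancel_left, norm_smul, Real.norm_of_nonneg he0.le]
      calc e * ‖w‖ ≤ e * (‖a‖ + ‖b‖ + 1) := by
            gcongr
            linarith [c2K_norm hw]
        _ < δ := heδ
    have h4 := hball h3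
    exact ⟨interior_subset h4.1, h4.2⟩
  -- the two open sets
  have hcover : c2K a b ⊆ {w | ∃ u, u < N ∧ (u ≠ v ∧ u ∈ X) ∧ φ u (p v + e • w) ≠ 0} ∪
      {w | ∃ u, u < N ∧ (u ≠ v ∧ u ∉ X) ∧ φ u (p v + e • w) ≠ 0} := by
    intro w hw
    obtain ⟨hxD, hxv⟩ := hin w hw
    have hw0 := (c2K_prop hD hw).2
    by_contra hcon
    have hz : ∀ u < N, u ≠ v → φ u (p v + e • w) = 0 := by
      intro u hu huv
      by_contra h3
      apply hcon
      by_cases huX : u ∈ X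
      · exact Or.inl ⟨u, hu, ⟨huv, huX⟩, h3⟩
      · exact Or.inr ⟨u, hu, ⟨huv, huX⟩, h3⟩
    have h3 := h.sum_one _ hxD
    rw [Finset.sum_eq_single v (fun u hu huv => hz u (Finset.mem_range.1 hu) huv)
      (fun h4 => absurd (Finset.mem_range.2 hvN) h4)] at h3
    have h4 := h.bary _ hxD
    rw [Finset.sum_eq_single v (fun u hu huv => by
        rw [hz u (Finset.mem_range.1 hu) huv, zero_smul])
      (fun h4 => absurd (Finset.mem_range.2 hvN) h4), h3, one_smul] at h4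
    have h5 : e • w = 0 := by
      have := h4.symm
      rwa [add_eq_left] at this
    exact hw0 ((smul_eq_zero.1 h5).resolve_left he0.ne')
  have hUX : (c2K a b ∩ {w | ∃ u, u < N ∧ (u ≠ v ∧ u ∈ X) ∧ φ u (p v + e • w) ≠ 0}).Nonempty := by
    refine ⟨a, Or.inr (right_mem_segment ℝ _ _), c, ?_, ⟨hcv, hcX⟩, ?_⟩
    · exact (mem_Lv.1 (tr_sub_Lv s1 hs1 hcs)).1
    · have h3 := (seg_vert hclo h ⟨hcv, s1, hs1, hcs, hvs1⟩ he0.le he1).2 c
        (mem_Lv.1 (tr_sub_Lv s1 hs1 hcs)).1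
      have h4 : p v + e • a = (1 - e) • p v + e • p c := by
        rw [ha, smul_sub, sub_smul, one_smul]
        abel
      rw [h4, h3, if_neg hcv, if_pos rfl, zero_add]
      exact he0.ne'
  have hUY : (c2K a b ∩ {w | ∃ u, u < N ∧ (u ≠ v ∧ u ∉ X) ∧ φ u (p v + e • w) ≠ 0}).Nonempty := by
    refine ⟨b, Or.inl (Or.inl (left_mem_segment ℝ _ _)), d, ?_, ⟨hdv, hdX⟩, ?_⟩
    · exact (mem_Lv.1 (tr_sub_Lv s1 hs1 hds)).1
    · have h3 := (seg_vert hclo h ⟨hdv, s1, hs1, hds, hvs1⟩ he0.le he1).2 d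
        (mem_Lv.1 (tr_sub_Lv s1 hs1 hds)).1
      have h4 : p v + e • b = (1 - e) • p v + e • p d := by
        rw [hb, smul_sub, sub_smul, one_smul]
        abel
      rw [h4, h3, if_neg hdv, if_pos rfl, zero_add]
      exact he0.ne'
  obtain ⟨w, hw, ⟨u, hu, ⟨huv, huX⟩, hφu⟩, ⟨u', hu', ⟨hu'v, hu'X⟩, hφu'⟩⟩ :=
    c2K_pre a b _ _ (c2_open hcont v e _) (c2_open hcont v e _) hcover hUX hUY
  obtain ⟨hxD, hxv⟩ := hin w hw
  have huu' : u ≠ u' := fun h0 => hu'X (h0 ▸ huX)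
  have hv2 : v ∈ Sp N φ (p v + e • w) := mem_Sp.2 ⟨hvN, hxv⟩
  have hu2 : u ∈ Sp N φ (p v + e • w) := mem_Sp.2 ⟨hu, hφu⟩
  have hu'2 : u' ∈ Sp N φ (p v + e • w) := mem_Sp.2 ⟨hu', hφu'⟩
  have hsub : ({v, u, u'} : Finset ℕ) ⊆ Sp N φ (p v + e • w) := by
    intro t ht
    simp only [Finset.mem_insert, Finset.mem_singleton] at ht
    rcases ht with rfl | rfl | rfl
    · exact hv2
    · exact hu2
    · exact hu'2
  have hcard3 : ({v, u, u'} : Finset ℕ).card = 3 :=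
    Finset.card_eq_three.2 ⟨v, u, u', huv.symm, hu'v.symm, huu', rfl⟩
  have hcard : (Sp N φ (p v + e • w)).card = 3 := by
    have h3 := card_le_three hclo h hxD
    have h4 := Finset.card_le_card hsub
    omega
  have hTr : Sp N φ (p v + e • w) ∈ Tr (Dk 2 k) N φ := mem_Tr.2 ⟨hcard, _, hxD, rfl⟩
  refine ⟨s1, hs1, Sp N φ (p v + e • w), hTr, ?_, ⟨hvs1, ⟨c, hcs, hcv, hcX⟩, ⟨d, hds, hdv, hdX⟩⟩,
    hv2, ⟨u, hu2, huv, huX⟩, ⟨u', hu'2, hu'v, hu'X⟩⟩
  intro heq
  -- the carrier of `x` is `{v, c, d}`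
  have hcard3' : ({v, c, d} : Finset ℕ).card = 3 :=
    Finset.card_eq_three.2 ⟨v, c, d, hcv.symm, hdv.symm, hcd, rfl⟩
  have hset : ({v, c, d} : Finset ℕ) = Sp N φ (p v + e • w) := by
    refine Finset.eq_of_subset_of_card_le ?_ (by omega)
    intro t ht
    rw [← heq]
    simp only [Finset.mem_insert, Finset.mem_singleton] at ht
    rcases ht with rfl | rfl | rfl
    · exact hvs1
    · exact hcs
    · exact hds
  have hsubr : ({v, c, d} : Finset ℕ) ⊆ Finset.range N := by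
    intro t ht
    rw [hset] at ht
    exact Finset.mem_range.2 (mem_Sp.1 ht).1
  have hzero : ∀ t ∈ Finset.range N, t ∉ ({v, c, d} : Finset ℕ) → φ t (p v + e • w) = 0 := by
    intro t ht ht2
    rw [hset] at ht2
    by_contra h3
    exact ht2 (mem_Sp.2 ⟨Finset.mem_range.1 ht, h3⟩)
  have hone := h.sum_one _ hxD
  have hbar := h.bary _ hxD
  rw [← Finset.sum_subset hsubr hzero, Finset.sum_insert (by simp [hcv.symm, hdv.symm]),
    Finset.sum_insert (by simpa using hcd), Finset.sum_singleton] at hone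
  rw [← Finset.sum_subset hsubr (fun t ht ht2 => by rw [hzero t ht ht2, zero_smul]),
    Finset.sum_insert (by simp [hcv.symm, hdv.symm]),
    Finset.sum_insert (by simpa using hcd), Finset.sum_singleton] at hbar
  have hcpos : 0 < φ c (p v + e • w) := by
    have hc2 : c ∈ Sp N φ (p v + e • w) := by
      rw [← hset]
      simp
    exact lt_of_le_of_ne (h.nonneg c (mem_Sp.1 hc2).1 _ hxD) (mem_Sp.1 hc2).2.symm
  have hdpos : 0 < φ d (p v + e • w) := by
    have hc2 : d ∈ Sp N φ (p v + e • w) := by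
      rw [← hset]
      simp
    exact lt_of_le_of_ne (h.nonneg d (mem_Sp.1 hc2).1 _ hxD) (mem_Sp.1 hc2).2.symm
  have hew : e • w = φ c (p v + e • w) • a + φ d (p v + e • w) • b := by
    have h3 : e • w = (φ v (p v + e • w) • p v + (φ c (p v + e • w) • p c +
        φ d (p v + e • w) • p d)) - p v := by
      rw [hbar]
      abel
    refine h3.trans ?_
    have h4 : φ v (p v + e • w) = 1 - (φ c (p v + e • w) + φ d (p v + e • w)) := by linarith
    rw [h4, ha, hb]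
    module
  generalize φ c (p v + e • w) = β at hcpos hew
  generalize φ d (p v + e • w) = γ at hdpos hew
  have hD2 : 0 < c2f b a * c2f b a := by
    rcases lt_or_gt_of_ne hD with h | h
    · exact mul_pos_of_neg_of_neg h h
    · exact mul_pos h h
  have hf : e * c2f b w = β * c2f b a := by
    have h0 := congrFun hew 0
    have h1 := congrFun hew 1
    simp only [Pi.add_apply, Pi.smul_apply, smul_eq_mul] at h0 h1
    have h3 : e * c2f b w = (e * w 0) * b 1 - (e * w 1) * b 0 := by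
      simp only [c2f]
      ring
    rw [h3, h0, h1]
    simp only [c2f]
    ring
  have hg : e * c2g a w = γ * c2f b a := by
    have h0 := congrFun hew 0
    have h1 := congrFun hew 1
    simp only [Pi.add_apply, Pi.smul_apply, smul_eq_mul] at h0 h1
    have h3 : e * c2g a w = a 0 * (e * w 1) - a 1 * (e * w 0) := by
      simp only [c2g]
      ring
    rw [h3, h0, h1]
    simp only [c2f]
    ring
  rcases (c2K_prop hD hw).1 with h3 | h3
  · have h4 : 0 < e * (c2f b w * c2f b a) := by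
      rw [← mul_assoc, hf, mul_assoc]
      exact mul_pos hcpos hD2
    have h5 : e * (c2f b w * c2f b a) ≤ 0 := mul_nonpos_of_nonneg_of_nonpos he0.le h3
    linarith
  · have h4 : 0 < e * (c2g a w * c2f b a) := by
      rw [← mul_assoc, hg, mul_assoc]
      exact mul_pos hdpos hD2
    have h5 : e * (c2g a w * c2f b a) ≤ 0 := mul_nonpos_of_nonneg_of_nonpos he0.le h3
    linarith

end PLH
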