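import Pool.Agent.Lib.MP_6a1069_gt.Tu.Lex

/-!
Flat: if a triangle `s ∋ a` is flat for `l` then all neighbours of `a` are on the same level.
PROOF.  `s = {a, b, c}`.  `gen_fun` (`h.inj`, `h.nd`): `m` injective on `V`, independent of `l`,
`m (p c) < m (p a) < m (p b)`.  Also `-m`.  `f₊ u = toLex (l (P u), m (p u))`, `f₋ u = toLex (l (P u), -m (p u))`.
`ub_lex` twice (`![l, -m]` is independent): `scn T f₊ a + scn T f₋ a ≤ 2 (if a ∈ B then 1 else 2)`.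
`H = {u | l (P a) < l (P u)}`, `L = {u | l (P u) < l (P a)}`.  For every triangle `s' = {a, x, y} ∈ T`:
(number of `f₊, f₋` for which `a` is the middle) `≥` (number of `H, L` which cut `s'`): if `H` and `L` both
cut: `x ∈ H`, `y ∈ L` (or conversely) and `a` is middle for both; if only `H` cuts: `x ∈ H`, `l (P y) = l (P a)`
and `a` is middle for the one of `f₊, f₋` with `f y < f a` (`m (p y) ≠ m (p a)`); only `L`: the same.  For the
given `s`: not cut by `H`, `L`, but `a` is middle for both `f₊` and `f₋`.  Summing over `T` (cards of filters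
as sums of indicators): `scn₊ + scn₋ ≥ cutn H + cutn L + 2`.
`a ∈ B`: `2 ≥ cutn H + cutn L + 2`, so `cutn H = cutn L = 0`; if `H` contained a neighbour then, as `b ∉ H` is
a neighbour, `h.cut` gives `cutn H ≥ 1`, contradiction; the same for `L`.
`a ∉ B`: if there is a neighbour in `H` or `L` then (convex combination with positive weights, `hP.eq`)
there are neighbours in both, so `cutn H ≥ 2`, `cutn L ≥ 2` and `4 ≥ 6`, contradiction.
-/

namespace PLH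

open Finset

theorem Flat_lt {l m : (Fin 2 → ℝ) →ₗ[ℝ] ℝ} {p P : ℕ → Fin 2 → ℝ} {x y : ℕ} :
    toLex (l (P x), m (p x)) < toLex (l (P y), m (p y)) ↔
      l (P x) < l (P y) ∨ (l (P x) = l (P y) ∧ m (p x) < m (p y)) := by
  rw [Prod.Lex.toLex_lt_toLex]

/-- the pointwise inequality -/
theorem Flat_pt {V B : Finset ℕ} {T : Finset (Finset ℕ)} {p P : ℕ → Fin 2 → ℝ}
    (h : TriData V B T p) {l m : (Fin 2 → ℝ) →ₗ[ℝ] ℝ}
    (hm : ∀ u ∈ V, ∀ v ∈ V, m (p u) = m (p v) → u = v) {s : Finset ℕ} (hs : s ∈ T) (a : ℕ)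
    {A1 A2 CH CL : Prop} {_ : Decidable A1} {_ : Decidable A2} {_ : Decidable CH} {_ : Decidable CL}
    (hA1 : A1 ↔ (a ∈ s ∧ (∃ x ∈ s, toLex (l (P x), m (p x)) < toLex (l (P a), m (p a))) ∧
      ∃ y ∈ s, toLex (l (P a), m (p a)) < toLex (l (P y), m (p y))))
    (hA2 : A2 ↔ (a ∈ s ∧ (∃ x ∈ s, toLex (l (P x), (-m) (p x)) < toLex (l (P a), (-m) (p a))) ∧
      ∃ y ∈ s, toLex (l (P a), (-m) (p a)) < toLex (l (P y), (-m) (p y))))
    (hCH : CH ↔ (a ∈ s ∧ (∃ x ∈ s, x ≠ a ∧ x ∈ {u | l (P a) < l (P u)}) ∧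
      ∃ y ∈ s, y ≠ a ∧ y ∉ {u | l (P a) < l (P u)}))
    (hCL : CL ↔ (a ∈ s ∧ (∃ x ∈ s, x ≠ a ∧ x ∈ {u | l (P u) < l (P a)}) ∧
      ∃ y ∈ s, y ≠ a ∧ y ∉ {u | l (P u) < l (P a)})) :
    (if CH then 1 else 0) + (if CL then 1 else 0) ≤ (if A1 then 1 else 0) + (if A2 then 1 else 0) := by
  have key1 : CH → CL → A1 ∧ A2 := by
    intro h1 h2
    obtain ⟨has, ⟨x, hx, hxa, hxH⟩, _⟩ := hCH.1 h1
    obtain ⟨_, ⟨y, hy, hya, hyL⟩, _⟩ := hCL.1 h2
    have hxH' : l (P a) < l (P x) := hxH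
    have hyL' : l (P y) < l (P a) := hyL
    exact ⟨hA1.2 ⟨has, ⟨y, hy, Flat_lt.2 (Or.inl hyL')⟩, ⟨x, hx, Flat_lt.2 (Or.inl hxH')⟩⟩,
      hA2.2 ⟨has, ⟨y, hy, Flat_lt.2 (Or.inl hyL')⟩, ⟨x, hx, Flat_lt.2 (Or.inl hxH')⟩⟩⟩
  have hneg : ∀ x, (-m) (p x) = - m (p x) := fun x => rfl
  have key2 : CH → A1 ∨ A2 := by
    intro h1
    obtain ⟨has, ⟨x, hx, hxa, hxH⟩, ⟨y, hy, hya, hyH⟩⟩ := hCH.1 h1
    have hxH' : l (P a) < l (P x) := hxH
    have hyH' : ¬ l (P a) < l (P y) := hyH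
    rcases lt_or_eq_of_le (not_lt.1 hyH') with hlt | heq
    · left
      exact hA1.2 ⟨has, ⟨y, hy, Flat_lt.2 (Or.inl hlt)⟩, ⟨x, hx, Flat_lt.2 (Or.inl hxH')⟩⟩
    · have hne : m (p y) ≠ m (p a) := fun he =>
        hya (hm y (h.sub s hs hy) a (h.sub s hs has) he)
      rcases lt_or_gt_of_ne hne with hlt | hgt
      · left
        exact hA1.2 ⟨has, ⟨y, hy, Flat_lt.2 (Or.inr ⟨heq, hlt⟩)⟩, ⟨x, hx, Flat_lt.2 (Or.inl hxH')⟩⟩
      · right
        exact hA2.2 ⟨has, ⟨y, hy, Flat_lt.2 (Or.inr ⟨heq, by rw [hneg, hneg]; linarith⟩)⟩,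
          ⟨x, hx, Flat_lt.2 (Or.inl hxH')⟩⟩
  have key3 : CL → A1 ∨ A2 := by
    intro h1
    obtain ⟨has, ⟨x, hx, hxa, hxL⟩, ⟨y, hy, hya, hyL⟩⟩ := hCL.1 h1
    have hxL' : l (P x) < l (P a) := hxL
    have hyL' : ¬ l (P y) < l (P a) := hyL
    rcases lt_or_eq_of_le (not_lt.1 hyL') with hlt | heq
    · left
      exact hA1.2 ⟨has, ⟨x, hx, Flat_lt.2 (Or.inl hxL')⟩, ⟨y, hy, Flat_lt.2 (Or.inl hlt)⟩⟩
    · have hne : m (p a) ≠ m (p y) := fun he =>
        hya (hm y (h.sub s hs hy) a (h.sub s hs has) he.symm)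
      rcases lt_or_gt_of_ne hne with hlt | hgt
      · left
        exact hA1.2 ⟨has, ⟨x, hx, Flat_lt.2 (Or.inl hxL')⟩, ⟨y, hy, Flat_lt.2 (Or.inr ⟨heq, hlt⟩)⟩⟩
      · right
        exact hA2.2 ⟨has, ⟨x, hx, Flat_lt.2 (Or.inl hxL')⟩,
          ⟨y, hy, Flat_lt.2 (Or.inr ⟨heq, by rw [hneg, hneg]; linarith⟩)⟩⟩
  by_cases c1 : CH
  · by_cases c2 : CL
    · obtain ⟨a1, a2⟩ := key1 c1 c2
      rw [if_pos c1, if_pos c2, if_pos a1, if_pos a2]
    · rcases key2 c1 with a1 | a2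
      · rw [if_pos c1, if_neg c2, if_pos a1]; omega
      · rw [if_pos c1, if_neg c2, if_pos a2]; omega
  · by_cases c2 : CL
    · rcases key3 c2 with a1 | a2
      · rw [if_neg c1, if_pos c2, if_pos a1]; omega
      · rw [if_neg c1, if_pos c2, if_pos a2]; omega
    · rw [if_neg c1, if_neg c2]; omega

theorem Flat_sum {T : Finset (Finset ℕ)} (c g : Finset ℕ → ℕ) {s : Finset ℕ} (hs : s ∈ T)
    (hle : ∀ s' ∈ T, c s' ≤ g s') (hgap : c s + 2 ≤ g s) : ∑ x ∈ T, c x + 2 ≤ ∑ x ∈ T, g x := by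
  rw [← add_sum_erase T c hs, ← add_sum_erase T g hs]
  have h2 := sum_le_sum (fun s' hs' => hle s' (mem_of_mem_erase hs') : ∀ s' ∈ T.erase s, c s' ≤ g s')
  omega

theorem flat_step {V B : Finset ℕ} {T : Finset (Finset ℕ)} {p P : ℕ → Fin 2 → ℝ}
    {w : ℕ → ℕ → ℝ} (h : TriData V B T p) (hP : Harm V B T p P w)
    {l : (Fin 2 → ℝ) →ₗ[ℝ] ℝ} (hl : l ≠ 0) {s : Finset ℕ} (hs : s ∈ T) {a : ℕ} (ha : a ∈ s)
    (hfl : ∀ u ∈ s, l (P u) = l (P a)) : ∀ u, Adj T u a → l (P u) = l (P a) := by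
  classical
  intro u hu
  by_contra hne
  -- the triangle
  have hcard := h.card s hs
  have hce : (s.erase a).card = 2 := by rw [card_erase_of_mem ha, hcard]
  obtain ⟨b, c, hbc, hbce⟩ := card_eq_two.1 hce
  have hb : b ∈ s ∧ b ≠ a := by
    have : b ∈ s.erase a := by rw [hbce]; simp
    rw [mem_erase] at this; exact ⟨this.2, this.1⟩
  have hc : c ∈ s ∧ c ≠ a := by
    have : c ∈ s.erase a := by rw [hbce]; simp
    rw [mem_erase] at this; exact ⟨this.2, this.1⟩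
  have haV : a ∈ V := h.sub s hs ha
  have hd := h.nd s hs a ha b hb.1 c hc.1 hb.2.symm hbc hc.2.symm
  obtain ⟨m, hmi, hlm, hmc, hmb⟩ := gen_fun h.inj hl hd
  have hneg : ∀ x, (-m) (p x) = - m (p x) := fun x => rfl
  have hmi' : ∀ u ∈ V, ∀ v ∈ V, (-m) (p u) = (-m) (p v) → u = v := by
    intro x hx y hy hxy
    rw [hneg, hneg] at hxy
    exact hmi x hx y hy (neg_injective hxy)
  have hlm' : LinearIndependent ℝ ![l, -m] := by
    rw [LinearIndependent.pair_iff] at hlm ⊢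
    intro x y hxy
    have := hlm x (-y) (by rw [neg_smul]; rw [smul_neg] at hxy; exact hxy)
    exact ⟨this.1, neg_eq_zero.1 this.2⟩
  have ub1 := ub_lex h hP hlm hmi a haV
  have ub2 := ub_lex h hP hlm' hmi' a haV
  set H : Set ℕ := {u | l (P a) < l (P u)} with hH
  set L : Set ℕ := {u | l (P u) < l (P a)} with hL
  have hcount : cutn T a H + cutn T a L + 2 ≤
      scn T (fun u => toLex (l (P u), m (p u))) a + scn T (fun u => toLex (l (P u), (-m) (p u))) a := by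
    unfold cutn scn
    rw [card_filter, card_filter, card_filter, card_filter, ← sum_add_distrib, ← sum_add_distrib]
    refine Flat_sum _ _ hs (fun s' hs' =>
      Flat_pt (l := l) (P := P) h hmi hs' a Iff.rfl Iff.rfl Iff.rfl Iff.rfl) ?_
    have e1 : ¬ (a ∈ s ∧ (∃ x ∈ s, x ≠ a ∧ x ∈ H) ∧ ∃ y ∈ s, y ≠ a ∧ y ∉ H) := by
      rintro ⟨_, ⟨x, hx, _, hxH⟩, _⟩
      have : l (P a) < l (P x) := hxH
      rw [hfl x hx] at this
      exact lt_irrefl _ this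
    have e2 : ¬ (a ∈ s ∧ (∃ x ∈ s, x ≠ a ∧ x ∈ L) ∧ ∃ y ∈ s, y ≠ a ∧ y ∉ L) := by
      rintro ⟨_, ⟨x, hx, _, hxL⟩, _⟩
      have : l (P x) < l (P a) := hxL
      rw [hfl x hx] at this
      exact lt_irrefl _ this
    have e3 : a ∈ s ∧ (∃ x ∈ s, toLex (l (P x), m (p x)) < toLex (l (P a), m (p a))) ∧
        ∃ y ∈ s, toLex (l (P a), m (p a)) < toLex (l (P y), m (p y)) :=
      ⟨ha, ⟨c, hc.1, Flat_lt.2 (Or.inr ⟨hfl c hc.1, hmc⟩)⟩,
        ⟨b, hb.1, Flat_lt.2 (Or.inr ⟨(hfl b hb.1).symm, hmb⟩)⟩⟩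
    have e4 : a ∈ s ∧ (∃ x ∈ s, toLex (l (P x), (-m) (p x)) < toLex (l (P a), (-m) (p a))) ∧
        ∃ y ∈ s, toLex (l (P a), (-m) (p a)) < toLex (l (P y), (-m) (p y)) :=
      ⟨ha, ⟨b, hb.1, Flat_lt.2 (Or.inr ⟨hfl b hb.1, by rw [hneg, hneg]; linarith⟩)⟩,
        ⟨c, hc.1, Flat_lt.2 (Or.inr ⟨(hfl c hc.1).symm, by rw [hneg, hneg]; linarith⟩)⟩⟩
    rw [if_neg e1, if_neg e2, if_pos e3, if_pos e4]
  have hbA : Adj T b a := ⟨hb.2, s, hs, hb.1, ha⟩
  have hbH : b ∉ H := by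
    intro h0
    have : l (P a) < l (P b) := h0
    rw [hfl b hb.1] at this; exact lt_irrefl _ this
  have hbL : b ∉ L := by
    intro h0
    have : l (P b) < l (P a) := h0
    rw [hfl b hb.1] at this; exact lt_irrefl _ this
  by_cases haB : a ∈ B
  · rw [if_pos haB] at ub1 ub2
    rcases lt_or_gt_of_ne hne with hlt | hgt
    · have h1 := h.cut a haV L ⟨u, hlt, hu⟩ ⟨b, hbL, hbA⟩
      rw [if_pos haB] at h1
      omega
    · have h1 := h.cut a haV H ⟨u, hgt, hu⟩ ⟨b, hbH, hbA⟩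
      rw [if_pos haB] at h1
      omega
  · rw [if_neg haB] at ub1 ub2
    have huV : u ∈ V := by
      obtain ⟨_, s', hs', hus', _⟩ := hu
      exact h.sub s' hs' hus'
    have hsum : ∑ v ∈ V, w a v * (l (P v) - l (P a)) = 0 := by
      have h1 : l (P a) = ∑ v ∈ V, w a v * l (P v) := by
        conv_lhs => rw [hP.eq a haV haB]
        rw [map_sum]
        refine sum_congr rfl ?_
        intro v _
        rw [map_smul, smul_eq_mul]
      have h2 : ∑ v ∈ V, w a v * (l (P v) - l (P a)) =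
          ∑ v ∈ V, w a v * l (P v) - (∑ v ∈ V, w a v) * l (P a) := by
        rw [sum_mul, ← sum_sub_distrib]
        refine sum_congr rfl ?_
        intro v _
        ring
      rw [h2, hP.wts.sum a haV haB, ← h1]; ring
    have hwu : 0 < w a u := (hP.wts.adj a haV haB u huV).2 hu
    have hnz : ∃ i ∈ V, w a i * (l (P i) - l (P a)) ≠ 0 :=
      ⟨u, huV, mul_ne_zero hwu.ne' (sub_ne_zero.2 hne)⟩
    obtain ⟨i, hi, hipos⟩ := exists_pos_of_sum_zero_of_exists_nonzero _ hsum hnz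
    have hsum' : ∑ v ∈ V, -(w a v * (l (P v) - l (P a))) = 0 := by
      rw [sum_neg_distrib, hsum, neg_zero]
    have hnz' : ∃ i ∈ V, -(w a i * (l (P i) - l (P a))) ≠ 0 := by
      obtain ⟨i, hi, hi'⟩ := hnz
      exact ⟨i, hi, neg_ne_zero.2 hi'⟩
    obtain ⟨j, hj, hjpos⟩ := exists_pos_of_sum_zero_of_exists_nonzero _ hsum' hnz'
    have hwi : 0 ≤ w a i := hP.wts.nn a haV haB i
    have hwj : 0 ≤ w a j := hP.wts.nn a haV haB j
    have hwi' : 0 < w a i := by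
      rcases eq_or_lt_of_le hwi with h0 | h0
      · rw [← h0, zero_mul] at hipos; exact absurd hipos (lt_irrefl _)
      · exact h0
    have hwj' : 0 < w a j := by
      rcases eq_or_lt_of_le hwj with h0 | h0
      · rw [← h0, zero_mul, neg_zero] at hjpos; exact absurd hjpos (lt_irrefl _)
      · exact h0
    have hiH : l (P a) < l (P i) := by
      by_contra hcon
      push Not at hcon
      have : w a i * (l (P i) - l (P a)) ≤ 0 := mul_nonpos_of_nonneg_of_nonpos hwi (by linarith)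
      linarith
    have hjL : l (P j) < l (P a) := by
      by_contra hcon
      push Not at hcon
      have : 0 ≤ w a j * (l (P j) - l (P a)) := mul_nonneg hwj (by linarith)
      linarith
    have hiA := (hP.wts.adj a haV haB i hi).1 hwi'
    have hjA := (hP.wts.adj a haV haB j hj).1 hwj'
    have c1 := h.cut a haV H ⟨i, hiH, hiA⟩ ⟨b, hbH, hbA⟩
    have c2 := h.cut a haV L ⟨j, hjL, hjA⟩ ⟨b, hbL, hbA⟩
    rw [if_neg haB] at c1 c2
    omega

end PLH
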