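import Pool.Agent.Lib.MP_6a1069_gt.Tu.TD

/-!
Full: the closed version of `IsHT.full`.
PROOF.  Put `t' k v = (1 - 1/(k+1)) * t v + (1/(k+1)) * φ v x` for `k : ℕ`.  For `v < N`: `0 ≤ t' k v`,
`∑ t' k v = 1` (`h1`, `h.sum_one`), and `t' k v ≠ 0 ↔ φ v x ≠ 0` (if `φ v x = 0` then `t v = 0` by `hs`; if
`φ v x ≠ 0` it is positive).  By `h.full x hx (t' k)` there is `y k ∈ D` with `φ v (y k) = t' k v` for
`v < N`, and by `h.bary (y k)`: `y k = ∑ t' k v • p v = (1 - 1/(k+1)) • y∞ + (1/(k+1)) • x`, with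
`y∞ = ∑ t v • p v` (and `x = ∑ φ v x • p v`).  So `y k → y∞`, `y∞ ∈ D` (closed), and
`φ v y∞ = lim φ v (y k) = lim t' k v = t v` by continuity of `φ v` (`(h.pl v hv).1`).
-/

namespace PLH

open Finset

theorem full' {n N : ℕ} {D : Set (Fin n → ℝ)} (hD : IsClosed D) {p : ℕ → Fin n → ℝ}
    {φ : ℕ → (Fin n → ℝ) → ℝ} (h : IsHT D N p φ) {x : Fin n → ℝ} (hx : x ∈ D) {t : ℕ → ℝ}
    (h0 : ∀ v < N, 0 ≤ t v) (h1 : ∑ v ∈ range N, t v = 1)
    (hs : ∀ v < N, φ v x = 0 → t v = 0) :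
    (∑ u ∈ range N, t u • p u) ∈ D ∧ ∀ v < N, φ v (∑ u ∈ range N, t u • p u) = t v := by
  classical
  set yinf : Fin n → ℝ := ∑ u ∈ range N, t u • p u with hyinf
  have hlim0 : Filter.Tendsto (fun k : ℕ => 1 / ((k : ℝ) + 1)) Filter.atTop (nhds 0) :=
    tendsto_one_div_add_atTop_nhds_zero_nat
  have hpos : ∀ k : ℕ, 0 < 1 / ((k : ℝ) + 1) := fun k => by positivity
  have hle : ∀ k : ℕ, 1 / ((k : ℝ) + 1) ≤ 1 := fun k => by
    rw [div_le_one (by positivity)]
    have : (0 : ℝ) ≤ k := Nat.cast_nonneg k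
    linarith
  have key : ∀ k : ℕ, ∃ y ∈ D, ∀ v < N,
      φ v y = (1 - 1 / ((k : ℝ) + 1)) * t v + 1 / ((k : ℝ) + 1) * φ v x := by
    intro k
    refine h.full x hx (fun v => (1 - 1 / ((k : ℝ) + 1)) * t v + 1 / ((k : ℝ) + 1) * φ v x)
      ?_ ?_ ?_
    · intro v hv
      have a1 := h0 v hv
      have a2 := h.nonneg v hv x hx
      have a3 := hpos k
      have a4 := hle k
      have a5 : 0 ≤ 1 - 1 / ((k : ℝ) + 1) := by linarith
      exact add_nonneg (mul_nonneg a5 a1) (mul_nonneg a3.le a2)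
    · rw [Finset.sum_add_distrib, ← Finset.mul_sum, ← Finset.mul_sum, h1, h.sum_one x hx]
      ring
    · intro v hv
      constructor
      · intro hne h0'
        apply hne
        simp only [h0', hs v hv h0', mul_zero, add_zero]
      · intro hne
        have a1 := h0 v hv
        have a2 : 0 < φ v x := lt_of_le_of_ne (h.nonneg v hv x hx) (Ne.symm hne)
        have a3 := hpos k
        have a4 := hle k
        have a5 : 0 ≤ 1 - 1 / ((k : ℝ) + 1) := by linarith
        exact (add_pos_of_nonneg_of_pos (mul_nonneg a5 a1) (mul_pos a3 a2)).ne'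
  choose y hyD hy using key
  have hyeq : ∀ k : ℕ, y k = (1 - 1 / ((k : ℝ) + 1)) • yinf + (1 / ((k : ℝ) + 1)) • x := by
    intro k
    have e1 : y k = ∑ v ∈ range N, φ v (y k) • p v := (h.bary (y k) (hyD k)).symm
    have e2 : x = ∑ v ∈ range N, φ v x • p v := (h.bary x hx).symm
    have e3 : ∑ v ∈ range N, φ v (y k) • p v =
        ∑ v ∈ range N, ((1 - 1 / ((k : ℝ) + 1)) • (t v • p v) +
          (1 / ((k : ℝ) + 1)) • (φ v x • p v)) := by
      refine Finset.sum_congr rfl fun v hv => ?_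
      rw [hy k v (Finset.mem_range.1 hv), add_smul, mul_smul, mul_smul]
    rw [e1, e3, Finset.sum_add_distrib, ← Finset.smul_sum, ← Finset.smul_sum, ← e2]
  have hlim : Filter.Tendsto y Filter.atTop (nhds yinf) := by
    have e1 : y = fun k : ℕ => (1 - 1 / ((k : ℝ) + 1)) • yinf + (1 / ((k : ℝ) + 1)) • x :=
      funext hyeq
    have e2 := ((tendsto_const_nhds (x := (1 : ℝ))).sub hlim0).smul_const yinf
    have e3 := e2.add (hlim0.smul_const x)
    rw [sub_zero, one_smul, zero_smul, add_zero] at e3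
    rw [e1]
    exact e3
  refine ⟨hD.mem_of_tendsto hlim (Filter.Eventually.of_forall hyD), ?_⟩
  intro v hv
  have hc : Filter.Tendsto (fun k => φ v (y k)) Filter.atTop (nhds (φ v yinf)) :=
    ((h.pl v hv).1.tendsto yinf).comp hlim
  have hc2 : Filter.Tendsto (fun k => φ v (y k)) Filter.atTop (nhds (t v)) := by
    have e1 : (fun k => φ v (y k)) = fun k : ℕ =>
        (1 - 1 / ((k : ℝ) + 1)) * t v + 1 / ((k : ℝ) + 1) * φ v x := funext fun k => hy k v hv
    have e2 := ((tendsto_const_nhds (x := (1 : ℝ))).sub hlim0).mul_const (t v)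
    have e3 := e2.add (hlim0.mul_const (φ v x))
    rw [sub_zero, one_mul, zero_mul, add_zero] at e3
    rw [e1]
    exact e3
  exact tendsto_nhds_unique hc hc2

end PLH
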