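import Pool.Agent.Lib.MP_6a1069_gt.Tu.AffI

/-!
Gen: near every point of `Dk 2 k` there are points in the interior of a triangle of the triangulation
whose carrier contains the carrier of the given point.
PROOF.  `U' = U ∩ {y | ∀ v ∈ Sp N φ x, φ v y ≠ 0}` is open and contains `x` (`φ v` continuous).
`Dk 2 k` is convex with nonempty interior (`Dk_convex`; `0` is interior: `mem_interior_Dk`, here
`k ≥ 1` is not needed: use the point with coordinates `-k + 1/3` for example), so `x` is in the closure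
of the interior (`Convex.closure_interior_eq_closure_of_nonempty_interior` or the segment to an
interior point), and `O = U' ∩ interior D` is open and not empty.  For `y ∈ O` the carrier has at most
`3` elements (`card_le_three`).  If it has at most `2` elements for every `y ∈ O`, then `O` is contained
in the finite union over `a, b < N` of the affine spans of `{p a, p b}` (`h.bary`, `h.sum_one`), which
are null sets (`MeasureTheory.Measure.addHaar_affineSubspace`, they are not everything since the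
dimension is `2`), but `O` has positive measure (`IsOpen.measure_pos`).
(Alternatively: `O` contains a disc, a disc is not a finite union of subsets of lines.)
-/

namespace PLH

open Finset

private theorem gen_int (k : ℕ) : (interior (Dk 2 k)).Nonempty := by
  refine ⟨fun _ => -(k : ℝ) + 1 / 3, mem_interior_Dk (fun i => ?_) ?_⟩
  · show -(k : ℝ) < -(k : ℝ) + 1 / 3
    linarith
  · rw [Fin.sum_univ_two]
    have : (0 : ℝ) ≤ k := Nat.cast_nonneg k
    push_cast
    nlinarith

private theorem gen_line (a b : Fin 2 → ℝ) :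
    MeasureTheory.volume ((affineSpan ℝ {a, b} : AffineSubspace ℝ (Fin 2 → ℝ)) :
      Set (Fin 2 → ℝ)) = 0 := by
  refine MeasureTheory.Measure.addHaar_affineSubspace _ _ fun htop => ?_
  have h1 : Module.finrank ℝ (vectorSpan ℝ {a, b}) ≤ 1 :=
    collinear_iff_finrank_le_one.1 (collinear_pair ℝ a b)
  have h2 : vectorSpan ℝ {a, b} = ⊤ := by
    rw [← direction_affineSpan, htop, AffineSubspace.direction_top]
  rw [h2, finrank_top, Module.finrank_fin_fun] at h1
  omega

private theorem gen_mem {N : ℕ} {D : Set (Fin 2 → ℝ)} {p : ℕ → Fin 2 → ℝ}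
    {φ : ℕ → (Fin 2 → ℝ) → ℝ} (h : IsHT D N p φ) {y : Fin 2 → ℝ} (hy : y ∈ D)
    (hc : (Sp N φ y).card ≤ 2) : ∃ a < N, ∃ b < N,
      y ∈ (affineSpan ℝ {p a, p b} : AffineSubspace ℝ (Fin 2 → ℝ)) := by
  classical
  have hsub : Sp N φ y ⊆ range N := fun v hv => by
    rw [mem_range]
    exact (mem_Sp.1 hv).1
  have hz : ∀ v ∈ range N, v ∉ Sp N φ y → φ v y = 0 := by
    intro v hv hv'
    by_contra hne
    exact hv' (mem_Sp.2 ⟨mem_range.1 hv, hne⟩)
  have h1 : ∑ v ∈ Sp N φ y, φ v y = 1 := by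
    rw [← h.sum_one y hy]
    exact sum_subset hsub fun v hv hv' => hz v hv hv'
  have h2 : ∑ v ∈ Sp N φ y, φ v y • p v = y := by
    conv_rhs => rw [← h.bary y hy]
    exact sum_subset hsub fun v hv hv' => by rw [hz v hv hv', zero_smul]
  have hne : (Sp N φ y).Nonempty := by
    rw [nonempty_iff_ne_empty]
    intro h0
    rw [h0, sum_empty] at h1
    exact zero_ne_one h1
  have hpos := card_pos.2 hne
  rcases (show (Sp N φ y).card = 1 ∨ (Sp N φ y).card = 2 by omega) with h3 | h3
  · obtain ⟨a, ha⟩ := card_eq_one.1 h3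
    rw [ha, sum_singleton] at h1 h2
    have haN : a < N := mem_range.1 (hsub (by rw [ha]; exact mem_singleton_self a))
    refine ⟨a, haN, a, haN, ?_⟩
    rw [h1, one_smul] at h2
    rw [← h2]
    exact left_mem_affineSpan_pair ℝ _ _
  · obtain ⟨a, b, hab, hS⟩ := card_eq_two.1 h3
    rw [hS, sum_pair hab] at h1 h2
    have haN : a < N := mem_range.1 (hsub (by rw [hS]; simp))
    have hbN : b < N := mem_range.1 (hsub (by rw [hS]; simp))
    refine ⟨a, haN, b, hbN, ?_⟩
    have h4 : y = AffineMap.lineMap (p a) (p b) (φ b y) := by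
      have h6 : 1 - φ b y = φ a y := by linarith
      rw [AffineMap.lineMap_apply_module, h6]
      exact h2.symm
    have h5 : AffineMap.lineMap (p a) (p b) (φ b y) ∈
        (affineSpan ℝ {p a, p b} : AffineSubspace ℝ (Fin 2 → ℝ)) :=
      AffineMap.lineMap_mem_affineSpan_pair _ _ _
    rw [← h4] at h5
    exact h5

theorem gen_pt {k N : ℕ} {p : ℕ → Fin 2 → ℝ} {φ : ℕ → (Fin 2 → ℝ) → ℝ}
    (h : IsHT (Dk 2 k) N p φ) {x : Fin 2 → ℝ} (hx : x ∈ Dk 2 k) {U : Set (Fin 2 → ℝ)}
    (hU : IsOpen U) (hxU : x ∈ U) :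
    ∃ y ∈ interior (Dk 2 k), y ∈ U ∧ Sp N φ y ∈ Tr (Dk 2 k) N φ ∧ Sp N φ x ⊆ Sp N φ y := by
  classical
  have hO1 : IsOpen (⋂ v ∈ Sp N φ x, {y | φ v y ≠ 0}) := by
    refine isOpen_biInter_finset fun v hv => ?_
    exact isOpen_ne_fun (h.pl v (mem_Sp.1 hv).1).continuous continuous_const
  set U' : Set (Fin 2 → ℝ) := U ∩ ⋂ v ∈ Sp N φ x, {y | φ v y ≠ 0} with hU'
  have hU'o : IsOpen U' := hU.inter hO1
  have hxU' : x ∈ U' := by
    refine ⟨hxU, ?_⟩
    rw [Set.mem_iInter₂]
    exact fun v hv => (mem_Sp.1 hv).2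
  have hcl : x ∈ closure (interior (Dk 2 k)) := by
    rw [(Dk_convex 2 k).closure_interior_eq_closure_of_nonempty_interior (gen_int k)]
    exact subset_closure hx
  have hne : (U' ∩ interior (Dk 2 k)).Nonempty := mem_closure_iff.1 hcl U' hU'o hxU'
  have hOo : IsOpen (U' ∩ interior (Dk 2 k)) := hU'o.inter isOpen_interior
  by_cases hex : ∃ y ∈ U' ∩ interior (Dk 2 k), ¬ (Sp N φ y).card ≤ 2
  · obtain ⟨y, hy, hc⟩ := hex
    have hyD : y ∈ Dk 2 k := interior_subset hy.2
    have h3 := card_le_three (Dk_closed 2 k) h hyD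
    refine ⟨y, hy.2, hy.1.1, mem_Tr.2 ⟨by omega, y, hyD, rfl⟩, fun v hv => ?_⟩
    have h4 := Set.mem_iInter₂.1 hy.1.2 v hv
    exact mem_Sp.2 ⟨(mem_Sp.1 hv).1, h4⟩
  · exfalso
    push Not at hex
    have hpos := hOo.measure_pos MeasureTheory.volume hne
    have hsub : U' ∩ interior (Dk 2 k) ⊆ ⋃ q ∈ ((range N ×ˢ range N : Finset (ℕ × ℕ)) : Set (ℕ × ℕ)),
        ((affineSpan ℝ {p q.1, p q.2} : AffineSubspace ℝ (Fin 2 → ℝ)) : Set (Fin 2 → ℝ)) := by
      intro y hy
      obtain ⟨a, ha, b, hb, hab⟩ := gen_mem h (interior_subset hy.2) (hex y hy)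
      rw [Set.mem_iUnion₂]
      exact ⟨(a, b), mem_coe.2 (mem_product.2 ⟨mem_range.2 ha, mem_range.2 hb⟩), hab⟩
    have hzero : MeasureTheory.volume (⋃ q ∈ ((range N ×ˢ range N : Finset (ℕ × ℕ)) :
        Set (ℕ × ℕ)), ((affineSpan ℝ {p q.1, p q.2} : AffineSubspace ℝ (Fin 2 → ℝ)) :
          Set (Fin 2 → ℝ))) = 0 :=
      (MeasureTheory.measure_biUnion_null_iff
        (range N ×ˢ range N : Finset (ℕ × ℕ)).countable_toSet).2 fun q _ => gen_line _ _
    have := MeasureTheory.measure_mono_null hsub hzero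
    exact absurd this hpos.ne'

end PLH
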