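import Pool.Agent.Lib.MP_6a1069_gt.Tu.TD

/-!
GenF: generic linear functionals.
PROOF.  Put `m₀` = the functional with `m₀ (p b - p a) = 1`, `m₀ (p c - p a) = -1` (exists since `dt ≠ 0`:
explicit formula, solve the 2 by 2 system; for `gen_fun0` take `m₀ = 0`).  For `ε : ℝ` let
`m_ε x = m₀ x + ε * x 0 + ε^2 * x 1`.  For `u ≠ v` in `V` the vector `d = p u - p v` is not zero and
`ε ↦ m_ε d = m₀ d + ε d 0 + ε^2 d 1` is a nonzero polynomial in `ε` (if `d ≠ 0` one of `d 0, d 1` is not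
zero), so has finitely many roots.  `LinearIndependent ![l, m_ε]` holds as soon as the determinant
`l e_0 * m_ε e_1 - l e_1 * m_ε e_0 ≠ 0`; it equals `l e_0 m₀ e_1 - l e_1 m₀ e_0 + ε^2 l e_0 - ε l e_1`, a nonzero
polynomial (`l ≠ 0`).  So all but finitely many `ε` satisfy the first two conclusions, and all
sufficiently small `ε` satisfy the two strict inequalities (continuity at `ε = 0`).  Infinitely many
small `ε` exist.
-/

namespace PLH

open Finset

private theorem GenF_fin {A B : ℝ} (C : ℝ) (h : A ≠ 0 ∨ B ≠ 0) :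
    {ε : ℝ | A * ε ^ 2 + B * ε + C = 0}.Finite := by
  classical
  set q : Polynomial ℝ := Polynomial.C A * Polynomial.X ^ 2 + Polynomial.C B * Polynomial.X +
    Polynomial.C C with hq
  have hq0 : q ≠ 0 := by
    intro h0
    have h2 : q.coeff 2 = A := by
      simp [hq, Polynomial.coeff_X, Polynomial.coeff_C]
    have h1 : q.coeff 1 = B := by
      simp [hq, Polynomial.coeff_X, Polynomial.coeff_C]
    rw [h0, Polynomial.coeff_zero] at h1 h2
    rcases h with h | h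
    · exact h h2.symm
    · exact h h1.symm
  refine (q.roots.toFinset.finite_toSet).subset ?_
  intro ε hε
  rw [Finset.mem_coe, Multiset.mem_toFinset, Polynomial.mem_roots hq0, Polynomial.IsRoot.def]
  have hε' : A * ε ^ 2 + B * ε + C = 0 := hε
  simp only [hq, Polynomial.eval_add, Polynomial.eval_mul, Polynomial.eval_C, Polynomial.eval_pow,
    Polynomial.eval_X]
  exact hε'

private noncomputable def GenF_fn (A B : ℝ) : (Fin 2 → ℝ) →ₗ[ℝ] ℝ :=
  A • LinearMap.proj 0 + B • LinearMap.proj 1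

private theorem GenF_fn_apply (A B : ℝ) (x : Fin 2 → ℝ) :
    GenF_fn A B x = A * x 0 + B * x 1 := rfl

private theorem GenF_li {l : (Fin 2 → ℝ) →ₗ[ℝ] ℝ} {A B : ℝ}
    (h : l (Pi.single 0 1) * B - l (Pi.single 1 1) * A ≠ 0) :
    LinearIndependent ℝ ![l, GenF_fn A B] := by
  rw [LinearIndependent.pair_iff]
  intro s t hst
  have h0 := LinearMap.congr_fun hst (Pi.single 0 1)
  have h1 := LinearMap.congr_fun hst (Pi.single 1 1)
  simp only [LinearMap.add_apply, LinearMap.smul_apply, GenF_fn_apply, LinearMap.zero_apply,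
    smul_eq_mul, Pi.single_eq_same, Pi.single_eq_of_ne (show (1 : Fin 2) ≠ 0 by decide),
    Pi.single_eq_of_ne (show (0 : Fin 2) ≠ 1 by decide), mul_one, mul_zero, add_zero,
    zero_add] at h0 h1
  constructor
  · have h2 : s * (l (Pi.single 0 1) * B - l (Pi.single 1 1) * A) = 0 := by
      linear_combination B * h0 - A * h1
    exact (mul_eq_zero.1 h2).resolve_right h
  · have h2 : t * (l (Pi.single 0 1) * B - l (Pi.single 1 1) * A) = 0 := by
      linear_combination l (Pi.single 0 1) * h1 - l (Pi.single 1 1) * h0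
    exact (mul_eq_zero.1 h2).resolve_right h

private theorem GenF_l {l : (Fin 2 → ℝ) →ₗ[ℝ] ℝ} (hl : l ≠ 0) :
    l (Pi.single 0 1) ≠ 0 ∨ -l (Pi.single 1 1) ≠ 0 := by
  by_contra hcon
  push Not at hcon
  apply hl
  refine LinearMap.pi_ext' fun i => ?_
  refine LinearMap.ext_ring ?_
  have h1 : l (Pi.single 1 1) = 0 := neg_eq_zero.1 hcon.2
  fin_cases i
  · show l (Pi.single 0 1) = 0
    exact hcon.1
  · show l (Pi.single 1 1) = 0
    exact h1

private theorem GenF_core {V : Finset ℕ} {p : ℕ → Fin 2 → ℝ}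
    (hinj : ∀ u ∈ V, ∀ v ∈ V, p u = p v → u = v) {l : (Fin 2 → ℝ) →ₗ[ℝ] ℝ} (hl : l ≠ 0)
    (α β : ℝ) {Q : ℝ → Prop} (hQ : ∀ᶠ ε in nhds (0 : ℝ), Q ε) :
    ∃ ε, Q ε ∧ (∀ u ∈ V, ∀ v ∈ V,
      GenF_fn (α + ε) (β + ε ^ 2) (p u) = GenF_fn (α + ε) (β + ε ^ 2) (p v) → u = v) ∧
      LinearIndependent ℝ ![l, GenF_fn (α + ε) (β + ε ^ 2)] := by
  obtain ⟨δ, hδ, hball⟩ := Metric.eventually_nhds_iff.1 hQ
  have hS1 : (⋃ u ∈ V, ⋃ v ∈ V, {ε : ℝ | u ≠ v ∧
      (p u 1 - p v 1) * ε ^ 2 + (p u 0 - p v 0) * ε +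
        (α * (p u 0 - p v 0) + β * (p u 1 - p v 1)) = 0}).Finite := by
    refine Set.Finite.biUnion V.finite_toSet fun u hu => ?_
    refine Set.Finite.biUnion V.finite_toSet fun v hv => ?_
    by_cases huv : u = v
    · refine Set.Finite.subset Set.finite_empty ?_
      rintro ε ⟨h1, _⟩
      exact absurd huv h1
    · refine (GenF_fin (α * (p u 0 - p v 0) + β * (p u 1 - p v 1)) (A := p u 1 - p v 1)
        (B := p u 0 - p v 0) ?_).subset fun ε hε => hε.2
      by_contra hcon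
      push Not at hcon
      refine huv (hinj u hu v hv ?_)
      funext i
      fin_cases i
      · show p u 0 = p v 0
        linarith [hcon.2]
      · show p u 1 = p v 1
        linarith [hcon.1]
  have hS2 := GenF_fin (l (Pi.single 0 1) * β - l (Pi.single 1 1) * α) (GenF_l hl)
  obtain ⟨ε, hε, hnot⟩ := ((Set.Ioo_infinite hδ).diff (hS1.union hS2)).nonempty
  refine ⟨ε, hball ?_, ?_, ?_⟩
  · rw [Real.dist_eq, sub_zero, abs_of_pos hε.1]
    exact hε.2
  · intro u hu v hv huv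
    by_contra hne
    apply hnot
    left
    refine Set.mem_biUnion hu (Set.mem_biUnion hv ⟨hne, ?_⟩)
    rw [GenF_fn_apply, GenF_fn_apply] at huv
    linear_combination huv
  · apply GenF_li
    intro h0
    apply hnot
    right
    show l (Pi.single 0 1) * ε ^ 2 + -l (Pi.single 1 1) * ε +
      (l (Pi.single 0 1) * β - l (Pi.single 1 1) * α) = 0
    linear_combination h0

theorem gen_fun {V : Finset ℕ} {p : ℕ → Fin 2 → ℝ}
    (hinj : ∀ u ∈ V, ∀ v ∈ V, p u = p v → u = v) {l : (Fin 2 → ℝ) →ₗ[ℝ] ℝ} (hl : l ≠ 0)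
    {a b c : ℕ} (hd : dt (p a) (p b) (p c) ≠ 0) :
    ∃ m : (Fin 2 → ℝ) →ₗ[ℝ] ℝ, (∀ u ∈ V, ∀ v ∈ V, m (p u) = m (p v) → u = v) ∧
      LinearIndependent ℝ ![l, m] ∧ m (p c) < m (p a) ∧ m (p a) < m (p b) := by
  set D := dt (p a) (p b) (p c) with hD
  have hD' : D = (p b 0 - p a 0) * (p c 1 - p a 1) - (p b 1 - p a 1) * (p c 0 - p a 0) := rfl
  set α : ℝ := ((p c 1 - p a 1) + (p b 1 - p a 1)) / D with hα
  set β : ℝ := (-(p b 0 - p a 0) - (p c 0 - p a 0)) / D with hβ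
  have e1 : α * (p b 0 - p a 0) + β * (p b 1 - p a 1) = 1 := by
    rw [hα, hβ, div_mul_eq_mul_div, div_mul_eq_mul_div, ← add_div, div_eq_one_iff_eq hd, hD']
    ring
  have e2 : α * (p c 0 - p a 0) + β * (p c 1 - p a 1) = -1 := by
    rw [hα, hβ, div_mul_eq_mul_div, div_mul_eq_mul_div, ← add_div, div_eq_iff hd, hD']
    ring
  have hQ : ∀ᶠ ε in nhds (0 : ℝ), GenF_fn (α + ε) (β + ε ^ 2) (p c) <
      GenF_fn (α + ε) (β + ε ^ 2) (p a) ∧ GenF_fn (α + ε) (β + ε ^ 2) (p a) <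
      GenF_fn (α + ε) (β + ε ^ 2) (p b) := by
    simp only [GenF_fn_apply]
    refine Filter.Eventually.and ?_ ?_
    · refine ContinuousAt.eventually_lt (by fun_prop) (by fun_prop) ?_
      simp only [add_zero, ne_eq, OfNat.ofNat_ne_zero, not_false_eq_true, zero_pow]
      linarith
    · refine ContinuousAt.eventually_lt (by fun_prop) (by fun_prop) ?_
      simp only [add_zero, ne_eq, OfNat.ofNat_ne_zero, not_false_eq_true, zero_pow]
      linarith
  obtain ⟨ε, h1, h2, h3⟩ := GenF_core hinj hl α β hQ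
  exact ⟨_, h2, h3, h1.1, h1.2⟩

theorem gen_fun0 {V : Finset ℕ} {p : ℕ → Fin 2 → ℝ}
    (hinj : ∀ u ∈ V, ∀ v ∈ V, p u = p v → u = v) {l : (Fin 2 → ℝ) →ₗ[ℝ] ℝ} (hl : l ≠ 0) :
    ∃ m : (Fin 2 → ℝ) →ₗ[ℝ] ℝ, m ≠ 0 ∧ (∀ u ∈ V, ∀ v ∈ V, m (p u) = m (p v) → u = v) ∧
      LinearIndependent ℝ ![l, m] := by
  obtain ⟨ε, _, h2, h3⟩ := GenF_core hinj hl 0 0 (Q := fun _ => True) Filter.univ_mem
  exact ⟨_, h3.ne_zero 1, h2, h3⟩

end PLH
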