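import Pool.Agent.Lib.MP_6a1069_gt.Tu.Gen

/-!
IntN: an interior vertex has a neighbour on the positive side of every functional.
PROOF.  There is `g` with `m g > 0` (`m ≠ 0`).  The set `U = {y | m (p v) < m y, φ v y ≠ 0}` is open
(`m` is continuous in finite dimension: `LinearMap.continuous_of_finiteDimensional`) and contains
`x = p v + ε • g` for small `ε > 0` (`φ v (p v) = 1`, `phi_vert`), and `x ∈ Dk` for small `ε` (interior).
`gen_pt`: `y ∈ U` in `Dk` whose carrier `s` is a triangle; `v ∈ s`.  `∑_{u} φ u y * m (p u) = m y > m (p v)`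
and `∑ φ u y = 1`, `φ u y ≥ 0`, so some `u ∈ s` has `m (p u) > m (p v)`; `u ≠ v`.
-/

namespace PLH

open Finset

theorem ht_inter {k N : ℕ} {p : ℕ → Fin 2 → ℝ} {φ : ℕ → (Fin 2 → ℝ) → ℝ}
    (h : IsHT (Dk 2 k) N p φ) {v : ℕ} (hv : v ∈ Lv (Dk 2 k) N φ)
    (hvi : p v ∈ interior (Dk 2 k)) (m : (Fin 2 → ℝ) →ₗ[ℝ] ℝ) (hm : m ≠ 0) :
    ∃ u, Adj (Tr (Dk 2 k) N φ) u v ∧ m (p v) < m (p u) := by
  have hvN : v < N := (mem_Lv.1 hv).1
  have hpv : φ v (p v) = 1 := by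
    have := (phi_vert (Dk_closed 2 k) h hv).2 v hvN
    simpa using this
  have hmc : Continuous m := m.continuous_of_finiteDimensional
  have hφc : Continuous (φ v) := (h.pl v hvN).1
  obtain ⟨g, hg⟩ : ∃ g, 0 < m g := by
    obtain ⟨g, hg⟩ : ∃ g, m g ≠ 0 := by
      by_contra hcon
      push Not at hcon
      exact hm (LinearMap.ext hcon)
    rcases lt_or_gt_of_ne hg with h1 | h1
    · exact ⟨-g, by rw [map_neg]; linarith⟩
    · exact ⟨g, h1⟩
  have hlc : Continuous fun ε : ℝ => p v + ε • g := by fun_prop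
  have h0 : (fun ε : ℝ => p v + ε • g) 0 = p v := by simp
  have e1 : ∀ᶠ ε : ℝ in nhds 0, p v + ε • g ∈ interior (Dk 2 k) :=
    hlc.continuousAt.eventually (by rw [h0]; exact isOpen_interior.mem_nhds hvi)
  have e2 : ∀ᶠ ε : ℝ in nhds 0, φ v (p v + ε • g) ≠ 0 := by
    have : ContinuousAt (fun ε : ℝ => φ v (p v + ε • g)) 0 := (hφc.comp hlc).continuousAt
    refine this.eventually_ne ?_
    simp [hpv]
  have e3 : ∀ᶠ ε : ℝ in nhdsWithin 0 (Set.Ioi 0), 0 < ε := self_mem_nhdsWithin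
  obtain ⟨ε, ⟨hε1, hε2⟩, hε3⟩ :=
    (((e1.and e2).filter_mono nhdsWithin_le_nhds).and e3).exists
  have hU : IsOpen {y | m (p v) < m y ∧ φ v y ≠ 0} :=
    (isOpen_lt continuous_const hmc).inter (isOpen_ne_fun hφc continuous_const)
  obtain ⟨y, hyi, ⟨hy1, hy2⟩, hyT, -⟩ := gen_pt h (interior_subset hε1) hU
    (show p v + ε • g ∈ {y | m (p v) < m y ∧ φ v y ≠ 0} from
      ⟨by rw [map_add, map_smul, smul_eq_mul]; nlinarith, hε2⟩)
  have hyD : y ∈ Dk 2 k := interior_subset hyi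
  have hsum : ∑ u ∈ range N, φ u y * m (p u) = m y := by
    conv_rhs => rw [← h.bary y hyD]
    rw [map_sum]
    exact sum_congr rfl fun u _ => by rw [map_smul, smul_eq_mul]
  have hex : ∃ u ∈ range N, φ u y * m (p v) < φ u y * m (p u) := by
    refine exists_lt_of_sum_lt ?_
    rw [hsum, ← sum_mul, h.sum_one y hyD, one_mul]
    exact hy1
  obtain ⟨u, hu, hlt⟩ := hex
  have hu' : u < N := mem_range.1 hu
  have hnn := h.nonneg u hu' y hyD
  have hne : φ u y ≠ 0 := by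
    intro h0
    rw [h0] at hlt
    simp at hlt
  have hpos : 0 < φ u y := lt_of_le_of_ne hnn (Ne.symm hne)
  have hmu : m (p v) < m (p u) := lt_of_mul_lt_mul_left hlt hnn
  refine ⟨u, ⟨?_, Sp N φ y, hyT, mem_Sp.2 ⟨hu', hne⟩, mem_Sp.2 ⟨hvN, hy2⟩⟩, hmu⟩
  rintro rfl
  exact lt_irrefl _ hmu

end PLH
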