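import Pool.Agent.Lib.MP_6a1069_gt.Tu.Up
import Pool.Agent.Lib.MP_6a1069_gt.Tu.Cut2
import Pool.Agent.Lib.MP_6a1069_gt.Tu.IntN
import Pool.Agent.Lib.MP_6a1069_gt.Tu.Bd

/-!
Geo: a triangulation of `Dk 2 k` gives `TriData`.
PROOF.  `sub`: `tr_sub_Lv`; `card`: `mem_Tr`; `bsub`: filter; `inj`: `p_inj` with `Dk_closed`; `nd`: `tr_nd`;
`up`: `ht_up`; `inter`: `ht_inter` (`v ∉ Bv`, `v ∈ Lv` gives `p v ∈ interior`); `bdry`: `ht_bdry`; `corner`:
`ht_corner`; `cut`: for `v ∈ Bv` `cut_one` gives an element of the filtered set (`Finset.card_pos`), for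
`v ∉ Bv` `cut_two` gives two different elements (`Finset.one_lt_card`).
-/

namespace PLH

open Finset

theorem triData_of_HT {k N : ℕ} {p : ℕ → Fin 2 → ℝ} {φ : ℕ → (Fin 2 → ℝ) → ℝ}
    (h : IsHT (Dk 2 k) N p φ) :
    TriData (Lv (Dk 2 k) N φ) (Bv (Dk 2 k) N p φ) (Tr (Dk 2 k) N φ) p where
  sub := tr_sub_Lv
  card := fun s hs => (mem_Tr.mp hs).1
  bsub := fun v hv => by
    rw [mem_Bv] at hv
    exact mem_Lv.mpr hv.1
  inj := p_inj (Dk_closed 2 k) h
  nd := tr_nd h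
  up := ht_up h
  cut := by
    classical
    intro v hv X h1 h2
    split_ifs with hb
    · obtain ⟨s, hs, hs'⟩ := cut_one h hv X h1 h2
      rw [cutn, Nat.succ_le_iff, Finset.card_pos]
      exact ⟨s, Finset.mem_filter.mpr ⟨hs, hs'⟩⟩
    · have hi : p v ∈ interior (Dk 2 k) := by
        by_contra hc
        exact hb (mem_Bv.mpr ⟨mem_Lv.mp hv, hc⟩)
      obtain ⟨s, hs, s', hs', hne, h3, h4⟩ := cut_two h hv hi X h1 h2
      rw [cutn, Nat.succ_le_iff, Finset.one_lt_card]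
      exact ⟨s, Finset.mem_filter.mpr ⟨hs, h3⟩, s', Finset.mem_filter.mpr ⟨hs', h4⟩, hne⟩
  inter := by
    intro v hv hb m hm
    have hi : p v ∈ interior (Dk 2 k) := by
      by_contra hc
      exact hb (mem_Bv.mpr ⟨mem_Lv.mp hv, hc⟩)
    exact ht_inter h hv hi m hm
  bdry := ht_bdry h
  corner := ht_corner h

end PLH
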