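import Pool.Agent.Lib.MP_6a1069_gt.Lip

/-!
LipS: a continuous selection of finitely many `C`-Lipschitz affine maps is `C`-Lipschitz.
PROOF.  The proof of `IsPL.lipschitz` (file `Lip`) with the constant `C` given (there
`C = max C₀ 0` and `hCa : ∀ a ∈ S, ‖a u - a v‖ ≤ C * ‖u - v‖` is the only property of `C` which is used; `C ≥ 0`).
-/

namespace PLH


theorem lip_of_sel {E F : Type*} [NormedAddCommGroup E] [NormedSpace ℝ E]
    [FiniteDimensional ℝ E] [NormedAddCommGroup F] [NormedSpace ℝ F] {f : E → F}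
    (hfc : Continuous f) {S : Set (E →ᵃ[ℝ] F)} (hS : S.Finite) (hS' : ∀ x, ∃ a ∈ S, f x = a x)
    {C : ℝ} (hC0 : 0 ≤ C) (hC : ∀ a ∈ S, ∀ u v : E, ‖a u - a v‖ ≤ C * ‖u - v‖) :
    ∀ x y, ‖f x - f y‖ ≤ C * ‖x - y‖ := by
  intro y x
  set z : ℝ → E := fun τ => x + τ • (y - x) with hz
  have hzc : Continuous z := by fun_prop
  have hgc : Continuous fun τ => f (z τ) := hfc.comp hzc
  have hloc : ∀ τ₀ : ℝ, ∀ᶠ τ in nhds τ₀, ‖f (z τ) - f (z τ₀)‖ ≤ C * (|τ - τ₀| * ‖y - x‖) := by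
    intro τ₀
    have h1 : ∀ a ∈ S, ∀ᶠ τ in nhds τ₀, a (z τ) = f (z τ) → a (z τ₀) = f (z τ₀) := by
      intro a _
      by_cases h : a (z τ₀) = f (z τ₀)
      · exact Filter.Eventually.of_forall fun _ _ => h
      · have hac : Continuous fun τ => a (z τ) :=
          a.continuous_of_finiteDimensional.comp hzc
        have h2 : ∀ᶠ τ in nhds τ₀, a (z τ) - f (z τ) ≠ 0 :=
          (hac.sub hgc).continuousAt.eventually_ne (sub_ne_zero.2 h)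
        filter_upwards [h2] with τ hτ h3
        exact absurd (sub_eq_zero.2 h3) hτ
    have h2 := (Filter.eventually_all_finite hS).2 h1
    filter_upwards [h2] with τ hτ
    obtain ⟨a, ha, hax⟩ := hS' (z τ)
    rw [hax, ← hτ a ha hax.symm]
    refine (hC a ha _ _).trans (mul_le_mul_of_nonneg_left (le_of_eq ?_) hC0)
    have : z τ - z τ₀ = (τ - τ₀) • (y - x) := by
      simp only [hz]
      rw [sub_smul]
      abel
    rw [this, norm_smul, Real.norm_eq_abs]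
  set T : Set ℝ := {τ | ‖f (z τ) - f (z 0)‖ ≤ C * (τ * ‖y - x‖)} with hT
  have hTc : IsClosed (T ∩ Set.Icc 0 1) :=
    (isClosed_le (by fun_prop) (by fun_prop)).inter isClosed_Icc
  have h0 : (0 : ℝ) ∈ T := by simp [hT]
  have hsub := hTc.Icc_subset_of_forall_exists_gt h0 (fun τ₀ hτ₀ w hw => by
    have h1 : ∀ᶠ τ in nhdsWithin τ₀ (Set.Ioi τ₀),
        ‖f (z τ) - f (z τ₀)‖ ≤ C * (|τ - τ₀| * ‖y - x‖) :=
      (hloc τ₀).filter_mono nhdsWithin_le_nhds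
    have h2 : ∀ᶠ τ in nhdsWithin τ₀ (Set.Ioi τ₀), τ ∈ Set.Ioc τ₀ w :=
      Ioc_mem_nhdsGT hw
    obtain ⟨τ, hτ1, hτ2⟩ := (h1.and h2).exists
    refine ⟨τ, ?_, hτ2⟩
    show ‖f (z τ) - f (z 0)‖ ≤ C * (τ * ‖y - x‖)
    have h3 : ‖f (z τ₀) - f (z 0)‖ ≤ C * (τ₀ * ‖y - x‖) := hτ₀.1
    rw [abs_of_pos (sub_pos.2 hτ2.1)] at hτ1
    calc ‖f (z τ) - f (z 0)‖ = ‖(f (z τ) - f (z τ₀)) + (f (z τ₀) - f (z 0))‖ := by
          congr 1; abel
      _ ≤ ‖f (z τ) - f (z τ₀)‖ + ‖f (z τ₀) - f (z 0)‖ := norm_add_le _ _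
      _ ≤ C * ((τ - τ₀) * ‖y - x‖) + C * (τ₀ * ‖y - x‖) := add_le_add hτ1 h3
      _ = C * (τ * ‖y - x‖) := by ring)
  have h1 : ‖f (z 1) - f (z 0)‖ ≤ C * (1 * ‖y - x‖) := hsub ⟨zero_le_one, le_rfl⟩
  simpa [hz] using h1

end PLH
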