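import Pool.Agent.Lib.MP_6a1069_gt.Tu.Gen
import Pool.Agent.Lib.MP_6a1069_gt.Tu.LipS

/-!
InvL: the inverse of a realized map is Lipschitz with a constant which depends only on the
triangles.
PROOF.  For `s ∈ Tr` let `A s` be the affine map of `hA`.  `S = {A s | s ∈ Tr} ∪ {id}` is finite, all its
elements are `C`-Lipschitz (`1 ≤ C`).  `G⁻¹` is continuous (`hG.2.1.1`).  Selection: given `y` put `x = G⁻¹ y`.
If `x ∉ Dk` then `y = G x = x = id y`.  If `x ∈ Dk`: `gen_pt` (with `U = univ`) gives a triangle `s ∈ Tr` which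
contains the carrier of `x`.  `y = G x = ∑_{v<N} φ v x • P v`, where the coefficients vanish outside `s` and
have sum one; an affine map commutes with such sums (`HatAd.aff_sum`):
`A s y = ∑ φ v x • A s (P v) = ∑ φ v x • p v = x` (terms with `v ∉ s` are zero; `hT.bary`).
Conclude with `lip_of_sel`.
-/

namespace PLH

open Finset

theorem inv_lip {k N : ℕ} {p : ℕ → Fin 2 → ℝ} {φ : ℕ → (Fin 2 → ℝ) → ℝ}
    (hT : IsHT (Dk 2 k) N p φ) {P : ℕ → Fin 2 → ℝ} {G : Equiv.Perm (Fin 2 → ℝ)}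
    (hG : G ∈ PLc (Fin 2 → ℝ)) (hR : Realizes k N φ P G) {C : ℝ} (hC : 1 ≤ C)
    (hA : ∀ s ∈ Tr (Dk 2 k) N φ, ∃ A : (Fin 2 → ℝ) →ᵃ[ℝ] (Fin 2 → ℝ), (∀ v ∈ s, A (P v) = p v) ∧
      ∀ x y, ‖A x - A y‖ ≤ C * ‖x - y‖) : ∀ x y, ‖G⁻¹ x - G⁻¹ y‖ ≤ C * ‖x - y‖ := by
  classical
  choose A hA1 hA2 using hA
  set S : Set ((Fin 2 → ℝ) →ᵃ[ℝ] (Fin 2 → ℝ)) :=
    Set.range (fun s : {s // s ∈ Tr (Dk 2 k) N φ} => A s.1 s.2) ∪
      {AffineMap.id ℝ (Fin 2 → ℝ)} with hS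
  have hfin : S.Finite := (Set.finite_range _).union (Set.finite_singleton _)
  have hcont : Continuous (fun y => G⁻¹ y) := hG.2.1.1
  refine lip_of_sel hcont hfin ?_ (by linarith) ?_
  · intro y
    obtain ⟨x, hx⟩ : ∃ x, x = G⁻¹ y := ⟨_, rfl⟩
    have hGx : G x = y := by
      rw [hx]
      exact Equiv.apply_symm_apply G y
    by_cases hxD : x ∈ Dk 2 k
    · obtain ⟨y', _, _, hs, hsub⟩ := gen_pt hT hxD isOpen_univ (Set.mem_univ x)
      refine ⟨A _ hs, Or.inl ⟨⟨_, hs⟩, rfl⟩, ?_⟩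
      show G⁻¹ y = A _ hs y
      rw [← hx, ← hGx, hR.1 x hxD, HatAd.aff_sum _ N (fun v => φ v x) P (hT.sum_one x hxD)]
      rw [← hT.bary x hxD]
      refine Finset.sum_congr rfl fun v hv => ?_
      rw [hT.bary x hxD]
      by_cases h0 : φ v x = 0
      · rw [h0, zero_smul, zero_smul]
      · rw [hA1 _ hs v (hsub (mem_Sp.mpr ⟨Finset.mem_range.mp hv, h0⟩))]
    · refine ⟨AffineMap.id ℝ (Fin 2 → ℝ), Or.inr rfl, ?_⟩
      show G⁻¹ y = y
      rw [← hx, ← hGx]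
      exact (hR.2 x hxD).symm
  · rintro a (⟨s, rfl⟩ | ha) u v
    · exact hA2 s.1 s.2 u v
    · rw [Set.mem_singleton_iff] at ha
      rw [ha]
      show ‖u - v‖ ≤ C * ‖u - v‖
      nlinarith [norm_nonneg (u - v)]

end PLH
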