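import Pool.Agent.Lib.MP_6a1069_gt.Tu.UBd

/-!
Lex: the upper bound for `scn` holds also for the lexicographic order given by harmonic positions,
ties broken by the true positions.
-/

namespace PLH

open Finset

private theorem adj_mem {V B : Finset ℕ} {T : Finset (Finset ℕ)} {p : ℕ → Fin 2 → ℝ}
    (h : TriData V B T p) {u v : ℕ} (ha : Adj T u v) : u ∈ V := by
  obtain ⟨_, s, hs, hu, _⟩ := ha
  exact h.sub s hs hu

/-- a neighbour below forces a neighbour above -/
private theorem avg_up {V B : Finset ℕ} {T : Finset (Finset ℕ)} {p P : ℕ → Fin 2 → ℝ}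
    {w : ℕ → ℕ → ℝ} (h : TriData V B T p) (hP : Harm V B T p P w) (l : (Fin 2 → ℝ) →ₗ[ℝ] ℝ)
    {v : ℕ} (hv : v ∈ V) (hvB : v ∉ B) {u : ℕ} (hu : Adj T u v) (hlt : l (P u) < l (P v)) :
    ∃ u', Adj T u' v ∧ l (P v) < l (P u') := by
  by_contra hcon
  have hle : ∀ u' ∈ V, Adj T u' v → l (P u') ≤ l (P v) := by
    intro u' _ ha
    by_contra hh
    exact hcon ⟨u', ha, not_le.mp hh⟩
  have h1 : ∑ x ∈ V, w v x * (l (P v) - l (P x)) = 0 := by
    have e1 : l (P v) = ∑ x ∈ V, w v x * l (P x) := by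
      conv_lhs => rw [hP.eq v hv hvB]
      rw [map_sum]
      exact Finset.sum_congr rfl fun x _ => by rw [map_smul, smul_eq_mul]
    have e2 : ∑ x ∈ V, w v x * (l (P v) - l (P x)) =
        (∑ x ∈ V, w v x) * l (P v) - ∑ x ∈ V, w v x * l (P x) := by
      rw [Finset.sum_mul, ← Finset.sum_sub_distrib]
      exact Finset.sum_congr rfl fun x _ => by ring
    rw [e2, hP.wts.sum v hv hvB, ← e1]
    ring
  have hnn : ∀ x ∈ V, 0 ≤ w v x * (l (P v) - l (P x)) := by
    intro x hx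
    by_cases hax : Adj T x v
    · exact mul_nonneg (hP.wts.nn v hv hvB x) (sub_nonneg.mpr (hle x hx hax))
    · have h0 : ¬ 0 < w v x := fun h0 => hax ((hP.wts.adj v hv hvB x hx).mp h0)
      have h2 : w v x = 0 := le_antisymm (not_lt.mp h0) (hP.wts.nn v hv hvB x)
      rw [h2, zero_mul]
  have huV := adj_mem h hu
  have h3 := (Finset.sum_eq_zero_iff_of_nonneg hnn).mp h1 u huV
  have h4 : 0 < w v u * (l (P v) - l (P u)) :=
    mul_pos ((hP.wts.adj v hv hvB u huV).mpr hu) (sub_pos.mpr hlt)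
  exact h4.ne' h3

/-- interior vertices have a larger neighbour -/
private theorem ex_up {V B : Finset ℕ} {T : Finset (Finset ℕ)} {p P : ℕ → Fin 2 → ℝ}
    {w : ℕ → ℕ → ℝ} (h : TriData V B T p) (hP : Harm V B T p P w)
    (l m : (Fin 2 → ℝ) →ₗ[ℝ] ℝ) (hm0 : m ≠ 0) {v : ℕ} (hv : v ∈ V) (hvB : v ∉ B) :
    ∃ u, Adj T u v ∧ toLex (l (P v), m (p v)) < toLex (l (P u), m (p u)) := by
  by_cases hex : ∃ u, Adj T u v ∧ l (P v) < l (P u)
  · obtain ⟨u, hu, hlt⟩ := hex
    exact ⟨u, hu, Prod.Lex.toLex_lt_toLex.mpr (Or.inl hlt)⟩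
  · obtain ⟨u, hu, hlt⟩ := h.inter v hv hvB m hm0
    refine ⟨u, hu, Prod.Lex.toLex_lt_toLex.mpr (Or.inr ⟨?_, hlt⟩)⟩
    refine le_antisymm ?_ ?_
    · by_contra hh
      exact hex (avg_up h hP l hv hvB hu (not_le.mp hh))
    · by_contra hh
      exact hex ⟨u, hu, not_le.mp hh⟩

private theorem lex_neg {a b c d : ℝ} (h : toLex (-a, -b) < toLex (-c, -d)) :
    toLex (c, d) < toLex (a, b) := by
  rw [Prod.Lex.toLex_lt_toLex] at h ⊢
  simp only at h ⊢
  rcases h with h | ⟨h1, h2⟩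
  · left; linarith
  · right; exact ⟨by linarith, by linarith⟩

private theorem indep_neg {l m : (Fin 2 → ℝ) →ₗ[ℝ] ℝ} (hlm : LinearIndependent ℝ ![l, m]) :
    LinearIndependent ℝ ![-l, -m] := by
  rw [LinearIndependent.pair_iff] at hlm ⊢
  intro s t hst
  have h1 : (-s) • l + (-t) • m = 0 := by
    rw [← hst]
    ext x
    simp only [LinearMap.add_apply, LinearMap.smul_apply, LinearMap.neg_apply, LinearMap.comp_apply,
      smul_eq_mul]
    ring
  obtain ⟨h2, h3⟩ := hlm _ _ h1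
  exact ⟨neg_eq_zero.mp h2, neg_eq_zero.mp h3⟩

theorem ub_lex {V B : Finset ℕ} {T : Finset (Finset ℕ)} {p P : ℕ → Fin 2 → ℝ} {w : ℕ → ℕ → ℝ}
    (h : TriData V B T p) (hP : Harm V B T p P w) {l m : (Fin 2 → ℝ) →ₗ[ℝ] ℝ}
    (hlm : LinearIndependent ℝ ![l, m])
    (hm : ∀ u ∈ V, ∀ v ∈ V, m (p u) = m (p v) → u = v) :
    ∀ v ∈ V, scn T (fun u => toLex (l (P u), m (p u))) v ≤ if v ∈ B then 1 else 2 := by
  classical
  have hinj : ∀ u ∈ V, ∀ v ∈ V, (fun u => toLex (l (P u), m (p u))) u =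
      (fun u => toLex (l (P u), m (p u))) v → u = v := by
    intro u hu v hv e
    have e2 := congrArg (fun z => (ofLex z).2) e
    exact hm u hu v hv e2
  have hm0 : m ≠ 0 := hlm.ne_zero 1
  have hm0' : -m ≠ 0 := neg_ne_zero.mpr hm0
  obtain ⟨cp, hcp, Hp⟩ := h.bdry l m hlm
  obtain ⟨cm, hcm, Hm⟩ := h.bdry (-l) (-m) (indep_neg hlm)
  have cut : ∀ v ∈ V,
      (∃ u, Adj T u v ∧ toLex (l (P v), m (p v)) < toLex (l (P u), m (p u))) →
      (∃ u, Adj T u v ∧ toLex (l (P u), m (p u)) < toLex (l (P v), m (p v))) →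
      (if v ∈ B then 1 else 2) ≤ scn T (fun u => toLex (l (P u), m (p u))) v := by
    intro v hv h1 h2
    rw [scn_eq_cutn h.sub h.card (fun u => toLex (l (P u), m (p u))) hinj hv]
    refine h.cut v hv _ ?_ ?_
    · obtain ⟨u, hu, hlt⟩ := h1
      exact ⟨u, hlt, hu⟩
    · obtain ⟨u, hu, hlt⟩ := h2
      exact ⟨u, fun hh => lt_asymm hlt hh, hu⟩
  have key : ∀ v ∈ V, (if v ∈ B then 1 else 2) ≤
      scn T (fun u => toLex (l (P u), m (p u))) v +
        ((if v = cp then 1 else 0) + (if v = cm then 1 else 0)) := by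
    intro v hv
    by_cases hvB : v ∈ B
    · by_cases h1 : v = cp
      · rw [if_pos hvB, if_pos h1]; omega
      · by_cases h2 : v = cm
        · rw [if_pos hvB, if_pos h2]; omega
        · refine le_trans (cut v hv ?_ ?_) (Nat.le_add_right _ _)
          · obtain ⟨u, huB, hu, hlt⟩ := Hp v hvB h1
            refine ⟨u, hu, ?_⟩
            rw [hP.bd v hvB, hP.bd u huB]
            exact hlt
          · obtain ⟨u, huB, hu, hlt⟩ := Hm v hvB h2
            refine ⟨u, hu, ?_⟩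
            rw [hP.bd v hvB, hP.bd u huB]
            exact lex_neg (by simpa using hlt)
    · refine le_trans (cut v hv ?_ ?_) (Nat.le_add_right _ _)
      · exact ex_up h hP l m hm0 hv hvB
      · obtain ⟨u, hu, hlt⟩ := ex_up h hP (-l) (-m) hm0' hv hvB
        exact ⟨u, hu, lex_neg (by simpa using hlt)⟩
  have hsum1 : ∑ v ∈ V, (if v ∈ B then 1 else 2) = 2 * (V \ B).card + B.card := by
    rw [← Finset.sum_sdiff h.bsub]
    have e1 : ∑ v ∈ V \ B, (if v ∈ B then 1 else 2) = (V \ B).card * 2 := by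
      rw [← smul_eq_mul, ← Finset.sum_const]
      refine Finset.sum_congr rfl fun x hx => ?_
      rw [if_neg (Finset.mem_sdiff.mp hx).2]
    have e2 : ∑ v ∈ B, (if v ∈ B then 1 else 2) = B.card * 1 := by
      rw [← smul_eq_mul, ← Finset.sum_const]
      refine Finset.sum_congr rfl fun x hx => ?_
      rw [if_pos hx]
    rw [e1, e2]
    ring
  have hsum2 : ∑ v ∈ V, (scn T (fun u => toLex (l (P u), m (p u))) v +
        ((if v = cp then 1 else 0) + (if v = cm then 1 else 0))) = T.card + 2 := by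
    rw [Finset.sum_add_distrib, Finset.sum_add_distrib,
      scn_sum h.sub h.card (fun u => toLex (l (P u), m (p u))) hinj,
      Finset.sum_ite_eq' V cp (fun _ => 1), Finset.sum_ite_eq' V cm (fun _ => 1),
      if_pos (h.bsub hcp), if_pos (h.bsub hcm)]
  have hle := Finset.sum_le_sum key
  have heq : ∑ v ∈ V, (if v ∈ B then 1 else 2) =
      ∑ v ∈ V, (scn T (fun u => toLex (l (P u), m (p u))) v +
        ((if v = cp then 1 else 0) + (if v = cm then 1 else 0))) := by
    refine le_antisymm hle ?_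
    rw [hsum1, hsum2]
    exact card_T_le h
  intro v hv
  have := (Finset.sum_eq_sum_iff_of_le key).mp heq v hv
  rw [this]
  exact Nat.le_add_right _ _

end PLH
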