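import Pool.Agent.Lib.MP_6a1069_gt.Tu.TD

/-!
MaxP: the maximum principle.
PROOF.  It is enough to show `x v ≤ 0` on `V` (apply it to `-x` too).  Let `M` be the maximum of `x` on `V`
(if `V` is empty nothing to do) and among the `v ∈ V` with `x v = M` take one with maximal `m (p v)`, `m` =
first coordinate.  If `v ∉ B`: `M = x v = ∑ w v u * x u` with `x u ≤ M`, sum of weights one, so `x u = M` for
all neighbours (positive weight); `h.inter` gives a neighbour with larger `m (p u)`, contradiction.  So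
`v ∈ B` and `M = x v = 0`.
-/

namespace PLH

open Finset

private theorem max_aux {V B : Finset ℕ} {T : Finset (Finset ℕ)} {p : ℕ → Fin 2 → ℝ}
    (h : TriData V B T p) {w : ℕ → ℕ → ℝ} (hw : Wts V B T w) {x : ℕ → ℝ}
    (hb : ∀ v ∈ B, x v = 0) (he : ∀ v ∈ V, v ∉ B → x v = ∑ u ∈ V, w v u * x u) :
    ∀ v ∈ V, x v ≤ 0 := by
  intro v₀ hv₀
  obtain ⟨v, hv, hmax⟩ := Finset.exists_max_image V (fun v => toLex (x v, p v 0)) ⟨v₀, hv₀⟩
  have hx : ∀ u ∈ V, x u ≤ x v := by
    intro u hu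
    rcases Prod.Lex.toLex_le_toLex.1 (hmax u hu) with h1 | h1
    · exact h1.le
    · exact h1.1.le
  by_cases hvB : v ∈ B
  · exact (hx v₀ hv₀).trans (hb v hvB).le
  exfalso
  have h1 : ∑ u ∈ V, w v u * (x v - x u) = 0 := by
    have h2 : ∑ u ∈ V, w v u * (x v - x u) = (∑ u ∈ V, w v u) * x v - ∑ u ∈ V, w v u * x u := by
      rw [Finset.sum_mul, ← Finset.sum_sub_distrib]
      exact Finset.sum_congr rfl fun u _ => by ring
    rw [h2, hw.sum v hv hvB, ← he v hv hvB]
    ring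
  have h3 : ∀ u ∈ V, w v u * (x v - x u) = 0 :=
    (Finset.sum_eq_zero_iff_of_nonneg fun u hu =>
      mul_nonneg (hw.nn v hv hvB u) (sub_nonneg.2 (hx u hu))).1 h1
  have hm : (LinearMap.proj 0 : (Fin 2 → ℝ) →ₗ[ℝ] ℝ) ≠ 0 := by
    intro h4
    have h5 := LinearMap.congr_fun h4 (fun _ => (1 : ℝ))
    simp at h5
  obtain ⟨u, hu, hlt⟩ := h.inter v hv hvB (LinearMap.proj 0) hm
  have huV : u ∈ V := by
    obtain ⟨-, s, hs, hus, -⟩ := hu
    exact h.sub s hs hus
  have hwu : 0 < w v u := (hw.adj v hv hvB u huV).2 hu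
  have hxu : x v = x u := by
    rcases mul_eq_zero.1 (h3 u huV) with h4 | h4
    · exact absurd h4 hwu.ne'
    · linarith
  have h5 := hmax u huV
  rcases Prod.Lex.toLex_le_toLex.1 h5 with h6 | h6
  · simp only at h6
    linarith
  · simp only [LinearMap.proj_apply] at h6 hlt
    linarith [h6.2]

theorem max_principle {V B : Finset ℕ} {T : Finset (Finset ℕ)} {p : ℕ → Fin 2 → ℝ}
    (h : TriData V B T p) {w : ℕ → ℕ → ℝ} (hw : Wts V B T w) {x : ℕ → ℝ}
    (hb : ∀ v ∈ B, x v = 0) (he : ∀ v ∈ V, v ∉ B → x v = ∑ u ∈ V, w v u * x u) :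
    ∀ v ∈ V, x v = 0 := by
  intro v hv
  have h1 := max_aux h hw hb he v hv
  have h2 := max_aux h hw (x := fun u => -x u) (fun u hu => by simp [hb u hu])
    (fun u hu huB => by
      have h3 : ∑ k ∈ V, w u k * -x k = -∑ k ∈ V, w u k * x k := by
        rw [← Finset.sum_neg_distrib]
        exact Finset.sum_congr rfl fun k _ => by ring
      rw [h3, ← he u hu huB]) v hv
  linarith

end PLH
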