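import Mathlib

/-!
Solve: continuous solutions of linear systems.
PROOF.  `A t` is invertible for `t ∈ [0,1]`: `Matrix.mulVec` injective, so `det ≠ 0`
(`Matrix.exists_mulVec_eq_zero_iff`: `(∃ v ≠ 0, M *ᵥ v = 0) ↔ M.det = 0`).  Put `X t = (A t)⁻¹ *ᵥ b`.
`(A t)⁻¹ = (det (A t))⁻¹ • adjugate (A t)` (`Matrix.inv_def`, `Ring.inverse_eq_inv'`) is continuous on
`[0,1]`: `Continuous.matrix_det`, `Continuous.matrix_adjugate`, `ContinuousOn.inv₀`.
`A t *ᵥ X t = b`: `Matrix.mul_nonsing_inv`.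
-/

namespace PLH


theorem solve_cont {N : ℕ} (A : ℝ → Matrix (Fin N) (Fin N) ℝ) (hA : Continuous A)
    (hi : ∀ t ∈ Set.Icc (0 : ℝ) 1, ∀ x : Fin N → ℝ, (A t).mulVec x = 0 → x = 0)
    (b : Fin N → ℝ) : ∃ X : ℝ → Fin N → ℝ, ContinuousOn X (Set.Icc 0 1) ∧
      ∀ t ∈ Set.Icc (0 : ℝ) 1, (A t).mulVec (X t) = b := by
  have hdet : ∀ t ∈ Set.Icc (0 : ℝ) 1, (A t).det ≠ 0 := by
    intro t ht h0
    obtain ⟨v, hv, hv0⟩ := Matrix.exists_mulVec_eq_zero_iff.2 h0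
    exact hv (hi t ht v hv0)
  refine ⟨fun t => ((A t).det)⁻¹ • ((A t).adjugate).mulVec b, ?_, ?_⟩
  · have h1 : Continuous fun t => (A t).det := hA.matrix_det
    have h2 : Continuous fun t => ((A t).adjugate).mulVec b :=
      hA.matrix_adjugate.matrix_mulVec continuous_const
    exact (h1.continuousOn.inv₀ hdet).smul h2.continuousOn
  · intro t ht
    rw [Matrix.mulVec_smul, Matrix.mulVec_mulVec, Matrix.mul_adjugate, Matrix.smul_mulVec,
      Matrix.one_mulVec, smul_smul, inv_mul_cancel₀ (hdet t ht), one_smul]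

end PLH
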