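import Pool.Agent.Lib.MP_6a1069_gt.Tu.MaxP
import Pool.Agent.Lib.MP_6a1069_gt.Tu.Solve

/-!
Path: the path of harmonic positions.
PROOF.  `w t v u = (1 - t) * wp v u + t * wq v u`, for `t ∈ [0,1]` again `Wts V B T` (positive iff `Adj`).
Choose `N` with `V ⊆ range N` (`N = V.sup id + 1`).  `A t : Matrix (Fin N) (Fin N) ℝ`,
`A t v u = (if v = u then 1 else 0) - (if v ∈ V \ B ∧ u ∈ V then w t v u else 0)`: continuous in `t` (entries
are affine functions of `t`).  `A t *ᵥ x = 0` means (extend `x` to `ℕ` by `0`): `x v = 0` for `v ∉ V \ B` and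
`x v = ∑_{u ∈ V} w t v u * x u` for `v ∈ V \ B` (sum over `Fin N` of an indicator of `V`), so `x = 0` by
`max_principle` (outside `V` it is `0` by the first equation).  For the coordinate `i = 0, 1` apply
`solve_cont` with `b v = if v ∈ V \ B then 0 else p v i` to get `X i`, and `P t v i = X i t v` for `v < N`
(`p v i` for `v ≥ N`).  Then `Harm V B T p (P t) (w t)` for `t ∈ [0,1]`: `bd` from the row `v ∈ B`, `eq` from
the row `v ∈ V \ B`.  Uniqueness (`max_principle` for `P 0 v i - p v i` with the weights `w 0 = wp`, using `hp`;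
at `t = 1`: `P 1 v i - q v i`, weights `wq`, `hq`): `P 0 = p`, `P 1 = q` on `V`.
-/

namespace PLH

open Finset

private lemma Path_wts {V B : Finset ℕ} {T : Finset (Finset ℕ)} {wp wq : ℕ → ℕ → ℝ}
    (hp : Wts V B T wp) (hq : Wts V B T wq) {t : ℝ} (ht : t ∈ Set.Icc (0 : ℝ) 1) :
    Wts V B T (fun v u => (1 - t) * wp v u + t * wq v u) := by
  obtain ⟨ht0, ht1⟩ := ht
  refine ⟨?_, ?_, ?_⟩
  · intro v hv hb u
    have h1 := hp.nn v hv hb u
    have h2 := hq.nn v hv hb u
    have h3 := mul_nonneg (sub_nonneg.2 ht1) h1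
    have h4 := mul_nonneg ht0 h2
    show 0 ≤ (1 - t) * wp v u + t * wq v u
    linarith
  · intro v hv hb u hu
    have a1 := hp.adj v hv hb u hu
    have a2 := hq.adj v hv hb u hu
    have n1 := hp.nn v hv hb u
    have n2 := hq.nn v hv hb u
    show 0 < (1 - t) * wp v u + t * wq v u ↔ Adj T u v
    constructor
    · intro h
      by_contra hA
      have z1 : wp v u = 0 := le_antisymm (not_lt.1 fun h' => hA (a1.1 h')) n1
      have z2 : wq v u = 0 := le_antisymm (not_lt.1 fun h' => hA (a2.1 h')) n2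
      rw [z1, z2, mul_zero, mul_zero, add_zero] at h
      exact lt_irrefl _ h
    · intro hA
      have p1 := a1.2 hA
      have p2 := a2.2 hA
      rcases lt_or_eq_of_le ht1 with h | h
      · have h3 := mul_pos (sub_pos.2 h) p1
        have h4 := mul_nonneg ht0 n2
        linarith
      · rw [h]
        linarith
  · intro v hv hb
    show ∑ u ∈ V, ((1 - t) * wp v u + t * wq v u) = 1
    rw [Finset.sum_add_distrib, ← Finset.mul_sum, ← Finset.mul_sum, hp.sum v hv hb,
      hq.sum v hv hb]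
    ring

/-- the matrix of the system -/
private noncomputable def PathA (N : ℕ) (V B : Finset ℕ) (w : ℕ → ℕ → ℝ) :
    Matrix (Fin N) (Fin N) ℝ :=
  Matrix.of fun v u => (if v = u then 1 else 0) -
    (if ((v : ℕ) ∈ V \ B ∧ (u : ℕ) ∈ V) then w v u else 0)

private lemma Path_row {N : ℕ} {V B : Finset ℕ} (w : ℕ → ℕ → ℝ) (hV : ∀ v ∈ V, v < N)
    (y : ℕ → ℝ) (v : Fin N) :
    (PathA N V B w).mulVec (fun u => y u) v =
      y v - if (v : ℕ) ∈ V \ B then ∑ u ∈ V, w v u * y u else 0 := by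
  have e1 : (PathA N V B w).mulVec (fun u => y u) v =
      ∑ u : Fin N, ((if v = u then 1 else 0) * y u -
        (if ((v : ℕ) ∈ V \ B ∧ (u : ℕ) ∈ V) then w v u else 0) * y u) := by
    unfold Matrix.mulVec dotProduct PathA
    refine Finset.sum_congr rfl fun u _ => ?_
    exact sub_mul _ _ _
  rw [e1, Finset.sum_sub_distrib]
  have e2 : ∑ u : Fin N, (if v = u then (1 : ℝ) else 0) * y u = y v := by
    rw [Finset.sum_eq_single v]
    · rw [if_pos rfl, one_mul]
    · intro u _ hu
      rw [if_neg (fun h => hu h.symm), zero_mul]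
    · intro h
      exact absurd (Finset.mem_univ v) h
  have e3 : ∑ u : Fin N, (if ((v : ℕ) ∈ V \ B ∧ (u : ℕ) ∈ V) then w v u else 0) * y u =
      ∑ n ∈ range N, (if ((v : ℕ) ∈ V \ B ∧ n ∈ V) then w v n else 0) * y n :=
    Fin.sum_univ_eq_sum_range
      (fun n => (if ((v : ℕ) ∈ V \ B ∧ n ∈ V) then w v n else 0) * y n) N
  rw [e2, e3]
  congr 1
  by_cases hvB : (v : ℕ) ∈ V \ B
  · rw [if_pos hvB]
    have hsub : V ⊆ range N := fun n hn => Finset.mem_range.2 (hV n hn)
    rw [← Finset.sum_subset hsub]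
    · refine Finset.sum_congr rfl fun n hn => ?_
      rw [if_pos ⟨hvB, hn⟩]
    · intro n _ hn
      rw [if_neg (fun h => hn h.2), zero_mul]
  · rw [if_neg hvB]
    refine Finset.sum_eq_zero fun n _ => ?_
    rw [if_neg (fun h => hvB h.1), zero_mul]

private lemma Path_fun {N : ℕ} (x : Fin N → ℝ) :
    x = fun u : Fin N => (fun n : ℕ => if h : n < N then x ⟨n, h⟩ else 0) (u : ℕ) := by
  funext u
  show x u = if h : (u : ℕ) < N then x ⟨u, h⟩ else 0
  rw [dif_pos u.2]

theorem exists_path {V B : Finset ℕ} {T : Finset (Finset ℕ)} {p q : ℕ → Fin 2 → ℝ}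
    {wp wq : ℕ → ℕ → ℝ} (h : TriData V B T p) (hp : Harm V B T p p wp)
    (hq : Harm V B T p q wq) : ∃ (P : ℝ → ℕ → Fin 2 → ℝ) (w : ℝ → ℕ → ℕ → ℝ),
      (∀ v ∈ V, ContinuousOn (fun t => P t v) (Set.Icc 0 1)) ∧
      (∀ t ∈ Set.Icc (0 : ℝ) 1, Harm V B T p (P t) (w t)) ∧
      (∀ v ∈ V, P 0 v = p v) ∧ ∀ v ∈ V, P 1 v = q v := by
  set N : ℕ := V.sup id + 1 with hN
  have hVN : ∀ v ∈ V, v < N := fun v hv => Nat.lt_succ_of_le (Finset.le_sup (f := id) hv)
  set w : ℝ → ℕ → ℕ → ℝ := fun t v u => (1 - t) * wp v u + t * wq v u with hw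
  have hwts : ∀ t ∈ Set.Icc (0 : ℝ) 1, Wts V B T (w t) := fun t ht =>
    Path_wts hp.wts hq.wts ht
  set A : ℝ → Matrix (Fin N) (Fin N) ℝ := fun t => PathA N V B (w t) with hA
  have hAc : Continuous A := by
    apply continuous_matrix
    intro i j
    have e : (fun t => A t i j) = fun t => (if i = j then (1 : ℝ) else 0) -
        (if ((i : ℕ) ∈ V \ B ∧ (j : ℕ) ∈ V) then (1 - t) * wp i j + t * wq i j else 0) := by
      funext t
      rfl
    rw [e]
    by_cases hc : (i : ℕ) ∈ V \ B ∧ (j : ℕ) ∈ V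
    · simp only [if_pos hc]
      fun_prop
    · simp only [if_neg hc]
      exact continuous_const
  have hinj : ∀ t ∈ Set.Icc (0 : ℝ) 1, ∀ x : Fin N → ℝ, (A t).mulVec x = 0 → x = 0 := by
    intro t ht x hx
    set y : ℕ → ℝ := fun n : ℕ => if h : n < N then x ⟨n, h⟩ else 0 with hy
    have hxy : x = fun u : Fin N => y u := Path_fun x
    have hrow : ∀ v : Fin N, y v - (if (v : ℕ) ∈ V \ B then ∑ u ∈ V, w t v u * y u else 0) = 0 := by
      intro v
      rw [← Path_row (B := B) (w t) hVN y v, ← hxy]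
      exact congrFun hx v
    have hb : ∀ v ∈ B, y v = 0 := by
      intro v hv
      have h1 := hrow ⟨v, hVN v (h.bsub hv)⟩
      rw [if_neg (fun h' => (Finset.mem_sdiff.1 h').2 hv), sub_zero] at h1
      exact h1
    have he : ∀ v ∈ V, v ∉ B → y v = ∑ u ∈ V, w t v u * y u := by
      intro v hv hvB
      have h1 := hrow ⟨v, hVN v hv⟩
      rw [if_pos (Finset.mem_sdiff.2 ⟨hv, hvB⟩)] at h1
      exact sub_eq_zero.1 h1
    have hz := max_principle h (hwts t ht) hb he
    funext v
    have hv0 : x v = y v := congrFun hxy v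
    rw [hv0, Pi.zero_apply]
    by_cases hv : (v : ℕ) ∈ V
    · exact hz v hv
    · have h1 := hrow v
      rw [if_neg (fun h' => hv (Finset.mem_sdiff.1 h').1), sub_zero] at h1
      exact h1
  have hsol := fun i : Fin 2 => solve_cont A hAc hinj
    (fun v : Fin N => if (v : ℕ) ∈ V \ B then 0 else p v i)
  choose X hXc hX using hsol
  set P : ℝ → ℕ → Fin 2 → ℝ := fun t v i => if hv : v < N then X i t ⟨v, hv⟩ else p v i with hP
  have hrowP : ∀ t ∈ Set.Icc (0 : ℝ) 1, ∀ i : Fin 2, ∀ v : ℕ, v < N →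
      P t v i - (if v ∈ V \ B then ∑ u ∈ V, w t v u * P t u i else 0) =
        if v ∈ V \ B then 0 else p v i := by
    intro t ht i v hv
    have e1 : X i t = fun u : Fin N => (fun n => P t n i) (u : ℕ) := by
      funext u
      show X i t u = if hv : (u : ℕ) < N then X i t ⟨u, hv⟩ else p u i
      rw [dif_pos u.2]
    have h1 := congrFun (hX i t ht) ⟨v, hv⟩
    have h2 := Path_row (B := B) (w t) hVN (fun n => P t n i) ⟨v, hv⟩
    rw [← e1] at h2
    rw [← h2]
    exact h1
  have hbd : ∀ t ∈ Set.Icc (0 : ℝ) 1, ∀ v ∈ B, P t v = p v := by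
    intro t ht v hv
    funext i
    have h1 := hrowP t ht i v (hVN v (h.bsub hv))
    have h2 : v ∉ V \ B := fun h' => (Finset.mem_sdiff.1 h').2 hv
    rw [if_neg h2, if_neg h2, sub_zero] at h1
    exact h1
  have heq : ∀ t ∈ Set.Icc (0 : ℝ) 1, ∀ i : Fin 2, ∀ v ∈ V, v ∉ B →
      P t v i = ∑ u ∈ V, w t v u * P t u i := by
    intro t ht i v hv hvB
    have h1 := hrowP t ht i v (hVN v hv)
    have h2 : v ∈ V \ B := Finset.mem_sdiff.2 ⟨hv, hvB⟩
    rw [if_pos h2, if_pos h2] at h1
    exact sub_eq_zero.1 h1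
  have hzero : (0 : ℝ) ∈ Set.Icc (0 : ℝ) 1 := ⟨le_rfl, zero_le_one⟩
  have hone : (1 : ℝ) ∈ Set.Icc (0 : ℝ) 1 := ⟨zero_le_one, le_rfl⟩
  refine ⟨P, w, ?_, ?_, ?_, ?_⟩
  · intro v hv
    rw [continuousOn_pi]
    intro i
    have e : (fun t => P t v i) = fun t => X i t ⟨v, hVN v hv⟩ := by
      funext t
      show (if hv : v < N then X i t ⟨v, hv⟩ else p v i) = _
      rw [dif_pos (hVN v hv)]
    rw [e]
    exact (continuousOn_pi.1 (hXc i)) ⟨v, hVN v hv⟩
  · intro t ht
    refine ⟨hwts t ht, hbd t ht, ?_⟩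
    intro v hv hvB
    funext i
    rw [Finset.sum_apply, heq t ht i v hv hvB]
    rfl
  · intro v hv
    funext i
    have h1 := max_principle h hp.wts (x := fun u => P 0 u i - p u i) ?_ ?_ v hv
    · exact sub_eq_zero.1 h1
    · intro u hu
      show P 0 u i - p u i = 0
      rw [hbd 0 hzero u hu, sub_self]
    · intro u hu huB
      show P 0 u i - p u i = ∑ x ∈ V, wp u x * (P 0 x i - p x i)
      have h2 := heq 0 hzero i u hu huB
      have h3 : p u i = ∑ x ∈ V, wp u x * p x i := by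
        have := congrFun (hp.eq u hu huB) i
        rw [Finset.sum_apply] at this
        exact this
      have h4 : ∀ x, w 0 u x = wp u x := by
        intro x
        show (1 - 0) * wp u x + 0 * wq u x = wp u x
        ring
      simp only [h4] at h2
      simp only [mul_sub]
      rw [Finset.sum_sub_distrib, ← h2, ← h3]
  · intro v hv
    funext i
    have h1 := max_principle h hq.wts (x := fun u => P 1 u i - q u i) ?_ ?_ v hv
    · exact sub_eq_zero.1 h1
    · intro u hu
      show P 1 u i - q u i = 0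
      rw [hbd 1 hone u hu, hq.bd u hu, sub_self]
    · intro u hu huB
      show P 1 u i - q u i = ∑ x ∈ V, wq u x * (P 1 x i - q x i)
      have h2 := heq 1 hone i u hu huB
      have h3 : q u i = ∑ x ∈ V, wq u x * q x i := by
        have := congrFun (hq.eq u hu huB) i
        rw [Finset.sum_apply] at this
        exact this
      have h4 : ∀ x, w 1 u x = wq u x := by
        intro x
        show (1 - 1) * wp u x + 1 * wq u x = wq u x
        ring
      simp only [h4] at h2
      simp only [mul_sub]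
      rw [Finset.sum_sub_distrib, ← h2, ← h3]

end PLH
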