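import Pool.Agent.Lib.MP_6a1069_gt.Tu.TD

/-!
SMv: `small_move` (file `HatExt`) with an explicit bound.
PROOF.  Copy the proof of `small_move`: there `K = ∑ C v` is the Lipschitz constant, here take
`K = N * C`, `δ = 1 / (2 * (K + 1) * (n + 1))`.
-/

namespace PLH

open Finset

theorem small_move_lip {n N : ℕ} (ψ : ℕ → (Fin n → ℝ) → ℝ) (hψ : ∀ v < N, IsPL (ψ v)) (R : ℝ)
    (hR : ∀ v < N, ∀ x, R < ‖x‖ → ψ v x = 0) {C : ℝ} (hC0 : 0 ≤ C)
    (hC : ∀ v < N, ∀ x y, ‖ψ v x - ψ v y‖ ≤ C * ‖x - y‖) :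
    ∀ u : ℕ → (Fin n → ℝ), (∀ v < N, ‖u v‖ < 1 / (2 * (N * C + 1) * (n + 1))) →
      ∃ H ∈ ⁅PLc (Fin n → ℝ), PLc (Fin n → ℝ)⁆, ∀ x,
        H x = x + ∑ v ∈ Finset.range N, ψ v x • u v := by
  intro u hu
  set K : ℝ := N * C with hK
  have hK0 : 0 ≤ K := mul_nonneg (Nat.cast_nonneg N) hC0
  set δ : ℝ := 1 / (2 * (K + 1) * (n + 1)) with hδ
  have hδ0 : 0 < δ := by positivity
  set g : (Fin n → ℝ) → (Fin n → ℝ) := fun x => x + ∑ v ∈ Finset.range N, ψ v x • u v with hg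
  have hgPL : IsPL g := IsPL.id.add (IsPL.sum_smul N ψ hψ u)
  have hgR : ∀ x, R < ‖x‖ → g x = x := by
    intro x hx
    rw [hg]
    simp only
    rw [Finset.sum_eq_zero, add_zero]
    intro v hv
    rw [hR v (Finset.mem_range.mp hv) x hx, zero_smul]
  have hlip1 : ∀ x y, ‖(g x - x) - (g y - y)‖ ≤ (K * δ) * ‖x - y‖ := by
    intro x y
    have e1 : (g x - x) - (g y - y) = ∑ v ∈ Finset.range N, (ψ v x - ψ v y) • u v := by
      simp only [hg, add_sub_cancel_left, sub_smul, Finset.sum_sub_distrib]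
    rw [e1]
    calc ‖∑ v ∈ Finset.range N, (ψ v x - ψ v y) • u v‖
        ≤ ∑ v ∈ Finset.range N, ‖(ψ v x - ψ v y) • u v‖ := norm_sum_le _ _
      _ ≤ ∑ v ∈ Finset.range N, C * (δ * ‖x - y‖) := by
          refine Finset.sum_le_sum fun v hv => ?_
          have hv' := Finset.mem_range.mp hv
          rw [norm_smul]
          calc ‖ψ v x - ψ v y‖ * ‖u v‖ ≤ (C * ‖x - y‖) * δ :=
                mul_le_mul (hC v hv' x y) (hu v hv').le (norm_nonneg _)
                  (mul_nonneg hC0 (norm_nonneg _))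
            _ = C * (δ * ‖x - y‖) := by ring
      _ = (K * δ) * ‖x - y‖ := by
          rw [Finset.sum_const, Finset.card_range, nsmul_eq_mul, hK]
          ring
  have hKδ : K * δ ≤ 1 / (2 * (n + 1)) := by
    rw [hδ, mul_one_div, div_le_div_iff₀ (by positivity) (by positivity)]
    have : (0 : ℝ) ≤ n := by positivity
    nlinarith
  have hKδ0 : 0 ≤ K * δ := mul_nonneg hK0 hδ0.le
  have hn0 : (0 : ℝ) ≤ n := by positivity
  have hhalf : 1 / (2 * ((n : ℝ) + 1)) ≤ 1 / 2 := by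
    apply one_div_le_one_div_of_le (by norm_num)
    linarith
  obtain ⟨G, hG, hGg⟩ := perturb g hgPL R hgR (K * δ) hKδ0 (by linarith) hlip1
  have hsq : ∀ x y, ∑ i, ((g x i - x i) - (g y i - y i)) ^ 2 ≤
      (1 / 2 : ℝ) ^ 2 * ∑ i, (x i - y i) ^ 2 := by
    intro x y
    have e0 : ‖x - y‖ ^ 2 ≤ ∑ i, (x i - y i) ^ 2 := by
      by_cases hn : n = 0
      · subst hn
        have : x - y = 0 := Subsingleton.elim _ _
        rw [this]
        simp
      · have : Nonempty (Fin n) := ⟨⟨0, Nat.pos_of_ne_zero hn⟩⟩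
        obtain ⟨i, -, hi⟩ := Finset.exists_max_image Finset.univ (fun i => |x i - y i|)
          Finset.univ_nonempty
        have e1 : ‖x - y‖ ≤ |x i - y i| := by
          rw [pi_norm_le_iff_of_nonneg (abs_nonneg _)]
          intro j
          exact hi j (Finset.mem_univ j)
        calc ‖x - y‖ ^ 2 ≤ |x i - y i| ^ 2 := pow_le_pow_left₀ (norm_nonneg _) e1 2
          _ = (x i - y i) ^ 2 := sq_abs _
          _ ≤ ∑ j, (x j - y j) ^ 2 :=
            Finset.single_le_sum (f := fun j => (x j - y j) ^ 2) (fun j _ => sq_nonneg _)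
              (Finset.mem_univ i)
    have e2 : ∀ i, ((g x i - x i) - (g y i - y i)) ^ 2 ≤ (1 / (2 * (n + 1)) * ‖x - y‖) ^ 2 := by
      intro i
      have e3 : |(g x i - x i) - (g y i - y i)| ≤ ‖(g x - x) - (g y - y)‖ :=
        norm_le_pi_norm ((g x - x) - (g y - y)) i
      have e4 : |(g x i - x i) - (g y i - y i)| ≤ 1 / (2 * (n + 1)) * ‖x - y‖ :=
        e3.trans ((hlip1 x y).trans (mul_le_mul_of_nonneg_right hKδ (norm_nonneg _)))
      rw [← sq_abs]
      exact pow_le_pow_left₀ (abs_nonneg _) e4 2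
    calc ∑ i, ((g x i - x i) - (g y i - y i)) ^ 2
        ≤ ∑ _i : Fin n, (1 / (2 * ((n : ℝ) + 1)) * ‖x - y‖) ^ 2 :=
          Finset.sum_le_sum fun i _ => e2 i
      _ = n * (1 / (2 * ((n : ℝ) + 1)) * ‖x - y‖) ^ 2 := by
          rw [Finset.sum_const, Finset.card_univ, Fintype.card_fin, nsmul_eq_mul]
      _ = (n / (n + 1) ^ 2) * ((1 / 2) ^ 2 * ‖x - y‖ ^ 2) := by
          field_simp
      _ ≤ 1 * ((1 / 2) ^ 2 * ‖x - y‖ ^ 2) := by
          refine mul_le_mul_of_nonneg_right ?_ (by positivity)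
          rw [div_le_one (by positivity)]
          nlinarith
      _ = (1 / 2) ^ 2 * ‖x - y‖ ^ 2 := one_mul _
      _ ≤ (1 / 2) ^ 2 * ∑ i, (x i - y i) ^ 2 :=
          mul_le_mul_of_nonneg_left e0 (by positivity)
  have hmono : ∀ x y, x ≠ y → 0 < ∑ i, (G x i - G y i) * (x i - y i) := by
    intro x y hxy
    have e1 := mono_of_lip (h := g) (ε := 1 / 2) (by norm_num) (by norm_num) hsq hxy
    rw [hGg, hGg]
    exact e1
  obtain ⟨L, -, hL, hLG⟩ := mono_prod hG hmono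
  refine ⟨G, ?_, fun x => by rw [hGg]⟩
  rw [hLG]
  refine Subgroup.list_prod_mem _ fun f hf => ?_
  obtain ⟨i, hi⟩ := hL f hf
  refine LPc_le_comm ?_ hi
  intro h0
  have := congrFun h0 i
  simp at this

end PLH
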