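import Pool.Agent.Lib.MP_6a1069_gt.Tu.Side
import Pool.Agent.Lib.MP_6a1069_gt.Tu.SMv

/-!
StepU: one uniform step.
PROOF.  `ext_int`: as `ext_PL` (file `HatExt`): `ψ x = if x ∈ Dk then φ v x else 0`; continuity: `φ v x = 0` at
the frontier points `x ∈ Dk` (`x` not interior): some `sd k j x = 0` (`mem_int_iff`, `mem_Dk_iff`); if
`φ v x ≠ 0` then `sd k j (p v) = 0` (`side_carrier`), but `p v` is interior, `sd k j (p v) > 0`.
`step`: for `v < N`, `v ∈ Lv \ Bv` (interior) let `ψ v` be the function of `ext_int`, for the other `v` let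
`ψ v = 0`.  `K` a common Lipschitz constant of the `ψ v` (`IsPL.lipschitz`).  `δ = 1 / (2 * (N * (K * C) + 1) * 3)`.
Given `P, P', G`: the functions `ψ v ∘ G⁻¹` are PL (`IsPL.comp`; `G ∈ PLc` since
`⁅PLc, PLc⁆ ≤ PLc`: `cnt_comm_le` or `Subgroup.commutator_le`), `K * C` Lipschitz, zero outside of a ball
(`Dk` is bounded, `G` is the identity outside of `Dk`, so `G⁻¹ y ∈ Dk` iff `y ∈ Dk`).  `u v = P' v - P v` for
`v ∈ Lv \ Bv`, `0` otherwise.  `small_move_lip` (`n = 2`): `H`, `H y = y + ∑ ψ v (G⁻¹ y) • u v`.  `G' = H * G`: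
`G' x = G x + ∑ ψ v x • u v`; for `x ∈ Dk` this is `∑ φ v x • P v + ∑_{v ∈ Lv \ Bv} φ v x • (P' v - P v)
= ∑ φ v x • P' v` (for `v ∈ Bv` `P' v = P v`, for `v ∉ Lv` `φ v x = 0`); for `x ∉ Dk` it is `x`.
-/

namespace PLH

open Finset

theorem ext_int {k N : ℕ} {p : ℕ → Fin 2 → ℝ} {φ : ℕ → (Fin 2 → ℝ) → ℝ}
    (h : IsHT (Dk 2 k) N p φ) {v : ℕ} (hv : v < N) (hp : p v ∈ interior (Dk 2 k)) :
    ∃ ψ : (Fin 2 → ℝ) → ℝ, IsPL ψ ∧ (∀ x ∈ Dk 2 k, ψ x = φ v x) ∧ ∀ x, x ∉ Dk 2 k → ψ x = 0 := by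
  classical
  refine ⟨fun x => if x ∈ Dk 2 k then φ v x else 0, ⟨?_, ?_⟩, ?_, ?_⟩
  · refine Continuous.if ?_ (h.pl v hv).1 continuous_const
    intro a ha
    by_contra hne
    have ha' : a ∈ frontier (Dk 2 k) := ha
    rw [frontier, (Dk_closed 2 k).closure_eq] at ha'
    obtain ⟨haD, haI⟩ := ha'
    rw [mem_int_iff] at haI
    push Not at haI
    obtain ⟨j, hj⟩ := haI
    have hj0 : sd k j a = 0 := le_antisymm hj (mem_Dk_iff.1 haD j)
    have h1 := side_carrier h haD hj0 v (mem_Sp.2 ⟨hv, hne⟩)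
    have h2 := mem_int_iff.1 hp j
    rw [h1] at h2
    exact lt_irrefl _ h2
  · obtain ⟨S, hS, hS'⟩ := (h.pl v hv).2
    refine ⟨insert (AffineMap.const ℝ (Fin 2 → ℝ) (0 : ℝ)) S, hS.insert _, fun x => ?_⟩
    by_cases hx : x ∈ Dk 2 k
    · obtain ⟨a, ha, hax⟩ := hS' x
      refine ⟨a, Set.mem_insert_of_mem _ ha, ?_⟩
      simp only [if_pos hx]
      exact hax
    · refine ⟨_, Set.mem_insert _ _, ?_⟩
      simp only [if_neg hx]
      rfl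
  · intro x hx
    simp only [if_pos hx]
  · intro x hx
    simp only [if_neg hx]

private theorem StepU_comm_le {G : Type*} [Group G] (K : Subgroup G) : ⁅K, K⁆ ≤ K := by
  rw [Subgroup.commutator_le]
  intro a ha b hb
  exact mul_mem (mul_mem (mul_mem ha hb) (inv_mem ha)) (inv_mem hb)

theorem step {k N : ℕ} {p : ℕ → Fin 2 → ℝ} {φ : ℕ → (Fin 2 → ℝ) → ℝ}
    (h : IsHT (Dk 2 k) N p φ) {C : ℝ} (hC : 1 ≤ C) : ∃ δ > 0, ∀ (P P' : ℕ → Fin 2 → ℝ)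
      (G : Equiv.Perm (Fin 2 → ℝ)), G ∈ ⁅PLc (Fin 2 → ℝ), PLc (Fin 2 → ℝ)⁆ →
      Realizes k N φ P G → (∀ x y, ‖G⁻¹ x - G⁻¹ y‖ ≤ C * ‖x - y‖) →
      (∀ v ∈ Lv (Dk 2 k) N φ, ‖P' v - P v‖ < δ) → (∀ v ∈ Bv (Dk 2 k) N p φ, P' v = P v) →
      ∃ G' ∈ ⁅PLc (Fin 2 → ℝ), PLc (Fin 2 → ℝ)⁆, Realizes k N φ P' G' := by
  classical
  have hex : ∀ v : ℕ, ∃ ψ : (Fin 2 → ℝ) → ℝ, IsPL ψ ∧ (∀ x, x ∉ Dk 2 k → ψ x = 0) ∧
      (v ∈ Lv (Dk 2 k) N φ → v ∉ Bv (Dk 2 k) N p φ → ∀ x ∈ Dk 2 k, ψ x = φ v x) := by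
    intro v
    by_cases hv : v ∈ Lv (Dk 2 k) N φ ∧ v ∉ Bv (Dk 2 k) N p φ
    · have hvL := mem_Lv.1 hv.1
      have hint : p v ∈ interior (Dk 2 k) := by
        by_contra hn
        exact hv.2 (mem_Bv.2 ⟨hvL, hn⟩)
      obtain ⟨ψ, h1, h2, h3⟩ := ext_int h hvL.1 hint
      exact ⟨ψ, h1, h3, fun _ _ => h2⟩
    · exact ⟨fun _ => 0, IsPL.const 0, fun _ _ => rfl, fun h1 h2 => absurd ⟨h1, h2⟩ hv⟩
  choose ψ hψPL hψout hψin using hex
  have hlip : ∀ v : ℕ, ∃ c : ℝ, 0 ≤ c ∧ ∀ x y, ‖ψ v x - ψ v y‖ ≤ c * ‖x - y‖ := fun v =>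
    (hψPL v).lipschitz
  choose c hc0 hc using hlip
  set K : ℝ := ∑ v ∈ range N, c v with hK
  have hK0 : 0 ≤ K := Finset.sum_nonneg fun v _ => hc0 v
  have hcK : ∀ v < N, c v ≤ K := fun v hv =>
    Finset.single_le_sum (f := c) (fun u _ => hc0 u) (mem_range.2 hv)
  have hC0 : 0 ≤ C := zero_le_one.trans hC
  refine ⟨1 / (2 * (N * (K * C) + 1) * (((2 : ℕ) : ℝ) + 1)), by positivity, ?_⟩
  intro P P' G hG hReal hLip hclose hB
  have hGP : G ∈ PLc (Fin 2 → ℝ) := StepU_comm_le _ hG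
  have hfix : ∀ x, x ∉ Dk 2 k → G⁻¹ x = x := by
    intro x hx
    rw [Equiv.Perm.inv_eq_iff_eq]
    exact (hReal.2 x hx).symm
  obtain ⟨R, hR⟩ := (Dk_bounded 2 k).exists_norm_le
  set u : ℕ → (Fin 2 → ℝ) := fun v =>
    if v ∈ Lv (Dk 2 k) N φ ∧ v ∉ Bv (Dk 2 k) N p φ then P' v - P v else 0 with hu
  obtain ⟨H, hH, hHx⟩ := small_move_lip (n := 2) (N := N) (fun v x => ψ v (G⁻¹ x))
    (fun v _ => (hψPL v).comp hGP.2.1) R (by
      intro v _ x hx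
      have hxD : x ∉ Dk 2 k := fun hxD => absurd (hR x hxD) (not_le.2 hx)
      show ψ v (G⁻¹ x) = 0
      rw [hfix x hxD]
      exact hψout v x hxD) (C := K * C) (mul_nonneg hK0 hC0) (by
      intro v hv x y
      calc ‖ψ v (G⁻¹ x) - ψ v (G⁻¹ y)‖ ≤ c v * ‖G⁻¹ x - G⁻¹ y‖ := hc v _ _
        _ ≤ K * (C * ‖x - y‖) := mul_le_mul (hcK v hv) (hLip x y) (norm_nonneg _) hK0
        _ = K * C * ‖x - y‖ := by ring) u (by
      intro v _
      rw [hu]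
      simp only
      split_ifs with hv
      · exact hclose v hv.1
      · rw [norm_zero]
        positivity)
  refine ⟨H * G, mul_mem hH hG, ?_, ?_⟩
  · intro x hx
    rw [Equiv.Perm.mul_apply, hHx, hReal.1 x hx, ← Finset.sum_add_distrib]
    refine Finset.sum_congr rfl fun v hv => ?_
    have hGx : G⁻¹ (∑ w ∈ range N, φ w x • P w) = x := by
      rw [← hReal.1 x hx]
      exact G.symm_apply_apply x
    show φ v x • P v + ψ v (G⁻¹ (∑ w ∈ range N, φ w x • P w)) • u v = φ v x • P' v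
    rw [hGx]
    by_cases hvL : v ∈ Lv (Dk 2 k) N φ
    · by_cases hvB : v ∈ Bv (Dk 2 k) N p φ
      · have hu0 : u v = 0 := by
          rw [hu]
          simp only
          rw [if_neg fun e => e.2 hvB]
        rw [hu0, smul_zero, add_zero, hB v hvB]
      · have hu0 : u v = P' v - P v := by
          rw [hu]
          simp only
          rw [if_pos ⟨hvL, hvB⟩]
        rw [hu0, hψin v hvL hvB x hx, ← smul_add, add_sub_cancel]
    · have hu0 : u v = 0 := by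
        rw [hu]
        simp only
        rw [if_neg fun e => hvL e.1]
      have hφ0 : φ v x = 0 := by
        by_contra hne
        exact hvL (mem_Lv.2 ⟨mem_range.1 hv, x, hx, hne⟩)
      rw [hu0, hφ0, zero_smul, zero_smul, smul_zero, add_zero]
  · intro x hx
    rw [Equiv.Perm.mul_apply, hReal.2 x hx, hHx, Finset.sum_eq_zero, add_zero]
    intro v _
    show ψ v (G⁻¹ x) • u v = 0
    rw [hfix x hx, hψout v x hx, zero_smul]

end PLH
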