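import Pool.Agent.Lib.MP_6a1069_gt.Tu.TD

/-!
Trans: the image triangulation.
PROOF.  Write `D = Dk 2 k`, `q v = g (p v)`, `φ' v y = φ v (g⁻¹ y)`.  `g` maps `D` onto `D`: `g x = x` for
`x ∉ D`, and `g` is a bijection, so `g x ∈ D ↔ x ∈ D` (if `g x ∉ D` then `g (g x) = g x`, so `g x = x ∉ D`; if
`g x ∈ D`, `x ∉ D` then `g x = x ∉ D`).  IsHT: `pl`: composition (`IsPL.comp`, `hg.2.1`); `mem`: `q v ∈ D`;
`nonneg`, `sum_one`: at `g⁻¹ y ∈ D`; `bary`: `∑ φ v (g⁻¹ y) • g (p v) = g (g⁻¹ y) = y` by `h1`; `full`: at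
`g⁻¹ y` gives `z`, take `g z`.
`Sp N φ' y = Sp N φ (g⁻¹ y)`, so `Tr` and `Lv` are equal (`y = g x`).
`Bv`: for `v ∈ Lv` (`p v ∈ D` by `hT.mem`): `g (p v) ∈ interior D ↔ p v ∈ interior D`: `g` is a homeomorphism
(`hg.1.1`, `hg.2.1.1` continuous) with `g '' D = D`, so `g '' interior D = interior D`
(`Homeomorph.image_interior`).
-/

namespace PLH

open Finset

theorem trans_HT {k N : ℕ} {p : ℕ → Fin 2 → ℝ} {φ : ℕ → (Fin 2 → ℝ) → ℝ}
    (hT : IsHT (Dk 2 k) N p φ) {g : Equiv.Perm (Fin 2 → ℝ)} (hg : g ∈ PLc (Fin 2 → ℝ))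
    (h1 : ∀ x ∈ Dk 2 k, g x = ∑ v ∈ range N, φ v x • g (p v))
    (h3 : ∀ x, x ∉ Dk 2 k → g x = x) :
    IsHT (Dk 2 k) N (fun v => g (p v)) (fun v x => φ v (g⁻¹ x)) ∧
      Tr (Dk 2 k) N (fun v x => φ v (g⁻¹ x)) = Tr (Dk 2 k) N φ ∧
      Lv (Dk 2 k) N (fun v x => φ v (g⁻¹ x)) = Lv (Dk 2 k) N φ ∧
      Bv (Dk 2 k) N (fun v => g (p v)) (fun v x => φ v (g⁻¹ x)) = Bv (Dk 2 k) N p φ := by
  obtain ⟨hg1, hg2, -⟩ := hg
  have hD : ∀ x, g x ∈ Dk 2 k ↔ x ∈ Dk 2 k := by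
    intro x
    constructor
    · intro h
      by_contra hx
      rw [h3 x hx] at h
      exact hx h
    · intro hx
      by_contra h
      have h2 := h3 _ h
      have h4 : g x = x := g.injective h2
      rw [h4] at h
      exact h hx
  have hgi : ∀ y, g (g⁻¹ y) = y := fun y => g.apply_symm_apply y
  have hig : ∀ y, g⁻¹ (g y) = y := fun y => g.symm_apply_apply y
  have hD' : ∀ y, g⁻¹ y ∈ Dk 2 k ↔ y ∈ Dk 2 k := by
    intro y
    rw [← hD (g⁻¹ y), hgi]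
  have hSp : ∀ y, Sp N (fun v x => φ v (g⁻¹ x)) y = Sp N φ (g⁻¹ y) := by
    intro y
    ext v
    rw [mem_Sp, mem_Sp]
  have hLv : Lv (Dk 2 k) N (fun v x => φ v (g⁻¹ x)) = Lv (Dk 2 k) N φ := by
    ext v
    rw [mem_Lv, mem_Lv]
    constructor
    · rintro ⟨hv, x, hx, hne⟩
      exact ⟨hv, g⁻¹ x, (hD' x).2 hx, hne⟩
    · rintro ⟨hv, x, hx, hne⟩
      refine ⟨hv, g x, (hD x).2 hx, ?_⟩
      show φ v (g⁻¹ (g x)) ≠ 0
      rwa [hig]
  refine ⟨⟨?_, ?_, ?_, ?_, ?_, ?_⟩, ?_, hLv, ?_⟩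
  · intro v hv
    exact (hT.pl v hv).comp hg2
  · intro v hv
    exact (hD _).2 (hT.mem v hv)
  · intro v hv x hx
    exact hT.nonneg v hv _ ((hD' x).2 hx)
  · intro x hx
    exact hT.sum_one _ ((hD' x).2 hx)
  · intro x hx
    have h5 := h1 (g⁻¹ x) ((hD' x).2 hx)
    rw [hgi] at h5
    exact h5.symm
  · intro x hx t ht0 ht1 ht2
    obtain ⟨z, hz, hzt⟩ := hT.full (g⁻¹ x) ((hD' x).2 hx) t ht0 ht1 ht2
    refine ⟨g z, (hD z).2 hz, fun v hv => ?_⟩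
    show φ v (g⁻¹ (g z)) = t v
    rw [hig]
    exact hzt v hv
  · ext s
    rw [mem_Tr, mem_Tr]
    constructor
    · rintro ⟨hs, x, hx, hsx⟩
      exact ⟨hs, g⁻¹ x, (hD' x).2 hx, by rw [← hSp]; exact hsx⟩
    · rintro ⟨hs, x, hx, hsx⟩
      exact ⟨hs, g x, (hD x).2 hx, by rw [hSp, hig]; exact hsx⟩
  · let e : (Fin 2 → ℝ) ≃ₜ (Fin 2 → ℝ) :=
      { toEquiv := g
        continuous_toFun := hg1.continuous
        continuous_invFun := hg2.continuous }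
    have heD : e '' (Dk 2 k) = Dk 2 k := by
      ext y
      constructor
      · rintro ⟨x, hx, rfl⟩
        exact (hD x).2 hx
      · intro hy
        exact ⟨g⁻¹ y, (hD' y).2 hy, hgi y⟩
    have hint : ∀ x, g x ∈ interior (Dk 2 k) ↔ x ∈ interior (Dk 2 k) := by
      intro x
      have h6 : e '' interior (Dk 2 k) = interior (Dk 2 k) := by
        rw [e.image_interior, heD]
      constructor
      · intro h
        rw [← h6] at h
        obtain ⟨y, hy, hyx⟩ := h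
        have : y = x := g.injective hyx
        rwa [← this]
      · intro h
        rw [← h6]
        exact ⟨x, h, rfl⟩
    classical
    ext v
    unfold Bv
    rw [mem_filter, mem_filter, hLv]
    constructor
    · rintro ⟨ha, hb⟩
      exact ⟨ha, fun hc => hb ((hint _).2 hc)⟩
    · rintro ⟨ha, hb⟩
      exact ⟨ha, fun hc => hb ((hint _).1 hc)⟩

end PLH
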