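import Pool.Agent.Lib.MP_6a1069_gt.Tu.Flat

/-!
Tutte: harmonic positions are nondegenerate.
-/

namespace PLH

open Finset

/-- collinear points lie on a line -/
private theorem ex_lin {a b c : Fin 2 → ℝ} (h0 : dt a b c = 0) :
    ∃ l : (Fin 2 → ℝ) →ₗ[ℝ] ℝ, l ≠ 0 ∧ l b = l a ∧ l c = l a := by
  have key : ∀ d : Fin 2 → ℝ, d ≠ 0 → ∃ l : (Fin 2 → ℝ) →ₗ[ℝ] ℝ, l ≠ 0 ∧
      ∀ x, l x = d 0 * x 1 - d 1 * x 0 := by
    intro d hd
    refine ⟨d 0 • LinearMap.proj 1 - d 1 • LinearMap.proj 0, ?_, ?_⟩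
    · intro hz
      apply hd
      have h1 : d 0 = 0 := by
        have := congrArg (fun f : (Fin 2 → ℝ) →ₗ[ℝ] ℝ => f ![0, 1]) hz
        simpa using this
      have h2 : d 1 = 0 := by
        have := congrArg (fun f : (Fin 2 → ℝ) →ₗ[ℝ] ℝ => f ![1, 0]) hz
        simpa using this
      funext i
      fin_cases i
      · exact h1
      · exact h2
    · intro x
      simp
  unfold dt at h0
  by_cases hb : b - a = 0
  · by_cases hc : c - a = 0
    · refine ⟨LinearMap.proj 0, ?_, by rw [sub_eq_zero.mp hb], by rw [sub_eq_zero.mp hc]⟩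
      intro hz
      have := congrArg (fun f : (Fin 2 → ℝ) →ₗ[ℝ] ℝ => f ![1, 0]) hz
      simp at this
    · obtain ⟨l, hl, hx⟩ := key _ hc
      refine ⟨l, hl, by rw [sub_eq_zero.mp hb], ?_⟩
      rw [hx, hx]
      simp only [Pi.sub_apply]
      ring
  · obtain ⟨l, hl, hx⟩ := key _ hb
    refine ⟨l, hl, ?_, ?_⟩
    · rw [hx, hx]
      simp only [Pi.sub_apply]
      ring
    · rw [hx, hx]
      simp only [Pi.sub_apply]
      linarith

/-- a flat triangle on level `σ` puts `B` below the level -/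
private theorem half {V B : Finset ℕ} {T : Finset (Finset ℕ)} {p P : ℕ → Fin 2 → ℝ}
    {w : ℕ → ℕ → ℝ} (h : TriData V B T p) (hP : Harm V B T p P w)
    {l : (Fin 2 → ℝ) →ₗ[ℝ] ℝ} (hl : l ≠ 0) {σ : ℝ} {s : Finset ℕ} (hs : s ∈ T) {a : ℕ}
    (ha : a ∈ s) (hfl : ∀ u ∈ s, l (P u) = σ) : ∀ v ∈ B, l (p v) ≤ σ := by
  classical
  obtain ⟨m, _, _, hlm⟩ := gen_fun0 h.inj hl
  obtain ⟨cp, hcp, Hp⟩ := h.bdry l m hlm
  have step : ∀ u v, (∃ s ∈ T, v ∈ s ∧ ∀ u ∈ s, l (P u) = σ) → Adj T u v →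
      (∃ s ∈ T, u ∈ s ∧ ∀ u ∈ s, l (P u) = σ) := by
    rintro u v ⟨s', hs', hv, hf⟩ hadj
    have hv' : l (P v) = σ := hf v hv
    have h1 := flat_step h hP hl hs' hv (fun u hu => (hf u hu).trans hv'.symm)
    obtain ⟨hne, s2, hs2, hu2, hv2⟩ := hadj
    refine ⟨s2, hs2, hu2, ?_⟩
    intro x hx
    by_cases hxv : x = v
    · rw [hxv]; exact hv'
    · exact (h1 x ⟨hxv, s2, hs2, hx, hv2⟩).trans hv'
  have hne : (V.filter (fun v => ∃ s ∈ T, v ∈ s ∧ ∀ u ∈ s, l (P u) = σ)).Nonempty :=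
    ⟨a, Finset.mem_filter.mpr ⟨h.sub s hs ha, s, hs, ha, hfl⟩⟩
  obtain ⟨v, hv, hmax⟩ := Finset.exists_max_image _ (fun v => toLex (l (p v), m (p v))) hne
  obtain ⟨hvV, hQ⟩ := Finset.mem_filter.mp hv
  have nomore : ∀ u, Adj T u v → ¬ toLex (l (p v), m (p v)) < toLex (l (p u), m (p u)) := by
    intro u hu hlt
    have hQu := step u v hQ hu
    have huV : u ∈ V := by
      obtain ⟨s', hs', hu', _⟩ := hQu
      exact h.sub s' hs' hu'
    exact absurd hlt (not_lt.mpr (hmax u (Finset.mem_filter.mpr ⟨huV, hQu⟩)))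
  have hvB : v ∈ B := by
    by_contra hvB
    obtain ⟨u, hu, hlt⟩ := h.inter v hvV hvB l hl
    exact nomore u hu (Prod.Lex.toLex_lt_toLex.mpr (Or.inl hlt))
  have hvc : v = cp := by
    by_contra hvc
    obtain ⟨u, _, hu, hlt⟩ := Hp v hvB hvc
    exact nomore u hu hlt
  have hcpσ : l (p cp) = σ := by
    obtain ⟨s', hs', hv', hf⟩ := hQ
    rw [← hP.bd cp hcp, ← hvc]
    exact hf v hv'
  obtain ⟨v0, hv0, hmax0⟩ := Finset.exists_max_image B (fun v => toLex (l (p v), m (p v)))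
    ⟨cp, hcp⟩
  have hv0c : v0 = cp := by
    by_contra hne
    obtain ⟨u, huB, _, hlt⟩ := Hp v0 hv0 hne
    exact absurd hlt (not_lt.mpr (hmax0 u huB))
  intro x hx
  have h1 := hmax0 x hx
  rw [hv0c] at h1
  rw [← hcpσ]
  simp only [Prod.Lex.toLex_le_toLex] at h1
  rcases h1 with h1 | h1
  · exact h1.le
  · exact h1.1.le

theorem tutte {V B : Finset ℕ} {T : Finset (Finset ℕ)} {p P : ℕ → Fin 2 → ℝ}
    {w : ℕ → ℕ → ℝ} (h : TriData V B T p) (hP : Harm V B T p P w) :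
    ∀ s ∈ T, ∀ a ∈ s, ∀ b ∈ s, ∀ c ∈ s, a ≠ b → b ≠ c → a ≠ c →
      dt (P a) (P b) (P c) ≠ 0 := by
  classical
  intro s hs a ha b hb c hc hab hbc hac h0
  obtain ⟨l, hl, hlb, hlc⟩ := ex_lin h0
  have hsub : ({a, b, c} : Finset ℕ) = s := by
    apply Finset.eq_of_subset_of_card_le
    · intro x hx
      simp only [Finset.mem_insert, Finset.mem_singleton] at hx
      rcases hx with rfl | rfl | rfl
      · exact ha
      · exact hb
      · exact hc
    · rw [h.card s hs]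
      exact le_of_eq (Finset.card_eq_three.mpr ⟨a, b, c, hab, hac, hbc, rfl⟩).symm
  have hfl : ∀ u ∈ s, l (P u) = l (P a) := by
    intro u hu
    rw [← hsub] at hu
    simp only [Finset.mem_insert, Finset.mem_singleton] at hu
    rcases hu with rfl | rfl | rfl
    · rfl
    · exact hlb
    · exact hlc
  have h1 := half h hP hl hs ha hfl
  have hfl2 : ∀ u ∈ s, (-l) (P u) = -(l (P a)) := by
    intro u hu
    rw [LinearMap.neg_apply, hfl u hu]
  have h2 := half h hP (neg_ne_zero.mpr hl) hs ha hfl2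
  refine hl (h.corner l (l (P a)) ?_)
  intro v hv
  refine le_antisymm (h1 v hv) ?_
  have := h2 v hv
  rw [LinearMap.neg_apply] at this
  linarith

end PLH
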