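import Pool.Agent.Lib.MP_6a1069_gt.Tu.TD

/-!
Wt: positive weights exist.
PROOF.  `pos_comb`: let `S` be a finite set of indices and `d u : Fin 2 → ℝ` vectors such that for every
`m ≠ 0` some `u ∈ S` has `m (d u) > 0`.  `F ξ = ∑_{u ∈ S} exp (d u 0 * ξ 0 + d u 1 * ξ 1)` is continuous; the
function `g ξ = max over S of (d u · ξ)` is continuous, positive on the unit sphere (compact), so
`g ξ ≥ c ‖ξ‖` with `c > 0`, and `F ξ ≥ exp (c ‖ξ‖) ≥ 1 + c ‖ξ‖`; so `F` has a minimum `ξ*`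
(`Continuous.exists_forall_le` with `Tendsto F (cocompact _) atTop`, or on a large ball).  For `i = 0, 1`
the function `τ ↦ F (ξ* + τ e_i)` has a minimum at `0`, its derivative `∑ exp (d u · ξ*) * d u i` vanishes.
So `W u = exp (d u · ξ*) > 0` satisfy `∑ W u • d u = 0`.  (`S` is not empty.)
`exists_weights`: for `v ∈ V \ B` let `S` be the neighbours of `v` (in `V` by `h.sub`), `d u = p u - p v`,
hypothesis by `h.inter`; `w v u = W u / ∑ W` for `u ∈ S`, `0` otherwise; for other `v` put `w v u = 0`.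
`p v = ∑ w v u • p u` from `∑ W u • (p u - p v) = 0`.
-/

namespace PLH

open Finset

private noncomputable def wtE (d : ℕ → Fin 2 → ℝ) (u : ℕ) (ξ : Fin 2 → ℝ) : ℝ :=
  d u 0 * ξ 0 + d u 1 * ξ 1

private lemma wtE_cont (d : ℕ → Fin 2 → ℝ) (u : ℕ) : Continuous (wtE d u) := by
  unfold wtE
  fun_prop

private lemma wtE_add (d : ℕ → Fin 2 → ℝ) (u : ℕ) (ξ η : Fin 2 → ℝ) (τ : ℝ) :
    wtE d u (ξ + τ • η) = wtE d u ξ + τ * wtE d u η := by
  simp only [wtE, Pi.add_apply, Pi.smul_apply, smul_eq_mul]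
  ring

private lemma wtE_smul (d : ℕ → Fin 2 → ℝ) (u : ℕ) (ξ : Fin 2 → ℝ) (τ : ℝ) :
    wtE d u (τ • ξ) = τ * wtE d u ξ := by
  simp only [wtE, Pi.smul_apply, smul_eq_mul]
  ring

private lemma wt_pos (S : Finset ℕ) (d : ℕ → Fin 2 → ℝ)
    (hd : ∀ m : (Fin 2 → ℝ) →ₗ[ℝ] ℝ, m ≠ 0 → ∃ u ∈ S, 0 < m (d u)) (ξ : Fin 2 → ℝ)
    (hξ : ξ ≠ 0) : ∃ u ∈ S, 0 < wtE d u ξ := by
  let m : (Fin 2 → ℝ) →ₗ[ℝ] ℝ := ξ 0 • LinearMap.proj 0 + ξ 1 • LinearMap.proj 1
  have hm : ∀ x, m x = x 0 * ξ 0 + x 1 * ξ 1 := by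
    intro x
    simp only [m, LinearMap.add_apply, LinearMap.smul_apply, LinearMap.proj_apply, smul_eq_mul]
    ring
  have hm0 : m ≠ 0 := by
    intro h0
    apply hξ
    have h1 : m ξ = 0 := by rw [h0]; rfl
    rw [hm] at h1
    have h2 : ξ 0 = 0 := by nlinarith [mul_self_nonneg (ξ 0), mul_self_nonneg (ξ 1)]
    have h3 : ξ 1 = 0 := by nlinarith [mul_self_nonneg (ξ 0), mul_self_nonneg (ξ 1)]
    funext i
    fin_cases i
    · exact h2
    · exact h3
  obtain ⟨u, hu, h⟩ := hd m hm0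
  rw [hm] at h
  exact ⟨u, hu, h⟩

private lemma wt_min (S : Finset ℕ) (d : ℕ → Fin 2 → ℝ)
    (hd : ∀ m : (Fin 2 → ℝ) →ₗ[ℝ] ℝ, m ≠ 0 → ∃ u ∈ S, 0 < m (d u)) :
    ∃ ξ : Fin 2 → ℝ, ∀ η, ∑ u ∈ S, Real.exp (wtE d u ξ) ≤ ∑ u ∈ S, Real.exp (wtE d u η) := by
  have hFc : Continuous (fun ξ => ∑ u ∈ S, Real.exp (wtE d u ξ)) :=
    continuous_finsetSum _ (fun u _ => Real.continuous_exp.comp (wtE_cont d u))
  have hgc : Continuous (fun ξ => ∑ u ∈ S, max (wtE d u ξ) 0) :=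
    continuous_finsetSum _ (fun u _ => (wtE_cont d u).max continuous_const)
  have hgpos : ∀ ξ : Fin 2 → ℝ, ξ ≠ 0 → 0 < ∑ u ∈ S, max (wtE d u ξ) 0 := by
    intro ξ hξ
    obtain ⟨u, hu, h⟩ := wt_pos S d hd ξ hξ
    exact Finset.sum_pos' (fun _ _ => le_max_right _ _) ⟨u, hu, lt_max_of_lt_left h⟩
  have hne : (Metric.sphere (0 : Fin 2 → ℝ) 1).Nonempty := by
    refine ⟨fun _ => 1, ?_⟩
    rw [mem_sphere_zero_iff_norm]
    simp
  obtain ⟨ξ0, hξ0, hmin⟩ := (isCompact_sphere (0 : Fin 2 → ℝ) 1).exists_isMinOn hne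
    hgc.continuousOn
  have hξ1 : ξ0 ≠ 0 := by
    intro h0
    rw [h0, mem_sphere_zero_iff_norm, norm_zero] at hξ0
    exact one_ne_zero hξ0.symm
  have hc : 0 < ∑ u ∈ S, max (wtE d u ξ0) 0 := hgpos ξ0 hξ1
  have hge : ∀ ξ : Fin 2 → ℝ, (∑ u ∈ S, max (wtE d u ξ0) 0) * ‖ξ‖ ≤
      ∑ u ∈ S, Real.exp (wtE d u ξ) := by
    intro ξ
    have h1 : (∑ u ∈ S, max (wtE d u ξ0) 0) * ‖ξ‖ ≤ ∑ u ∈ S, max (wtE d u ξ) 0 := by
      by_cases hξ : ξ = 0
      · rw [hξ, norm_zero, mul_zero]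
        exact Finset.sum_nonneg (fun _ _ => le_max_right _ _)
      · have hn : 0 < ‖ξ‖ := norm_pos_iff.2 hξ
        have hmem : (‖ξ‖⁻¹ • ξ) ∈ Metric.sphere (0 : Fin 2 → ℝ) 1 := by
          rw [mem_sphere_zero_iff_norm, norm_smul, norm_inv, norm_norm,
            inv_mul_cancel₀ hn.ne']
        have h2 := hmin hmem
        simp only [Set.mem_ofPred_eq] at h2
        have h3 : ∑ u ∈ S, max (wtE d u ξ) 0 =
            (∑ u ∈ S, max (wtE d u (‖ξ‖⁻¹ • ξ)) 0) * ‖ξ‖ := by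
          rw [Finset.sum_mul]
          refine Finset.sum_congr rfl (fun u _ => ?_)
          rw [wtE_smul, max_mul_of_nonneg _ _ hn.le, zero_mul]
          congr 1
          field_simp
        rw [h3]
        exact mul_le_mul_of_nonneg_right h2 hn.le
    refine h1.trans (Finset.sum_le_sum (fun u _ => ?_))
    refine max_le ?_ (Real.exp_pos _).le
    have := Real.add_one_le_exp (wtE d u ξ)
    linarith
  have ht : Filter.Tendsto (fun ξ => ∑ u ∈ S, Real.exp (wtE d u ξ))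
      (Filter.cocompact (Fin 2 → ℝ)) Filter.atTop :=
    Filter.tendsto_atTop_mono hge
      ((tendsto_norm_cocompact_atTop (E := Fin 2 → ℝ)).const_mul_atTop hc)
  exact hFc.exists_forall_le ht

theorem pos_comb (S : Finset ℕ) (d : ℕ → Fin 2 → ℝ)
    (hd : ∀ m : (Fin 2 → ℝ) →ₗ[ℝ] ℝ, m ≠ 0 → ∃ u ∈ S, 0 < m (d u)) :
    ∃ W : ℕ → ℝ, (∀ u, 0 < W u) ∧ ∑ u ∈ S, W u • d u = 0 := by
  obtain ⟨ξ, hξ⟩ := wt_min S d hd
  refine ⟨fun u => Real.exp (wtE d u ξ), fun u => Real.exp_pos _, ?_⟩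
  have key : ∀ η : Fin 2 → ℝ, ∑ u ∈ S, Real.exp (wtE d u ξ) * wtE d u η = 0 := by
    intro η
    have hder : HasDerivAt (fun τ : ℝ => ∑ u ∈ S, Real.exp (wtE d u (ξ + τ • η)))
        (∑ u ∈ S, Real.exp (wtE d u ξ) * wtE d u η) 0 := by
      have h1 : (fun τ : ℝ => ∑ u ∈ S, Real.exp (wtE d u (ξ + τ • η))) =
          fun τ : ℝ => ∑ u ∈ S, Real.exp (wtE d u ξ + τ * wtE d u η) := by
        funext τ
        exact Finset.sum_congr rfl (fun u _ => by rw [wtE_add])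
      rw [h1]
      refine HasDerivAt.fun_sum (fun u _ => ?_)
      have h2 : HasDerivAt (fun τ : ℝ => wtE d u ξ + τ * wtE d u η) (wtE d u η) 0 := by
        have h3 := ((hasDerivAt_id (0 : ℝ)).mul_const (wtE d u η)).const_add (wtE d u ξ)
        rw [one_mul] at h3
        exact h3
      have h4 := h2.exp
      rw [zero_mul, add_zero] at h4
      exact h4
    have hmin : IsLocalMin (fun τ : ℝ => ∑ u ∈ S, Real.exp (wtE d u (ξ + τ • η))) 0 := by
      refine Filter.Eventually.of_forall (fun τ => ?_)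
      have h5 := hξ (ξ + τ • η)
      have h6 : (fun τ : ℝ => ∑ u ∈ S, Real.exp (wtE d u (ξ + τ • η))) 0 =
          ∑ u ∈ S, Real.exp (wtE d u ξ) := by
        simp only [zero_smul, add_zero]
      rw [h6]
      exact h5
    exact hmin.hasDerivAt_eq_zero hder
  funext i
  have h6 := key (Pi.single i 1)
  have h7 : ∀ u, wtE d u (Pi.single i 1) = d u i := by
    intro u
    fin_cases i <;> simp [wtE]
  rw [Finset.sum_apply]
  simp only [Pi.smul_apply, smul_eq_mul, Pi.zero_apply]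
  rw [← h6]
  exact Finset.sum_congr rfl (fun u _ => by rw [h7])

theorem exists_weights {V B : Finset ℕ} {T : Finset (Finset ℕ)} {p : ℕ → Fin 2 → ℝ}
    (h : TriData V B T p) : ∃ w, Harm V B T p p w := by
  classical
  have key : ∀ v, ∃ W : ℕ → ℝ, v ∈ V → v ∉ B → (∀ u, 0 ≤ W u) ∧
      (∀ u ∈ V, (0 < W u ↔ Adj T u v)) ∧ ∑ u ∈ V, W u = 1 ∧ p v = ∑ u ∈ V, W u • p u := by
    intro v
    by_cases hv : v ∈ V ∧ v ∉ B
    swap
    · exact ⟨fun _ => 0, fun h1 h2 => absurd ⟨h1, h2⟩ hv⟩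
    obtain ⟨hvV, hvB⟩ := hv
    have hadj : ∀ u, Adj T u v → u ∈ V := by
      intro u hu
      obtain ⟨_, s, hs, hus, _⟩ := hu
      exact h.sub s hs hus
    have hd : ∀ m : (Fin 2 → ℝ) →ₗ[ℝ] ℝ, m ≠ 0 →
        ∃ u ∈ V.filter (fun u => Adj T u v), 0 < m (p u - p v) := by
      intro m hm
      obtain ⟨u, hu, hlt⟩ := h.inter v hvV hvB m hm
      refine ⟨u, Finset.mem_filter.2 ⟨hadj u hu, hu⟩, ?_⟩
      rw [map_sub]
      linarith
    obtain ⟨W, hW, hsum⟩ := pos_comb (V.filter (fun u => Adj T u v)) (fun u => p u - p v) hd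
    have hne : (V.filter (fun u => Adj T u v)).Nonempty := by
      have h0 : (LinearMap.proj 0 : (Fin 2 → ℝ) →ₗ[ℝ] ℝ) ≠ 0 := by
        intro h1
        have h2 : (LinearMap.proj 0 : (Fin 2 → ℝ) →ₗ[ℝ] ℝ) (fun _ => 1) = 0 := by
          rw [h1]; rfl
        simp at h2
      obtain ⟨u, hu, _⟩ := hd _ h0
      exact ⟨u, hu⟩
    have hpos : 0 < ∑ u ∈ V.filter (fun u => Adj T u v), W u :=
      Finset.sum_pos (fun u _ => hW u) hne
    obtain ⟨D, hD⟩ : ∃ D, D = ∑ u ∈ V.filter (fun u => Adj T u v), W u := ⟨_, rfl⟩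
    rw [← hD] at hpos
    refine ⟨fun u => if u ∈ V ∧ Adj T u v then W u / D else 0, fun _ _ => ⟨?_, ?_, ?_, ?_⟩⟩
    · intro u
      dsimp only
      split_ifs
      · exact div_nonneg (hW u).le hpos.le
      · exact le_rfl
    · intro u hu
      dsimp only
      by_cases ha : Adj T u v
      · rw [if_pos ⟨hu, ha⟩]
        exact ⟨fun _ => ha, fun _ => div_pos (hW u) hpos⟩
      · rw [if_neg (fun h1 => ha h1.2)]
        exact ⟨fun h1 => absurd h1 (lt_irrefl _), fun h1 => absurd h1 ha⟩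
    · have h1 : ∑ u ∈ V, (if u ∈ V ∧ Adj T u v then W u / D else 0) =
          ∑ u ∈ V.filter (fun u => Adj T u v), W u / D := by
        rw [Finset.sum_filter]
        refine Finset.sum_congr rfl (fun u hu => ?_)
        by_cases ha : Adj T u v
        · rw [if_pos ⟨hu, ha⟩, if_pos ha]
        · rw [if_neg (fun h1 => ha h1.2), if_neg ha]
      rw [h1, ← Finset.sum_div, ← hD, div_self hpos.ne']
    · have h1 : ∑ u ∈ V, (if u ∈ V ∧ Adj T u v then W u / D else 0) • p u =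
          D⁻¹ • ∑ u ∈ V.filter (fun u => Adj T u v), W u • p u := by
        rw [Finset.smul_sum, Finset.sum_filter]
        refine Finset.sum_congr rfl (fun u hu => ?_)
        by_cases ha : Adj T u v
        · rw [if_pos ⟨hu, ha⟩, if_pos ha, smul_smul, div_eq_inv_mul]
        · rw [if_neg (fun h1 => ha h1.2), if_neg ha, zero_smul]
      rw [h1]
      have h2 : ∑ u ∈ V.filter (fun u => Adj T u v), W u • p u = D • p v := by
        rw [hD]
        have h3 : ∑ u ∈ V.filter (fun u => Adj T u v), W u • (p u - p v) =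
            ∑ u ∈ V.filter (fun u => Adj T u v), W u • p u -
            (∑ u ∈ V.filter (fun u => Adj T u v), W u) • p v := by
          rw [Finset.sum_smul, ← Finset.sum_sub_distrib]
          exact Finset.sum_congr rfl (fun u _ => smul_sub _ _ _)
        rw [hsum] at h3
        exact (sub_eq_zero.1 h3.symm)
      rw [h2, smul_smul, inv_mul_cancel₀ hpos.ne', one_smul]
  choose w hw using key
  refine ⟨w, ⟨⟨fun v hv hb u => (hw v hv hb).1 u, fun v hv hb u hu => (hw v hv hb).2.1 u hu,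
    fun v hv hb => (hw v hv hb).2.2.1⟩, fun _ _ => rfl, fun v hv hb => (hw v hv hb).2.2.2⟩⟩

end PLH
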