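import Pool.Agent.Lib.MP_6a1069_gt.Tu.Geo
import Pool.Agent.Lib.MP_6a1069_gt.Cnt
import Pool.Agent.Lib.MP_6a1069_gt.Tu.Tutte
import Pool.Agent.Lib.MP_6a1069_gt.Tu.Wt
import Pool.Agent.Lib.MP_6a1069_gt.Tu.Path
import Pool.Agent.Lib.MP_6a1069_gt.Tu.Trans
import Pool.Agent.Lib.MP_6a1069_gt.Tu.AffM
import Pool.Agent.Lib.MP_6a1069_gt.Tu.InvL
import Pool.Agent.Lib.MP_6a1069_gt.Tu.StepU
import Pool.Agent.Lib.MP_6a1069_gt.Tu.Cpt

/-!
PL2: `PL_c` of the plane is perfect.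
PROOF.  `h ∈ PLc`.  `adapted`: `k N p φ`.  `q v = h (p v)`, `V = Lv`, `B = Bv`, `T = Tr` (of `Dk 2 k, N, p, φ`).
`triData_of_HT` gives `TriData V B T p`; `trans_HT` and `triData_of_HT` give `TriData V B T q`.  `q v = p v`
for `v ∈ B` (`p v ∉ interior`, so `p v ∉ Qk` by `Qk_subset`).  `exists_weights` for `p` and for `q`;
`exists_path`: `P t`.  `tutte`: `P t` is nondegenerate for `t ∈ [0,1]`; `unif_bounds`: `c0, R`;
`aff_bound`: `C`; `step`: `δ`; `unif_steps`: `m`.  Induction on `j ≤ m`: there is `G_j` in the commutator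
subgroup which realizes `P (j/m)`: `j = 0`: `G = 1`.  Step: `inv_lip` (`A` from `aff_bound`) and `step`.
`j = m`: `G` realizes `q`, as `h` does, so `h = G`.
-/

namespace PLH

open Finset

theorem PLc2_le : PLc (Fin 2 → ℝ) ≤ ⁅PLc (Fin 2 → ℝ), PLc (Fin 2 → ℝ)⁆ := by
  intro h hh
  obtain ⟨k, N, p, φ, hT, h1, h2, h3⟩ := adapted hh
  set V := Lv (Dk 2 k) N φ with hV
  set B := Bv (Dk 2 k) N p φ with hB
  set T := Tr (Dk 2 k) N φ with hTr
  have hTp : TriData V B T p := triData_of_HT hT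
  obtain ⟨hTq0, e1, e2, e3⟩ := trans_HT hT hh h1 h3
  have hTq : TriData V B T (fun v => h (p v)) := by
    have := triData_of_HT hTq0
    rwa [e1, e2, e3] at this
  have hqB : ∀ v ∈ B, h (p v) = p v := by
    intro v hv
    rw [hB, mem_Bv] at hv
    exact (h2 v hv.1.1 fun hc => hv.2 (Qk_subset 2 k hc)).2
  obtain ⟨wp, hwp⟩ := exists_weights hTp
  obtain ⟨wq, hwq⟩ := exists_weights hTq
  have hwq' : Harm V B T p (fun v => h (p v)) wq := ⟨hwq.wts, hqB, hwq.eq⟩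
  obtain ⟨P, w, hPc, hPH, hP0, hP1⟩ := exists_path hTp hwp hwq'
  have hnd : ∀ t ∈ Set.Icc (0 : ℝ) 1, ∀ s ∈ T, ∀ a ∈ s, ∀ b ∈ s, ∀ c ∈ s, a ≠ b → b ≠ c →
      a ≠ c → dt (P t a) (P t b) (P t c) ≠ 0 := fun t ht => tutte hTp (hPH t ht)
  obtain ⟨c0, hc0, R, hR, hPR⟩ := unif_bounds (p := p) hTp.sub hPc hnd
  obtain ⟨C, hC, hAff⟩ := aff_bound c0 R hc0
  obtain ⟨δ, hδ, hstep⟩ := step hT hC
  obtain ⟨m, hm, hms⟩ := unif_steps hPc hδ
  have hmR : (0 : ℝ) < m := Nat.cast_pos.mpr hm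
  have key : ∀ j : ℕ, j ≤ m → ∃ G ∈ ⁅PLc (Fin 2 → ℝ), PLc (Fin 2 → ℝ)⁆,
      Realizes k N φ (P ((j : ℕ) / (m : ℝ))) G := by
    intro j
    induction j with
    | zero =>
      intro _
      refine ⟨1, one_mem _, ?_, fun x _ => rfl⟩
      intro x hx
      rw [Equiv.Perm.one_apply]
      conv_lhs => rw [← hT.bary x hx]
      refine Finset.sum_congr rfl fun v hv => ?_
      by_cases hφ : φ v x = 0
      · rw [hφ, zero_smul, zero_smul]
      · have hvV : v ∈ V := mem_Lv.mpr ⟨Finset.mem_range.mp hv, x, hx, hφ⟩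
        rw [Nat.cast_zero, zero_div, hP0 v hvV]
    | succ j ih =>
      intro hj
      obtain ⟨G, hG, hGR⟩ := ih (by omega)
      have hjm : ((j : ℕ) : ℝ) / m ∈ Set.Icc (0 : ℝ) 1 := by
        refine ⟨by positivity, ?_⟩
        rw [div_le_one hmR]
        exact_mod_cast (by omega : j ≤ m)
      have hjm' : ((j + 1 : ℕ) : ℝ) / m ∈ Set.Icc (0 : ℝ) 1 := by
        refine ⟨by positivity, ?_⟩
        rw [div_le_one hmR]
        exact_mod_cast hj
      have hlip : ∀ x y, ‖G⁻¹ x - G⁻¹ y‖ ≤ C * ‖x - y‖ := by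
        refine inv_lip hT (cnt_comm_le _ hG) hGR hC ?_
        intro s hs
        obtain ⟨hcard, -⟩ := mem_Tr.mp hs
        obtain ⟨a, b, c, hab, hac, hbc, rfl⟩ := Finset.card_eq_three.mp hcard
        have hsV := hTp.sub _ hs
        have ha : a ∈ ({a, b, c} : Finset ℕ) := by simp
        have hb : b ∈ ({a, b, c} : Finset ℕ) := by simp
        have hc : c ∈ ({a, b, c} : Finset ℕ) := by simp
        obtain ⟨hR1, hR2⟩ := hPR _ hjm
        obtain ⟨A, hA1, hA2, hA3, hA4⟩ := hAff (P ((j : ℕ) / (m : ℝ)) a) (P ((j : ℕ) / (m : ℝ)) b)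
          (P ((j : ℕ) / (m : ℝ)) c) (p a) (p b) (p c) (hR2 _ hs a ha b hb c hc hab hbc hac)
          (hR1 a (hsV ha)) (hR1 b (hsV hb)) (hR1 c (hsV hc)) (hR a (hsV ha)) (hR b (hsV hb))
          (hR c (hsV hc))
        refine ⟨A, ?_, hA4⟩
        intro v hv
        rw [Finset.mem_insert, Finset.mem_insert, Finset.mem_singleton] at hv
        rcases hv with rfl | rfl | rfl
        · exact hA1
        · exact hA2
        · exact hA3
      obtain ⟨G', hG', hGR'⟩ := hstep (P ((j : ℕ) / (m : ℝ))) (P ((j + 1 : ℕ) / (m : ℝ))) G hG hGR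
        hlip (fun v hv => hms j (by omega) v hv)
        (fun v hv => by rw [(hPH _ hjm').bd v hv, (hPH _ hjm).bd v hv])
      exact ⟨G', hG', hGR'⟩
  obtain ⟨G, hG, hGR⟩ := key m le_rfl
  have hGh : G = h := by
    ext1 x
    by_cases hx : x ∈ Dk 2 k
    · rw [hGR.1 x hx, h1 x hx]
      refine Finset.sum_congr rfl fun v hv => ?_
      by_cases hφ : φ v x = 0
      · rw [hφ, zero_smul, zero_smul]
      · have hvV : v ∈ V := mem_Lv.mpr ⟨Finset.mem_range.mp hv, x, hx, hφ⟩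
        rw [div_self hmR.ne', hP1 v hvV]
    · rw [hGR.2 x hx, h3 x hx]
  rw [← hGh]
  exact hG

end PLH
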