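import Pool.Agent.Lib.MP_6a1069_gt.HatExt
import Pool.Agent.Lib.MP_6a1069_gt.HatAd

/-!
# Part T (`PL_c` of the plane is perfect): definitions

`Sp N φ x`: the carrier of `x`, the indices `v < N` with `φ v x ≠ 0`.
`Tr D N φ`: the carriers with three elements (triangles).
`Lv D N φ`: the indices which occur in some carrier (live vertices).
`Bv D N p φ`: the live vertices whose position is not in the interior of `D`.
`Adj T u v`: `u ≠ v` are vertices of a common triangle.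
`scn T f v`: number of triangles with `v` as middle vertex for the order given by `f`.
`cutn T v X`: number of triangles at `v` with one other vertex in `X` and one not in `X`.
`dt a b c`: twice the oriented area.
`TriData V B T p`: the combinatorial and geometric facts on a triangulated triangle which are used.
`Wts V B T w`: weights, positive exactly on neighbours.  `Harm V B T p P w`: the positions `P` agree
with `p` on `B`, and `P v = ∑ w v u • P u` for `v ∈ V \ B`.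
`Realizes k N φ P G`: `G` is the map linear on all triangles with `p v ↦ P v`, identity outside.
-/

namespace PLH

open Finset

section combinatorics

open scoped Classical in
/-- the carrier of `x` -/
noncomputable def Sp {E : Type*} (N : ℕ) (φ : ℕ → E → ℝ) (x : E) : Finset ℕ :=
  (range N).filter (fun v => φ v x ≠ 0)

open scoped Classical in
/-- the triangles -/
noncomputable def Tr {E : Type*} (D : Set E) (N : ℕ) (φ : ℕ → E → ℝ) : Finset (Finset ℕ) :=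
  (range N).powerset.filter (fun s => s.card = 3 ∧ ∃ x ∈ D, Sp N φ x = s)

open scoped Classical in
/-- the live vertices -/
noncomputable def Lv {E : Type*} (D : Set E) (N : ℕ) (φ : ℕ → E → ℝ) : Finset ℕ :=
  (range N).filter (fun v => ∃ x ∈ D, φ v x ≠ 0)

open scoped Classical in
/-- the live vertices which are not in the interior of `D` -/
noncomputable def Bv {E : Type*} [TopologicalSpace E] (D : Set E) (N : ℕ) (p : ℕ → E)
    (φ : ℕ → E → ℝ) : Finset ℕ :=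
  (Lv D N φ).filter (fun v => p v ∉ interior D)

/-- `u` and `v` are different vertices of a common triangle -/
def Adj (T : Finset (Finset ℕ)) (u v : ℕ) : Prop := u ≠ v ∧ ∃ s ∈ T, u ∈ s ∧ v ∈ s

open scoped Classical in
/-- number of triangles with `v` as middle vertex for the order given by `f` -/
noncomputable def scn {α : Type*} [LinearOrder α] (T : Finset (Finset ℕ)) (f : ℕ → α) (v : ℕ) :
    ℕ :=
  (T.filter (fun s => v ∈ s ∧ (∃ a ∈ s, f a < f v) ∧ ∃ b ∈ s, f v < f b)).card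

open scoped Classical in
/-- number of triangles at `v` with one other vertex in `X` and one other vertex not in `X` -/
noncomputable def cutn (T : Finset (Finset ℕ)) (v : ℕ) (X : Set ℕ) : ℕ :=
  (T.filter (fun s => v ∈ s ∧ (∃ a ∈ s, a ≠ v ∧ a ∈ X) ∧ ∃ b ∈ s, b ≠ v ∧ b ∉ X)).card

/-- twice the oriented area -/
def dt (a b c : Fin 2 → ℝ) : ℝ := (b 0 - a 0) * (c 1 - a 1) - (b 1 - a 1) * (c 0 - a 0)

theorem mem_Sp {E : Type*} {N : ℕ} {φ : ℕ → E → ℝ} {x : E} {v : ℕ} :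
    v ∈ Sp N φ x ↔ v < N ∧ φ v x ≠ 0 := by
  classical
  simp [Sp]

theorem mem_Tr {E : Type*} {D : Set E} {N : ℕ} {φ : ℕ → E → ℝ} {s : Finset ℕ} :
    s ∈ Tr D N φ ↔ s.card = 3 ∧ ∃ x ∈ D, Sp N φ x = s := by
  classical
  unfold Tr
  rw [mem_filter, mem_powerset]
  constructor
  · exact fun h => h.2
  · rintro ⟨h1, x, hx, rfl⟩
    exact ⟨filter_subset _ _, h1, x, hx, rfl⟩

theorem mem_Lv {E : Type*} {D : Set E} {N : ℕ} {φ : ℕ → E → ℝ} {v : ℕ} :
    v ∈ Lv D N φ ↔ v < N ∧ ∃ x ∈ D, φ v x ≠ 0 := by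
  classical
  simp [Lv]

theorem mem_Bv {E : Type*} [TopologicalSpace E] {D : Set E} {N : ℕ} {p : ℕ → E}
    {φ : ℕ → E → ℝ} {v : ℕ} :
    v ∈ Bv D N p φ ↔ (v < N ∧ ∃ x ∈ D, φ v x ≠ 0) ∧ p v ∉ interior D := by
  classical
  rw [Bv, mem_filter, mem_Lv]

theorem Adj.symm {T : Finset (Finset ℕ)} {u v : ℕ} (h : Adj T u v) : Adj T v u := by
  obtain ⟨h1, s, hs, hu, hv⟩ := h
  exact ⟨h1.symm, s, hs, hv, hu⟩

end combinatorics

/-- the facts on a triangulated triangle which are used -/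
structure TriData (V B : Finset ℕ) (T : Finset (Finset ℕ)) (p : ℕ → Fin 2 → ℝ) : Prop where
  sub : ∀ s ∈ T, s ⊆ V
  card : ∀ s ∈ T, s.card = 3
  bsub : B ⊆ V
  inj : ∀ u ∈ V, ∀ v ∈ V, p u = p v → u = v
  nd : ∀ s ∈ T, ∀ a ∈ s, ∀ b ∈ s, ∀ c ∈ s, a ≠ b → b ≠ c → a ≠ c → dt (p a) (p b) (p c) ≠ 0
  up : ∀ m : (Fin 2 → ℝ) →ₗ[ℝ] ℝ, (∀ u ∈ V, ∀ v ∈ V, m (p u) = m (p v) → u = v) → ∀ v ∈ V,
    scn T (fun u => m (p u)) v ≤ if v ∈ B then 1 else 2
  cut : ∀ v ∈ V, ∀ X : Set ℕ, (∃ u, u ∈ X ∧ Adj T u v) → (∃ u, u ∉ X ∧ Adj T u v) →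
    (if v ∈ B then 1 else 2) ≤ cutn T v X
  inter : ∀ v ∈ V, v ∉ B → ∀ m : (Fin 2 → ℝ) →ₗ[ℝ] ℝ, m ≠ 0 →
    ∃ u, Adj T u v ∧ m (p v) < m (p u)
  bdry : ∀ l m : (Fin 2 → ℝ) →ₗ[ℝ] ℝ, LinearIndependent ℝ ![l, m] →
    ∃ c ∈ B, ∀ v ∈ B, v ≠ c →
      ∃ u ∈ B, Adj T u v ∧ toLex (l (p v), m (p v)) < toLex (l (p u), m (p u))
  corner : ∀ (l : (Fin 2 → ℝ) →ₗ[ℝ] ℝ) (c : ℝ), (∀ v ∈ B, l (p v) = c) → l = 0

/-- weights: `w v u > 0` exactly for the neighbours `u` of `v`, sum one, for `v ∈ V \ B` -/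
structure Wts (V B : Finset ℕ) (T : Finset (Finset ℕ)) (w : ℕ → ℕ → ℝ) : Prop where
  nn : ∀ v ∈ V, v ∉ B → ∀ u, 0 ≤ w v u
  adj : ∀ v ∈ V, v ∉ B → ∀ u ∈ V, (0 < w v u ↔ Adj T u v)
  sum : ∀ v ∈ V, v ∉ B → ∑ u ∈ V, w v u = 1

/-- `P = p` on `B`, and `P v` is the combination with weights `w v` of the positions of its
neighbours for `v ∈ V \ B` -/
structure Harm (V B : Finset ℕ) (T : Finset (Finset ℕ)) (p P : ℕ → Fin 2 → ℝ)
    (w : ℕ → ℕ → ℝ) : Prop where
  wts : Wts V B T w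
  bd : ∀ v ∈ B, P v = p v
  eq : ∀ v ∈ V, v ∉ B → P v = ∑ u ∈ V, w v u • P u

/-- `G` is the map which is linear on all triangles with `p v ↦ P v`, identity outside of `D` -/
def Realizes (k N : ℕ) (φ : ℕ → (Fin 2 → ℝ) → ℝ) (P : ℕ → Fin 2 → ℝ)
    (G : Equiv.Perm (Fin 2 → ℝ)) : Prop :=
  (∀ x ∈ Dk 2 k, G x = ∑ v ∈ range N, φ v x • P v) ∧ ∀ x, x ∉ Dk 2 k → G x = x

end PLH
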