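import Pool.Agent.Lib.MP_6a1069_gt.Tu.Cnt3
import Pool.Agent.Lib.MP_6a1069_gt.Tu.GenF

/-!
UBd: the number of triangles is at most `2 |V \ B| + |B| - 2`.
PROOF.  `gen_fun0` (with any `l ≠ 0`) gives `m ≠ 0` injective on `V`.  `B` is not empty (`h.bdry`).  Let `v⁺`,
`v⁻ ∈ V` be vertices with the largest and smallest `m (p v)`.  `v⁺ ∈ B`: otherwise `h.inter` gives
`u` with `Adj T u v⁺` (so `u ∈ V` by `h.sub`) and larger value; `v⁻ ∈ B` by `h.inter` with `-m`.
`v⁺ ≠ v⁻`: otherwise all `m (p v)` are equal, `V` has one element `v`, and `h.corner` with any `l` (for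
example the first coordinate) gives `l = 0`, contradiction.  `scn = 0` at `v⁺, v⁻` (`scn_top`, `scn_bot`);
`scn_sum`, `h.up`: `T.card = ∑_V scn ≤ 2 |V \ B| + |B \ {v⁺, v⁻}|`.
-/

namespace PLH

open Finset

theorem card_T_le {V B : Finset ℕ} {T : Finset (Finset ℕ)} {p : ℕ → Fin 2 → ℝ}
    (h : TriData V B T p) : T.card + 2 ≤ 2 * (V \ B).card + B.card := by
  classical
  set l : (Fin 2 → ℝ) →ₗ[ℝ] ℝ := LinearMap.proj 0 with hldef
  have hl : l ≠ 0 := by
    intro h0
    have h1 := congrArg (fun g : (Fin 2 → ℝ) →ₗ[ℝ] ℝ => g (fun _ => 1)) h0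
    simp [hldef] at h1
  obtain ⟨m, hm0, hminj, hlin⟩ := gen_fun0 h.inj hl
  obtain ⟨c, hc, -⟩ := h.bdry l m hlin
  have hVne : V.Nonempty := ⟨c, h.bsub hc⟩
  obtain ⟨vp, hvp, hvpmax⟩ := Finset.exists_max_image V (fun v => m (p v)) hVne
  obtain ⟨vm, hvm, hvmmin⟩ := Finset.exists_min_image V (fun v => m (p v)) hVne
  have hadj : ∀ u v, Adj T u v → u ∈ V := fun u v huv => by
    obtain ⟨-, s, hs, hu, -⟩ := huv
    exact h.sub s hs hu
  have hvpB : vp ∈ B := by
    by_contra hn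
    obtain ⟨u, hu, hlt⟩ := h.inter vp hvp hn m hm0
    exact absurd (hvpmax u (hadj u vp hu)) (not_le.2 hlt)
  have hvmB : vm ∈ B := by
    by_contra hn
    obtain ⟨u, hu, hlt⟩ := h.inter vm hvm hn (-m) (neg_ne_zero.2 hm0)
    simp only [LinearMap.neg_apply, neg_lt_neg_iff] at hlt
    exact absurd (hvmmin u (hadj u vm hu)) (not_le.2 hlt)
  have hne : vm ≠ vp := by
    intro he
    subst he
    apply hl
    apply h.corner l (l (p vm))
    intro v hv
    have hvV := h.bsub hv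
    rw [hminj v hvV vm hvm (le_antisymm (hvpmax v hvV) (hvmmin v hvV))]
  have hsum := scn_sum h.sub h.card (fun u => m (p u)) hminj
  have htop : scn T (fun u => m (p u)) vp = 0 := scn_top h.sub _ hvpmax
  have hbot : scn T (fun u => m (p u)) vm = 0 := scn_bot h.sub _ hvmmin
  have h1 : ∑ v ∈ V \ B, scn T (fun u => m (p u)) v ≤ (V \ B).card * 2 := by
    rw [← smul_eq_mul]
    refine Finset.sum_le_card_nsmul _ _ _ fun v hv => ?_
    rw [Finset.mem_sdiff] at hv
    have := h.up m hminj v hv.1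
    rwa [if_neg hv.2] at this
  have hvm' : vm ∈ B.erase vp := Finset.mem_erase.2 ⟨hne, hvmB⟩
  have h2 : ∑ v ∈ (B.erase vp).erase vm, scn T (fun u => m (p u)) v ≤
      ((B.erase vp).erase vm).card * 1 := by
    rw [← smul_eq_mul]
    refine Finset.sum_le_card_nsmul _ _ _ fun v hv => ?_
    have hvB : v ∈ B := Finset.mem_of_mem_erase (Finset.mem_of_mem_erase hv)
    have := h.up m hminj v (h.bsub hvB)
    rwa [if_pos hvB] at this
  have h3 : ∑ v ∈ B, scn T (fun u => m (p u)) v =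
      ∑ v ∈ (B.erase vp).erase vm, scn T (fun u => m (p u)) v := by
    rw [← Finset.add_sum_erase B _ hvpB, ← Finset.add_sum_erase (B.erase vp) _ hvm', htop, hbot,
      zero_add, zero_add]
  have h4 : ((B.erase vp).erase vm).card + 1 + 1 = B.card := by
    rw [Finset.card_erase_add_one hvm', Finset.card_erase_add_one hvpB]
  have h5 : ∑ v ∈ V, scn T (fun u => m (p u)) v =
      ∑ v ∈ V \ B, scn T (fun u => m (p u)) v + ∑ v ∈ B, scn T (fun u => m (p u)) v :=
    (Finset.sum_sdiff h.bsub).symm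
  omega

end PLH
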