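import Pool.Agent.Lib.MP_6a1069_gt.Tu.Side

/-!
Up: the upper bound for the number of triangles with middle vertex `v` for a linear functional `m`
injective on the vertices.
PROOF.  `m ≠ 0`?  If `V` has one element `scn = 0`.  In general let `e : Fin 2 → ℝ` be `![m e_1, -m e_0]`
(`e_i = Pi.single i 1`), so `m e = 0`, and if `m x = 0`, `m ≠ 0` then `x = r • e` for some `r`.  If `m = 0` then
no triangle has a middle vertex (`m (p a) < m (p v)` is impossible), `scn = 0`.
Let `s` be a triangle with `v ∈ s` and `a, b ∈ s`, `m (p a) < m (p v) < m (p b)`; so `s = {v, a, b}` (card 3).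
There is `θ ∈ (0,1)` with `m ((1-θ) • p a + θ • p b) = m (p v)`; `x_s = (1-θ) • p a + θ • p b = p v + r_s • e`,
and `r_s ≠ 0` since `dt (p v) (p a) (p b) ≠ 0` (`tr_nd`).  For `0 < q ≤ 1/2` the point
`p v + (q r_s) • e = (1-q) • p v + q (1-θ) • p a + q θ • p b` has carrier exactly `s`, `h.full` or `full'` at
the point of `mem_Tr`.  So, for two triangles `s, s'` with `r_s r_s' > 0`, taking `q, q'` small with
`q r_s = q' r_s'` gives `s = s'`.  Hence at most two triangles (sign of `r_s` is injective on the filtered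
set; `Finset.card_le_card_of_injOn` into `{true,false}` or `Finset.card_le_two`).
If `v ∈ Bv`: some `sd k j (p v) = 0` (`mem_int_iff`, `mem_Dk_iff`).  If there were triangles `s, s'` with
`r_s > 0 > r_s'` then the points `p v ± ε • e` are in `Dk`, `sd k j` is affine, `≥ 0` at both and `0` at the
middle, so `0` at both, so (`side_carrier`) all vertices of `s` have `sd k j = 0`, they are on a line:
contradiction to `tr_nd` (compute: `sd k j` is affine and not constant; three points with `sd k j = 0`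
have `dt = 0`).
-/

namespace PLH

open Finset

/-- the direction of the kernel of `m` -/
private def Up_e (m : (Fin 2 → ℝ) →ₗ[ℝ] ℝ) : Fin 2 → ℝ :=
  ![m (Pi.single 1 1), -m (Pi.single 0 1)]

private theorem Up_app (m : (Fin 2 → ℝ) →ₗ[ℝ] ℝ) (x : Fin 2 → ℝ) :
    m x = x 0 * m (Pi.single 0 1) + x 1 * m (Pi.single 1 1) := by
  have e : x = x 0 • Pi.single 0 1 + x 1 • Pi.single 1 1 := by
    funext i
    fin_cases i <;> simp
  conv_lhs => rw [e]
  rw [map_add, map_smul, map_smul, smul_eq_mul, smul_eq_mul]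

/-- the triangle with middle vertex `v` contains a segment from `v` in the direction of the
kernel of `m` -/
private theorem Up_dir {k N : ℕ} {p : ℕ → Fin 2 → ℝ} {φ : ℕ → (Fin 2 → ℝ) → ℝ}
    (h : IsHT (Dk 2 k) N p φ) (m : (Fin 2 → ℝ) →ₗ[ℝ] ℝ) {v a b : ℕ} {s : Finset ℕ}
    (hs : s ∈ Tr (Dk 2 k) N φ) (hv : v ∈ s) (ha : a ∈ s) (hb : b ∈ s)
    (hav : m (p a) < m (p v)) (hvb : m (p v) < m (p b)) :
    ∃ r : ℝ, r ≠ 0 ∧ ∀ q : ℝ, 0 < q → q < 1 → (p v + (q * r) • Up_e m) ∈ Dk 2 k ∧
      Sp N φ (p v + (q * r) • Up_e m) = s := by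
  have hva : v ≠ a := fun e => by rw [e] at hav; exact lt_irrefl _ hav
  have hvb' : v ≠ b := fun e => by rw [e] at hvb; exact lt_irrefl _ hvb
  have hab : a ≠ b := fun e => by rw [e] at hav; exact lt_irrefl _ (hav.trans hvb)
  have hnd := tr_nd h s hs v hv a ha b hb hva hab hvb'
  obtain ⟨hs3, x0, hx0, hSp⟩ := mem_Tr.1 hs
  have hsub : ({v, a, b} : Finset ℕ) ⊆ s := by
    intro w hw
    simp only [mem_insert, mem_singleton] at hw
    rcases hw with rfl | rfl | rfl <;> assumption
  have hc3 : ({v, a, b} : Finset ℕ).card = 3 := by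
    rw [card_eq_three]
    exact ⟨v, a, b, hva, hvb', hab, rfl⟩
  have hseq : ({v, a, b} : Finset ℕ) = s := eq_of_subset_of_card_le hsub (by omega)
  have hlt : ∀ u ∈ s, u < N := by
    intro u hu
    rw [← hSp, mem_Sp] at hu
    exact hu.1
  -- the point `y = (1 - θ) a + θ b - v`
  have hba : 0 < m (p b) - m (p a) := by linarith
  set θ : ℝ := (m (p v) - m (p a)) / (m (p b) - m (p a)) with hθ
  have hθ0 : 0 < θ := div_pos (by linarith) hba
  have hθ1 : θ < 1 := by
    rw [hθ, div_lt_one hba]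
    linarith
  set y : Fin 2 → ℝ := (1 - θ) • p a + θ • p b - p v with hy
  have hmy : m y = 0 := by
    rw [hy, map_sub, map_add, map_smul, map_smul, smul_eq_mul, smul_eq_mul]
    have e : θ * (m (p b) - m (p a)) = m (p v) - m (p a) := by
      rw [hθ, div_mul_cancel₀ _ hba.ne']
    linear_combination e
  have hmy' : y 0 * m (Pi.single 0 1) + y 1 * m (Pi.single 1 1) = 0 := by
    rw [← Up_app, hmy]
  have hS : 0 < m (Pi.single 0 1) ^ 2 + m (Pi.single 1 1) ^ 2 := by
    rcases eq_or_ne (m (Pi.single 0 1)) 0 with h0 | h0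
    · rcases eq_or_ne (m (Pi.single 1 1)) 0 with h1 | h1
      · exfalso
        rw [Up_app m (p a), Up_app m (p v), h0, h1] at hav
        simp at hav
      · have := sq_pos_of_ne_zero h1
        have := sq_nonneg (m (Pi.single 0 1))
        linarith
    · have := sq_pos_of_ne_zero h0
      have := sq_nonneg (m (Pi.single 1 1))
      linarith
  set r : ℝ := (y 0 * m (Pi.single 1 1) - y 1 * m (Pi.single 0 1)) /
    (m (Pi.single 0 1) ^ 2 + m (Pi.single 1 1) ^ 2) with hr
  have hre : r • Up_e m = y := by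
    funext i
    fin_cases i
    · show r * m (Pi.single 1 1) = y 0
      rw [hr, div_mul_eq_mul_div, div_eq_iff hS.ne']
      linear_combination (-m (Pi.single 0 1)) * hmy'
    · show r * -m (Pi.single 0 1) = y 1
      rw [hr, div_mul_eq_mul_div, div_eq_iff hS.ne']
      linear_combination (-m (Pi.single 1 1)) * hmy'
  refine ⟨r, ?_, ?_⟩
  · intro hr0
    rw [hr0, zero_smul] at hre
    apply hnd
    have e0 := congrFun hre 0
    have e1 := congrFun hre 1
    simp only [hy, Pi.zero_apply, Pi.sub_apply, Pi.add_apply, Pi.smul_apply, smul_eq_mul] at e0 e1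
    unfold dt
    have f0 : p v 0 = (1 - θ) * p a 0 + θ * p b 0 := by linarith
    have f1 : p v 1 = (1 - θ) * p a 1 + θ * p b 1 := by linarith
    rw [f0, f1]
    ring
  · intro q hq0 hq1
    set t : ℕ → ℝ := fun u => (if u = v then 1 - q else 0) + (if u = a then q * (1 - θ) else 0) +
      (if u = b then q * θ else 0) with ht
    have hq1' : 0 < 1 - q := by linarith
    have hqa : 0 < q * (1 - θ) := mul_pos hq0 (by linarith)
    have hqb : 0 < q * θ := mul_pos hq0 hθ0
    have ht0 : ∀ u, 0 ≤ t u := by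
      intro u
      rw [ht]
      simp only
      split_ifs <;> linarith
    have htn : ∀ u, t u ≠ 0 ↔ u ∈ s := by
      intro u
      rw [← hseq, mem_insert, mem_insert, mem_singleton, ht]
      simp only
      by_cases h1 : u = v
      · rw [if_pos h1]
        have e2 : (0 : ℝ) ≤ (if u = a then q * (1 - θ) else 0) := by
          split_ifs <;> linarith
        have e3 : (0 : ℝ) ≤ (if u = b then q * θ else 0) := by
          split_ifs <;> linarith
        exact ⟨fun _ => Or.inl h1, fun _ => by linarith [e2, e3] |> fun e : (0 : ℝ) <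
          1 - q + (if u = a then q * (1 - θ) else 0) + (if u = b then q * θ else 0) => e.ne'⟩
      · rw [if_neg h1]
        by_cases h2 : u = a
        · have h3 : u ≠ b := fun e => hab (h2.symm.trans e)
          rw [if_pos h2, if_neg h3, zero_add, add_zero]
          exact ⟨fun _ => Or.inr (Or.inl h2), fun _ => hqa.ne'⟩
        · rw [if_neg h2, zero_add, zero_add]
          by_cases h3 : u = b
          · rw [if_pos h3]
            exact ⟨fun _ => Or.inr (Or.inr h3), fun _ => hqb.ne'⟩
          · rw [if_neg h3]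
            exact ⟨fun e => absurd rfl e, fun e => by
              rcases e with e | e | e
              · exact absurd e h1
              · exact absurd e h2
              · exact absurd e h3⟩
    have hsum : ∑ u ∈ range N, t u = 1 := by
      simp only [ht, Finset.sum_add_distrib]
      rw [Finset.sum_ite_eq', Finset.sum_ite_eq', Finset.sum_ite_eq',
        if_pos (mem_range.2 (hlt v hv)), if_pos (mem_range.2 (hlt a ha)),
        if_pos (mem_range.2 (hlt b hb))]
      ring
    have hpt : ∑ u ∈ range N, t u • p u = p v + (q * r) • Up_e m := by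
      simp only [ht, add_smul, Finset.sum_add_distrib, ite_smul, zero_smul]
      rw [Finset.sum_ite_eq', Finset.sum_ite_eq', Finset.sum_ite_eq',
        if_pos (mem_range.2 (hlt v hv)), if_pos (mem_range.2 (hlt a ha)),
        if_pos (mem_range.2 (hlt b hb)), mul_smul q r, hre, hy]
      funext i
      simp only [Pi.add_apply, Pi.smul_apply, Pi.sub_apply, smul_eq_mul]
      ring
    obtain ⟨h1, h2⟩ := full' (Dk_closed 2 k) h hx0 (t := t) (fun u _ => ht0 u) hsum (by
      intro u hu hu0
      by_contra hne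
      have := (htn u).1 hne
      rw [← hSp, mem_Sp] at this
      exact this.2 hu0)
    rw [hpt] at h1 h2
    refine ⟨h1, ?_⟩
    ext u
    rw [mem_Sp]
    constructor
    · rintro ⟨hu, hne⟩
      rw [h2 u hu] at hne
      exact (htn u).1 hne
    · intro hu
      refine ⟨hlt u hu, ?_⟩
      rw [h2 u (hlt u hu)]
      exact (htn u).2 hu

theorem ht_up {k N : ℕ} {p : ℕ → Fin 2 → ℝ} {φ : ℕ → (Fin 2 → ℝ) → ℝ}
    (h : IsHT (Dk 2 k) N p φ) (m : (Fin 2 → ℝ) →ₗ[ℝ] ℝ)
    (hm : ∀ u ∈ Lv (Dk 2 k) N φ, ∀ v ∈ Lv (Dk 2 k) N φ, m (p u) = m (p v) → u = v) :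
    ∀ v ∈ Lv (Dk 2 k) N φ, scn (Tr (Dk 2 k) N φ) (fun u => m (p u)) v
      ≤ if v ∈ Bv (Dk 2 k) N p φ then 1 else 2 := by
  classical
  intro v hv
  set F : Finset (Finset ℕ) := (Tr (Dk 2 k) N φ).filter (fun s => v ∈ s ∧
    (∃ a ∈ s, m (p a) < m (p v)) ∧ ∃ b ∈ s, m (p v) < m (p b)) with hF
  have hscn : scn (Tr (Dk 2 k) N φ) (fun u => m (p u)) v = F.card := by
    unfold scn
    rw [hF]
  rw [hscn]
  have hr : ∀ s : Finset ℕ, ∃ r : ℝ, s ∈ F → r ≠ 0 ∧ ∀ q : ℝ, 0 < q → q < 1 →
      (p v + (q * r) • Up_e m) ∈ Dk 2 k ∧ Sp N φ (p v + (q * r) • Up_e m) = s := by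
    intro s
    by_cases hs : s ∈ F
    · rw [hF, mem_filter] at hs
      obtain ⟨hsT, hvs, ⟨a, ha, hav⟩, b, hb, hvb⟩ := hs
      obtain ⟨r, hr1, hr2⟩ := Up_dir h m hsT hvs ha hb hav hvb
      exact ⟨r, fun _ => ⟨hr1, hr2⟩⟩
    · exact ⟨0, fun hs' => absurd hs' hs⟩
  choose r hr using hr
  -- same sign, same triangle
  have hsame : ∀ s ∈ F, ∀ s' ∈ F, 0 < r s * r s' → s = s' := by
    intro s hs s' hs' hpos
    obtain ⟨_, h2⟩ := hr s hs
    obtain ⟨_, h2'⟩ := hr s' hs'
    have hq : 0 < r s' / (r s + r s') ∧ 0 < r s / (r s + r s') ∧ r s + r s' ≠ 0 := by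
      rcases pos_and_pos_or_neg_and_neg_of_mul_pos hpos with ⟨e1, e2⟩ | ⟨e1, e2⟩
      · exact ⟨div_pos e2 (by linarith), div_pos e1 (by linarith), by linarith⟩
      · exact ⟨div_pos_of_neg_of_neg e2 (by linarith), div_pos_of_neg_of_neg e1 (by linarith),
          by linarith⟩
    obtain ⟨hq1, hq2, hne⟩ := hq
    have hone : r s' / (r s + r s') + r s / (r s + r s') = 1 := by
      field_simp
      ring
    obtain ⟨_, g1⟩ := h2 (r s' / (r s + r s')) hq1 (by linarith)
    obtain ⟨_, g2⟩ := h2' (r s / (r s + r s')) hq2 (by linarith)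
    have e : r s' / (r s + r s') * r s = r s / (r s + r s') * r s' := by ring
    rw [e] at g1
    rw [← g1, g2]
  split_ifs with hB
  · -- boundary vertex
    rw [card_le_one]
    intro s hs s' hs'
    by_contra hne
    obtain ⟨h1, h2⟩ := hr s hs
    obtain ⟨h1', h2'⟩ := hr s' hs'
    have hneg : r s * r s' < 0 := by
      rcases lt_trichotomy (r s * r s') 0 with e | e | e
      · exact e
      · exact absurd e (mul_ne_zero h1 h1')
      · exact absurd (hsame s hs s' hs' e) hne
    have hBv := (mem_Bv.1 hB).2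
    rw [mem_int_iff] at hBv
    push Not at hBv
    obtain ⟨j, hj⟩ := hBv
    have hvD : p v ∈ Dk 2 k := h.mem v (mem_Lv.1 hv).1
    have hj0 : sd k j (p v) = 0 := le_antisymm hj (mem_Dk_iff.1 hvD j)
    obtain ⟨α, β, γ, hαβ, hform⟩ := Side_form k j
    obtain ⟨d1, c1⟩ := h2 (1 / 2) (by norm_num) (by norm_num)
    obtain ⟨d2, _⟩ := h2' (1 / 2) (by norm_num) (by norm_num)
    have f1 := mem_Dk_iff.1 d1 j
    have f2 := mem_Dk_iff.1 d2 j
    have hlin : ∀ t : ℝ, sd k j (p v + t • Up_e m) =
        t * (α * Up_e m 0 + β * Up_e m 1) := by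
      intro t
      rw [hform] at hj0 ⊢
      simp only [Pi.add_apply, Pi.smul_apply, smul_eq_mul]
      linear_combination hj0
    rw [hlin] at f1 f2
    have hc0 : α * Up_e m 0 + β * Up_e m 1 = 0 := by
      by_contra hc
      have e := mul_nonneg f1 f2
      have e2 : 1 / 2 * r s * (α * Up_e m 0 + β * Up_e m 1) *
          (1 / 2 * r s' * (α * Up_e m 0 + β * Up_e m 1)) =
          (r s * r s') * ((α * Up_e m 0 + β * Up_e m 1) ^ 2 / 4) := by ring
      rw [e2] at e
      have e3 : 0 < (α * Up_e m 0 + β * Up_e m 1) ^ 2 / 4 := by positivity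
      have e4 := mul_neg_of_neg_of_pos hneg e3
      linarith
    have hz : sd k j (p v + (1 / 2 * r s) • Up_e m) = 0 := by
      rw [hlin, hc0, mul_zero]
    have hcar := side_carrier h d1 hz
    rw [c1] at hcar
    have hsT := (mem_filter.1 hs).1
    obtain ⟨_, hvs, ⟨a, ha, hav⟩, b, hb, hvb⟩ := mem_filter.1 hs
    have hva : v ≠ a := fun e => by rw [e] at hav; exact lt_irrefl _ hav
    have hvb' : v ≠ b := fun e => by rw [e] at hvb; exact lt_irrefl _ hvb
    have hab : a ≠ b := fun e => by rw [e] at hav; exact lt_irrefl _ (hav.trans hvb)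
    apply tr_nd h s hsT v hvs a ha b hb hva hab hvb'
    have k0 := hcar v hvs
    have k1 := hcar a ha
    have k2 := hcar b hb
    rw [hform] at k0 k1 k2
    unfold dt
    rcases hαβ with hα | hβ
    · have e : α * ((p a 0 - p v 0) * (p b 1 - p v 1) - (p a 1 - p v 1) * (p b 0 - p v 0)) = 0 := by
        linear_combination (p b 1 - p v 1) * (k1 - k0) - (p a 1 - p v 1) * (k2 - k0)
      exact (mul_eq_zero.1 e).resolve_left hα
    · have e : β * ((p a 0 - p v 0) * (p b 1 - p v 1) - (p a 1 - p v 1) * (p b 0 - p v 0)) = 0 := by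
        linear_combination (p a 0 - p v 0) * (k2 - k0) - (p b 0 - p v 0) * (k1 - k0)
      exact (mul_eq_zero.1 e).resolve_left hβ
  · -- interior vertex
    by_contra hcon
    rw [not_le, two_lt_card] at hcon
    obtain ⟨a, ha, b, hb, c, hc, hab, hac, hbc⟩ := hcon
    have ra := (hr a ha).1
    have rb := (hr b hb).1
    have rc := (hr c hc).1
    have n1 : r a * r b < 0 := lt_of_le_of_ne (not_lt.1 fun e => hab (hsame a ha b hb e))
      (mul_ne_zero ra rb)
    have n2 : r a * r c < 0 := lt_of_le_of_ne (not_lt.1 fun e => hac (hsame a ha c hc e))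
      (mul_ne_zero ra rc)
    have n3 : r b * r c < 0 := lt_of_le_of_ne (not_lt.1 fun e => hbc (hsame b hb c hc e))
      (mul_ne_zero rb rc)
    have e1 := mul_pos_of_neg_of_neg n1 n2
    have e2 : r a * r b * (r a * r c) = r a ^ 2 * (r b * r c) := by ring
    rw [e2] at e1
    have e3 : r a ^ 2 * (r b * r c) < 0 := mul_neg_of_pos_of_neg (by positivity) n3
    linarith

end PLH
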