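import Pool.Agent.Lib.MP_6a1069_gt.Tu.Full

/-!
Vert: live vertices.
PROOF.  `phi_vert`: `v ∈ Lv` gives `v < N` and `x ∈ D` with `φ v x ≠ 0` (`mem_Lv`).  `full'` at `x` with
`t u = if u = v then 1 else 0`: `∑ t u • p u = p v`.
`p_inj`: if `p u = p v` then `φ u (p u) = 1` and `φ u (p v) = if u = v then 1 else 0`.
`seg_vert`: `full'` at the point `x` of the triangle `s ∋ u, v` (`mem_Tr`) with
`t a = if a = v then 1 - r else if a = u then r else 0`; `∑ t a • p a = (1-r) • p v + r • p u`.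
`tr_sub_Lv`: `mem_Tr`, `mem_Sp`, `mem_Lv`.
`cone_vert`: `full'` at `x` with `t a = (if a = v then 1 - r else 0) + r * φ a x`; the sum is
`p v + r • (x - p v)` (`h.bary`), and for `a < N`: `t a ≠ 0 ↔ φ a x ≠ 0` (nonnegativity, `φ v x > 0`).
-/

namespace PLH

open Finset

theorem phi_vert {n N : ℕ} {D : Set (Fin n → ℝ)} (hD : IsClosed D) {p : ℕ → Fin n → ℝ}
    {φ : ℕ → (Fin n → ℝ) → ℝ} (h : IsHT D N p φ) {v : ℕ} (hv : v ∈ Lv D N φ) :
    p v ∈ D ∧ ∀ u < N, φ u (p v) = if u = v then 1 else 0 := by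
  obtain ⟨hvN, x, hx, hφ⟩ := mem_Lv.1 hv
  have h1 := full' hD h hx (t := fun u => if u = v then 1 else 0)
    (fun w _ => by
      show (0 : ℝ) ≤ if w = v then 1 else 0
      split_ifs <;> norm_num)
    (by rw [Finset.sum_ite_eq', if_pos (mem_range.2 hvN)])
    (fun w _ hw => by
      have a1 : w ≠ v := fun hwv => hφ (hwv ▸ hw)
      show (if w = v then (1 : ℝ) else 0) = 0
      rw [if_neg a1])
  have e : ∑ u ∈ range N, (if u = v then (1 : ℝ) else 0) • p u = p v := by
    rw [Finset.sum_eq_single v]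
    · rw [if_pos rfl, one_smul]
    · intro b _ hb
      rw [if_neg hb, zero_smul]
    · intro hb
      exact absurd (mem_range.2 hvN) hb
  rw [e] at h1
  exact h1

theorem p_inj {n N : ℕ} {D : Set (Fin n → ℝ)} (hD : IsClosed D) {p : ℕ → Fin n → ℝ}
    {φ : ℕ → (Fin n → ℝ) → ℝ} (h : IsHT D N p φ) : ∀ u ∈ Lv D N φ, ∀ v ∈ Lv D N φ,
    p u = p v → u = v := by
  intro u hu v hv huv
  have h1 := (phi_vert hD h hu).2 u (mem_Lv.1 hu).1
  have h2 := (phi_vert hD h hv).2 u (mem_Lv.1 hu).1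
  rw [if_pos rfl, huv] at h1
  by_contra hne
  rw [if_neg hne, h1] at h2
  exact one_ne_zero h2

/-- every vertex of a triangle is live -/
theorem tr_sub_Lv {n N : ℕ} {D : Set (Fin n → ℝ)} {φ : ℕ → (Fin n → ℝ) → ℝ} :
    ∀ s ∈ Tr D N φ, s ⊆ Lv D N φ := by
  intro s hs a ha
  obtain ⟨-, x, hx, rfl⟩ := mem_Tr.1 hs
  obtain ⟨h1, h2⟩ := mem_Sp.1 ha
  exact mem_Lv.2 ⟨h1, x, hx, h2⟩

/-- points of the edge of neighbours -/
theorem seg_vert {n N : ℕ} {D : Set (Fin n → ℝ)} (hD : IsClosed D) {p : ℕ → Fin n → ℝ}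
    {φ : ℕ → (Fin n → ℝ) → ℝ} (h : IsHT D N p φ) {u v : ℕ} (huv : Adj (Tr D N φ) u v) {r : ℝ}
    (h0 : 0 ≤ r) (h1 : r ≤ 1) : ((1 - r) • p v + r • p u) ∈ D ∧ ∀ a < N,
      φ a ((1 - r) • p v + r • p u) = (if a = v then 1 - r else 0) + (if a = u then r else 0) := by
  obtain ⟨hne, s, hs, hus, hvs⟩ := huv
  obtain ⟨-, x, hx, rfl⟩ := mem_Tr.1 hs
  obtain ⟨huN, hux⟩ := mem_Sp.1 hus
  obtain ⟨hvN, hvx⟩ := mem_Sp.1 hvs
  have hm := full' hD h hx (t := fun a => (if a = v then 1 - r else 0) + (if a = u then r else 0))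
    (fun w _ => by
      show (0 : ℝ) ≤ (if w = v then 1 - r else 0) + (if w = u then r else 0)
      split_ifs <;> linarith)
    (by
      rw [Finset.sum_add_distrib, Finset.sum_ite_eq', Finset.sum_ite_eq',
        if_pos (mem_range.2 hvN), if_pos (mem_range.2 huN)]
      ring)
    (fun w _ hw => by
      have a1 : w ≠ v := fun hwv => hvx (hwv ▸ hw)
      have a2 : w ≠ u := fun hwu => hux (hwu ▸ hw)
      show (if w = v then 1 - r else 0) + (if w = u then r else 0) = 0
      rw [if_neg a1, if_neg a2, add_zero])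
  have e : ∑ a ∈ range N, ((if a = v then 1 - r else 0) + (if a = u then r else 0)) • p a =
      (1 - r) • p v + r • p u := by
    have e1 : ∀ a ∈ range N, ((if a = v then 1 - r else 0) + (if a = u then r else 0)) • p a =
        (if a = v then (1 - r) • p v else 0) + (if a = u then r • p u else 0) := by
      intro a _
      rw [add_smul]
      congr 1
      · split_ifs with h3
        · rw [h3]
        · rw [zero_smul]
      · split_ifs with h3
        · rw [h3]
        · rw [zero_smul]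
    rw [Finset.sum_congr rfl e1, Finset.sum_add_distrib, Finset.sum_ite_eq', Finset.sum_ite_eq',
      if_pos (mem_range.2 hvN), if_pos (mem_range.2 huN)]
  rw [e] at hm
  exact hm

/-- moving towards a vertex of the carrier does not change the carrier -/
theorem cone_vert {n N : ℕ} {D : Set (Fin n → ℝ)} (hD : IsClosed D) {p : ℕ → Fin n → ℝ}
    {φ : ℕ → (Fin n → ℝ) → ℝ} (h : IsHT D N p φ) {v : ℕ} {x : Fin n → ℝ} (hx : x ∈ D)
    (hv : v ∈ Sp N φ x) {r : ℝ} (h0 : 0 < r) (h1 : r ≤ 1) :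
    (p v + r • (x - p v)) ∈ D ∧ Sp N φ (p v + r • (x - p v)) = Sp N φ x := by
  obtain ⟨hvN, hvx⟩ := mem_Sp.1 hv
  have hm := full' hD h hx (t := fun a => (if a = v then 1 - r else 0) + r * φ a x)
    (fun w hw => by
      show (0 : ℝ) ≤ (if w = v then 1 - r else 0) + r * φ w x
      have h2 := mul_nonneg h0.le (h.nonneg w hw x hx)
      split_ifs <;> linarith)
    (by
      rw [Finset.sum_add_distrib, Finset.sum_ite_eq', if_pos (mem_range.2 hvN), ← Finset.mul_sum,
        h.sum_one x hx]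
      ring)
    (fun w _ hw => by
      have a1 : w ≠ v := fun hwv => hvx (hwv ▸ hw)
      show (if w = v then 1 - r else 0) + r * φ w x = 0
      rw [if_neg a1, hw, mul_zero, add_zero])
  have e : ∑ a ∈ range N, ((if a = v then 1 - r else 0) + r * φ a x) • p a =
      p v + r • (x - p v) := by
    have e1 : ∀ a ∈ range N, ((if a = v then 1 - r else 0) + r * φ a x) • p a =
        (if a = v then (1 - r) • p v else 0) + r • (φ a x • p a) := by
      intro a _
      rw [add_smul, mul_smul]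
      congr 1
      split_ifs with h3
      · rw [h3]
      · rw [zero_smul]
    rw [Finset.sum_congr rfl e1, Finset.sum_add_distrib, Finset.sum_ite_eq',
      if_pos (mem_range.2 hvN), ← Finset.smul_sum, h.bary x hx, sub_smul, one_smul, smul_sub]
    abel
  rw [e] at hm
  refine ⟨hm.1, ?_⟩
  ext a
  rw [mem_Sp, mem_Sp]
  refine and_congr_right fun ha => ?_
  rw [hm.2 a ha]
  show (if a = v then 1 - r else 0) + r * φ a x ≠ 0 ↔ φ a x ≠ 0
  have h2 := h.nonneg a ha x hx
  constructor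
  · intro h3 h4
    apply h3
    have a1 : a ≠ v := fun hav => hvx (hav ▸ h4)
    rw [if_neg a1, h4, mul_zero, add_zero]
  · intro h3
    have h4 : 0 < φ a x := lt_of_le_of_ne h2 (Ne.symm h3)
    have h5 := mul_pos h0 h4
    refine ne_of_gt ?_
    split_ifs <;> linarith

end PLH
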